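import Pool.Agent.Lib.PolyTM.ArrayCompile

/-! # Composition of polynomial-time stack machines -/

namespace Pool.Agent.Lib.PolyTM

set_option linter.unusedSectionVars false
set_option linter.unusedSimpArgs false

open Function Turing

/-- The machine `M` started on the word `w` halts with output `w'` after at most `T` steps. -/
def Outputs {α β : Type} (M : TM2ComputableAux α β) (w : List α) (w' : List β) (T : ℕ) : Prop :=
  Nonempty (TM2OutputsInTime M.tm (w.map M.inputAlphabet.invFun)
    (some (w'.map M.outputAlphabet.invFun)) T)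

namespace CompM

variable {K1 K2 : Type} [DecidableEq K1] [DecidableEq K2] {G1 : K1 → Type} {G2 : K2 → Type}
  {L1 L2 s1 s2 β : Type}

/-- Stack alphabets of the composed machine; `none` is the transfer stack. -/
abbrev CG (G1 : K1 → Type) (G2 : K2 → Type) (β : Type) : Option (K1 ⊕ K2) → Type
  | none => β
  | some (.inl k) => G1 k
  | some (.inr k) => G2 k

/-- Labels of the composed machine. -/
abbrev CL (L1 L2 : Type) : Type := L1 ⊕ L2 ⊕ Bool

/-- Registers of the composed machine. -/
abbrev CS (s1 s2 β : Type) : Type := s1 × s2 × Option β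

/-- Stack contents of the composed machine. -/
def emb (S1 : ∀ k, List (G1 k)) (S2 : ∀ k, List (G2 k)) (T : List β) :
    ∀ k, List (CG G1 G2 β k)
  | none => T
  | some (.inl k) => S1 k
  | some (.inr k) => S2 k

theorem emb_inl (S1 : ∀ k, List (G1 k)) (S2 : ∀ k, List (G2 k)) (T : List β) (k : K1)
    (l : List (G1 k)) :
    update (emb S1 S2 T) (some (.inl k)) l = emb (update S1 k l) S2 T := by
  funext j
  rcases j with _ | j | j
  · simp [emb]
  · by_cases h : j = k
    · subst h; simp [emb]
    · rw [update_of_ne (by simpa using h)]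
      simp [emb, update_of_ne h]
  · simp [emb]

theorem emb_inr (S1 : ∀ k, List (G1 k)) (S2 : ∀ k, List (G2 k)) (T : List β) (k : K2)
    (l : List (G2 k)) :
    update (emb S1 S2 T) (some (.inr k)) l = emb S1 (update S2 k l) T := by
  funext j
  rcases j with _ | j | j
  · simp [emb]
  · simp [emb]
  · by_cases h : j = k
    · subst h; simp [emb]
    · rw [update_of_ne (by simpa using h)]
      simp [emb, update_of_ne h]

theorem emb_none (S1 : ∀ k, List (G1 k)) (S2 : ∀ k, List (G2 k)) (T l : List β) :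
    update (emb S1 S2 T) none l = emb S1 S2 l := by
  funext j
  rcases j with _ | j | j
  · simp [emb]
  · simp [emb]
  · simp [emb]

/-- Statements of the first machine. -/
def tr1 : TM2.Stmt G1 L1 s1 → TM2.Stmt (CG G1 G2 β) (CL L1 L2) (CS s1 s2 β)
  | .push k f q => .push (some (.inl k)) (fun s => f s.1) (tr1 q)
  | .peek k f q => .peek (some (.inl k)) (fun s o => (f s.1 o, s.2)) (tr1 q)
  | .pop k f q => .pop (some (.inl k)) (fun s o => (f s.1 o, s.2)) (tr1 q)
  | .load a q => .load (fun s => (a s.1, s.2)) (tr1 q)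
  | .branch p q1 q2 => .branch (fun s => p s.1) (tr1 q1) (tr1 q2)
  | .goto l => .goto fun s => .inl (l s.1)
  | .halt => .goto fun _ => .inr (.inr false)

/-- Statements of the second machine. -/
def tr2 : TM2.Stmt G2 L2 s2 → TM2.Stmt (CG G1 G2 β) (CL L1 L2) (CS s1 s2 β)
  | .push k f q => .push (some (.inr k)) (fun s => f s.2.1) (tr2 q)
  | .peek k f q => .peek (some (.inr k)) (fun s o => (s.1, f s.2.1 o, s.2.2)) (tr2 q)
  | .pop k f q => .pop (some (.inr k)) (fun s o => (s.1, f s.2.1 o, s.2.2)) (tr2 q)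
  | .load a q => .load (fun s => (s.1, a s.2.1, s.2.2)) (tr2 q)
  | .branch p q1 q2 => .branch (fun s => p s.2.1) (tr2 q1) (tr2 q2)
  | .goto l => .goto fun s => .inr (.inl (l s.2.1))
  | .halt => .halt

/-- Configurations of the first phase. -/
def c1 (S2 : ∀ k, List (G2 k)) (T : List β) (v2 : s2) (o : Option β) (c : TM2.Cfg G1 L1 s1) :
    TM2.Cfg (CG G1 G2 β) (CL L1 L2) (CS s1 s2 β) :=
  ⟨some (c.l.elim (.inr (.inr false)) .inl), (c.var, v2, o), emb c.stk S2 T⟩

/-- Configurations of the last phase. -/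
def c2 (S1 : ∀ k, List (G1 k)) (T : List β) (v1 : s1) (o : Option β) (c : TM2.Cfg G2 L2 s2) :
    TM2.Cfg (CG G1 G2 β) (CL L1 L2) (CS s1 s2 β) :=
  ⟨c.l.map fun l => .inr (.inl l), (v1, c.var, o), emb S1 c.stk T⟩

theorem step1 (q : TM2.Stmt G1 L1 s1) (v1 : s1) (S1 : ∀ k, List (G1 k))
    (S2 : ∀ k, List (G2 k)) (T : List β) (v2 : s2) (o : Option β) :
    TM2.stepAux (tr1 q : TM2.Stmt (CG G1 G2 β) (CL L1 L2) (CS s1 s2 β)) (v1, v2, o) (emb S1 S2 T)
      = c1 S2 T v2 o (TM2.stepAux q v1 S1) := by
  induction q generalizing v1 S1 with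
  | push k f q ih =>
    simp only [tr1, TM2.stepAux]
    rw [emb_inl]
    exact ih v1 _
  | peek k f q ih =>
    simp only [tr1, TM2.stepAux]
    exact ih _ _
  | pop k f q ih =>
    simp only [tr1, TM2.stepAux]
    rw [emb_inl]
    exact ih _ _
  | load a q ih =>
    simp only [tr1, TM2.stepAux]
    exact ih _ _
  | branch p q1 q2 ih1 ih2 =>
    simp only [tr1, TM2.stepAux]
    cases p v1
    · exact ih2 _ _
    · exact ih1 _ _
  | goto l => rfl
  | halt => rfl

theorem step2 (q : TM2.Stmt G2 L2 s2) (v2 : s2) (S2 : ∀ k, List (G2 k))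
    (S1 : ∀ k, List (G1 k)) (T : List β) (v1 : s1) (o : Option β) :
    TM2.stepAux (tr2 q : TM2.Stmt (CG G1 G2 β) (CL L1 L2) (CS s1 s2 β)) (v1, v2, o) (emb S1 S2 T)
      = c2 S1 T v1 o (TM2.stepAux q v2 S2) := by
  induction q generalizing v2 S2 with
  | push k f q ih =>
    simp only [tr2, TM2.stepAux]
    rw [emb_inr]
    exact ih v2 _
  | peek k f q ih =>
    simp only [tr2, TM2.stepAux]
    exact ih _ _
  | pop k f q ih =>
    simp only [tr2, TM2.stepAux]
    rw [emb_inr]
    exact ih _ _
  | load a q ih =>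
    simp only [tr2, TM2.stepAux]
    exact ih _ _
  | branch p q1 q2 ih1 ih2 =>
    simp only [tr2, TM2.stepAux]
    cases p v2
    · exact ih2 _ _
    · exact ih1 _ _
  | goto l => rfl
  | halt => rfl

variable [Nonempty β]

/-- The program of the composed machine. -/
noncomputable def ccode (k1 : K1) (k2 : K2) (e1 : G1 k1 ≃ β) (e2 : G2 k2 ≃ β) (main2 : L2)
    (m1 : L1 → TM2.Stmt G1 L1 s1) (m2 : L2 → TM2.Stmt G2 L2 s2) :
    CL L1 L2 → TM2.Stmt (CG G1 G2 β) (CL L1 L2) (CS s1 s2 β)
  | .inl l => tr1 (m1 l)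
  | .inr (.inl l) => tr2 (m2 l)
  | .inr (.inr false) =>
      .pop (some (.inl k1)) (fun s o => (s.1, s.2.1, o.map e1)) <|
      .branch (fun s => s.2.2.isSome)
        (.push none (fun s => s.2.2.getD (Classical.arbitrary β)) <|
          .load (fun s => (s.1, s.2.1, none)) <| .goto fun _ => .inr (.inr false))
        (.load (fun s => (s.1, s.2.1, none)) <| .goto fun _ => .inr (.inr true))
  | .inr (.inr true) =>
      .pop none (fun s o => (s.1, s.2.1, o)) <|
      .branch (fun s => s.2.2.isSome)
        (.push (some (.inr k2)) (fun s => e2.symm (s.2.2.getD (Classical.arbitrary β))) <|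
          .load (fun s => (s.1, s.2.1, none)) <| .goto fun _ => .inr (.inr true))
        (.load (fun s => (s.1, s.2.1, none)) <| .goto fun _ => .inr (.inl main2))

section

variable (k1 : K1) (k2 : K2) (e1 : G1 k1 ≃ β) (e2 : G2 k2 ≃ β) (main2 : L2)
    (m1 : L1 → TM2.Stmt G1 L1 s1) (m2 : L2 → TM2.Stmt G2 L2 s2)

theorem iter_none {σ : Type} (f : σ → Option σ) (t : ℕ) : (flip bind f)^[t] none = none := by
  induction t with
  | zero => rfl
  | succ t ih => rw [Function.iterate_succ_apply]; exact ih

theorem phase1 (S2 : ∀ k, List (G2 k)) (T : List β) (v2 : s2) (o : Option β) :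
    ∀ (t : ℕ) (c c' : TM2.Cfg G1 L1 s1), c'.l = none →
      (flip bind (TM2.step m1))^[t] (some c) = some c' →
      (flip bind (TM2.step (ccode k1 k2 e1 e2 main2 m1 m2)))^[t] (some (c1 S2 T v2 o c)) =
        some (c1 S2 T v2 o c') := by
  intro t
  induction t with
  | zero =>
    intro c c' _ h
    simp only [Function.iterate_zero, id_eq, Option.some.injEq] at h ⊢
    rw [h]
  | succ t ih =>
    intro c c' hc' h
    rw [Function.iterate_succ_apply] at h ⊢
    obtain ⟨l, v, S⟩ := c
    cases l with
    | none =>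
      have h0 : flip bind (TM2.step m1) (some (⟨none, v, S⟩ : TM2.Cfg G1 L1 s1)) = none := rfl
      rw [h0, iter_none] at h
      exact absurd h (by simp)
    | some l =>
      have h1 : flip bind (TM2.step m1) (some (⟨some l, v, S⟩ : TM2.Cfg G1 L1 s1)) =
        some (TM2.stepAux (m1 l) v S) := rfl
      rw [h1] at h
      have h2 : flip bind (TM2.step (ccode k1 k2 e1 e2 main2 m1 m2))
          (some (c1 S2 T v2 o ⟨some l, v, S⟩)) = some (c1 S2 T v2 o (TM2.stepAux (m1 l) v S)) := by
        rw [← step1]; rfl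
      rw [h2]
      exact ih _ _ hc' h

theorem phase4 (S1 : ∀ k, List (G1 k)) (T : List β) (v1 : s1) (o : Option β) :
    ∀ (t : ℕ) (c c' : TM2.Cfg G2 L2 s2),
      (flip bind (TM2.step m2))^[t] (some c) = some c' →
      (flip bind (TM2.step (ccode k1 k2 e1 e2 main2 m1 m2)))^[t] (some (c2 S1 T v1 o c)) =
        some (c2 S1 T v1 o c') := by
  intro t
  induction t with
  | zero =>
    intro c c' h
    simp only [Function.iterate_zero, id_eq, Option.some.injEq] at h ⊢
    rw [h]
  | succ t ih =>
    intro c c' h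
    rw [Function.iterate_succ_apply] at h ⊢
    obtain ⟨l, v, S⟩ := c
    cases l with
    | none =>
      have h0 : flip bind (TM2.step m2) (some (⟨none, v, S⟩ : TM2.Cfg G2 L2 s2)) = none := rfl
      rw [h0, iter_none] at h
      exact absurd h (by simp)
    | some l =>
      have h1 : flip bind (TM2.step m2) (some (⟨some l, v, S⟩ : TM2.Cfg G2 L2 s2)) =
        some (TM2.stepAux (m2 l) v S) := rfl
      rw [h1] at h
      have h2 : flip bind (TM2.step (ccode k1 k2 e1 e2 main2 m1 m2))
          (some (c2 S1 T v1 o ⟨some l, v, S⟩)) = some (c2 S1 T v1 o (TM2.stepAux (m2 l) v S)) := by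
        rw [← step2]; rfl
      rw [h2]
      exact ih _ _ h

theorem phase2 (S2 : ∀ k, List (G2 k)) (v1 : s1) (v2 : s2) :
    ∀ (l : List (G1 k1)) (S1 : ∀ k, List (G1 k)) (T : List β), S1 k1 = l →
      Rch (ccode k1 k2 e1 e2 main2 m1 m2) (l.length + 1)
        ⟨some (.inr (.inr false)), (v1, v2, none), emb S1 S2 T⟩
        ⟨some (.inr (.inr true)), (v1, v2, none),
          emb (update S1 k1 []) S2 ((l.map e1).reverse ++ T)⟩ := by
  intro l
  induction l with
  | nil =>
    intro S1 T hl
    refine Rch.step ?_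
    simp only [TM2.step, ccode, TM2.stepAux, emb, hl, List.head?_nil, Option.map_none,
      Option.isSome_none, cond_false, List.tail_nil, List.map_nil, List.reverse_nil,
      List.nil_append]
    rw [emb_inl]
  | cons a l ih =>
    intro S1 T hl
    have h1 : Rch (ccode k1 k2 e1 e2 main2 m1 m2) 1
        ⟨some (.inr (.inr false)), (v1, v2, none), emb S1 S2 T⟩
        ⟨some (.inr (.inr false)), (v1, v2, none), emb (update S1 k1 l) S2 (e1 a :: T)⟩ := by
      refine Rch.step ?_
      simp only [TM2.step, ccode, TM2.stepAux, emb, hl, List.head?_cons, Option.map_some,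
        Option.isSome_some, cond_true, List.tail_cons, Option.getD_some]
      rw [emb_inl, emb_none]
      simp [emb]
    have h2 := ih (update S1 k1 l) (e1 a :: T) (by simp)
    rw [update_idem] at h2
    have := h1.trans h2
    rw [show 1 + (l.length + 1) = (a :: l).length + 1 by simp; omega] at this
    simpa using this

theorem phase3 (S1 : ∀ k, List (G1 k)) (v1 : s1) (v2 : s2) :
    ∀ (T : List β) (S2 : ∀ k, List (G2 k)),
      Rch (ccode k1 k2 e1 e2 main2 m1 m2) (T.length + 1)
        ⟨some (.inr (.inr true)), (v1, v2, none), emb S1 S2 T⟩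
        ⟨some (.inr (.inl main2)), (v1, v2, none),
          emb S1 (update S2 k2 ((T.map e2.symm).reverse ++ S2 k2)) []⟩ := by
  intro T
  induction T with
  | nil =>
    intro S2
    refine Rch.step ?_
    simp only [TM2.step, ccode, TM2.stepAux, emb, List.head?_nil,
      Option.isSome_none, cond_false, List.tail_nil, List.map_nil, List.reverse_nil,
      List.nil_append, update_eq_self]
    rw [emb_none]
  | cons a T ih =>
    intro S2
    have h1 : Rch (ccode k1 k2 e1 e2 main2 m1 m2) 1
        ⟨some (.inr (.inr true)), (v1, v2, none), emb S1 S2 (a :: T)⟩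
        ⟨some (.inr (.inr true)), (v1, v2, none),
          emb S1 (update S2 k2 (e2.symm a :: S2 k2)) T⟩ := by
      refine Rch.step ?_
      simp only [TM2.step, ccode, TM2.stepAux, emb, List.head?_cons,
        Option.isSome_some, cond_true, List.tail_cons, Option.getD_some]
      rw [emb_none, emb_inr]
      simp [emb]
    have h2 := ih (update S2 k2 (e2.symm a :: S2 k2))
    rw [update_idem] at h2
    have := h1.trans h2
    rw [show 1 + (T.length + 1) = (a :: T).length + 1 by simp; omega] at this
    simpa using this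

end

/-! ### Growth of stacks -/

section Growth

variable {K : Type} [DecidableEq K] {Γ : K → Type} {Λ σ : Type}

/-- Number of pushes of a statement. -/
def size : TM2.Stmt Γ Λ σ → ℕ
  | .push _ _ q => size q + 1
  | .peek _ _ q => size q
  | .pop _ _ q => size q
  | .load _ q => size q
  | .branch _ q1 q2 => size q1 + size q2
  | .goto _ => 0
  | .halt => 0

theorem stepAux_len (q : TM2.Stmt Γ Λ σ) (v : σ) (S : ∀ k, List (Γ k)) (k : K) :
    ((TM2.stepAux q v S).stk k).length ≤ (S k).length + size q := by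
  induction q generalizing v S with
  | push j f q ih =>
    simp only [TM2.stepAux, size]
    refine (ih _ _).trans ?_
    by_cases h : k = j
    · subst h; simp; omega
    · rw [update_of_ne h]; omega
  | peek j f q ih => exact ih _ _
  | pop j f q ih =>
    simp only [TM2.stepAux, size]
    refine (ih _ _).trans ?_
    by_cases h : k = j
    · subst h; simp
    · rw [update_of_ne h]
  | load a q ih => exact ih _ _
  | branch p q1 q2 ih1 ih2 =>
    simp only [TM2.stepAux, size]
    cases p v
    · exact (ih2 _ _).trans (by omega)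
    · exact (ih1 _ _).trans (by omega)
  | goto l => simp [TM2.stepAux, size]
  | halt => simp [TM2.stepAux, size]

theorem iter_len (m : Λ → TM2.Stmt Γ Λ σ) (C : ℕ) (hC : ∀ l, size (m l) ≤ C) (k : K) :
    ∀ (t : ℕ) (c c' : TM2.Cfg Γ Λ σ), (flip bind (TM2.step m))^[t] (some c) = some c' →
      (c'.stk k).length ≤ (c.stk k).length + C * t := by
  intro t
  induction t with
  | zero =>
    intro c c' h
    simp only [Function.iterate_zero, id_eq, Option.some.injEq] at h
    rw [h]; omega
  | succ t ih =>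
    intro c c' h
    rw [Function.iterate_succ_apply] at h
    obtain ⟨l, v, S⟩ := c
    cases l with
    | none =>
      have h0 : flip bind (TM2.step m) (some (⟨none, v, S⟩ : TM2.Cfg Γ Λ σ)) = none := rfl
      rw [h0, iter_none] at h
      exact absurd h (by simp)
    | some l =>
      have h1 : flip bind (TM2.step m) (some (⟨some l, v, S⟩ : TM2.Cfg Γ Λ σ)) =
        some (TM2.stepAux (m l) v S) := rfl
      rw [h1] at h
      have h2 := ih _ _ h
      have h3 := stepAux_len (m l) v S k
      have h4 := hC l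
      simp only
      rw [Nat.mul_succ]
      omega

end Growth

end CompM

/-- A machine's output is not much longer than its input and its running time. -/
theorem Outputs.length_le {α β : Type} (M : TM2ComputableAux α β) : ∃ C : ℕ, ∀ w w' T,
    Outputs M w w' T → w'.length ≤ w.length + C * T := by
  let _ := M.tm.ΛFin
  refine ⟨∑ l : M.tm.Λ, CompM.size (M.tm.m l), fun w w' T ⟨h⟩ => ?_⟩
  obtain ⟨⟨t, ht⟩, hle⟩ := h
  have h1 := CompM.iter_len M.tm.m (∑ l : M.tm.Λ, CompM.size (M.tm.m l))
    (fun l => Finset.single_le_sum (f := fun l => CompM.size (M.tm.m l))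
      (fun _ _ => Nat.zero_le _) (Finset.mem_univ l)) M.tm.k₁ t _ _ ht
  have h2 : ((haltList M.tm (w'.map M.outputAlphabet.invFun)).stk M.tm.k₁).length
      = w'.length := by
    simp [haltList]
  have h3 : ((initList M.tm (w.map M.inputAlphabet.invFun)).stk M.tm.k₁).length
      ≤ w.length := by
    simp only [initList]
    split
    · rename_i h
      have h5 : ∀ (k : M.tm.K) (h : k = M.tm.k₀) (l : List (M.tm.Γ M.tm.k₀)),
          (cast (congrArg (fun k => List (M.tm.Γ k)) h.symm) l : List (M.tm.Γ k)).length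
            = l.length := by
        intro k h l; subst h; rfl
      exact (h5 _ h _).le.trans (by simp)
    · simp
  have h4 : t ≤ T := hle
  calc w'.length = _ := h2.symm
    _ ≤ _ := h1
    _ ≤ w.length + _ := Nat.add_le_add h3 (Nat.mul_le_mul_left _ h4)


namespace CompM

theorem cgFinite {K1 K2 : Type} (G1 : K1 → Type) (G2 : K2 → Type) (β : Type) [Finite β]
    (h1 : ∀ k, Finite (G1 k)) (h2 : ∀ k, Finite (G2 k)) :
    (k : Option (K1 ⊕ K2)) → Finite (CG G1 G2 β k)
  | none => inferInstanceAs (Finite β)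
  | some (.inl k) => h1 k
  | some (.inr k) => h2 k

/-- The composed machine. -/
noncomputable def machine {α β γ : Type} [Fintype β] [Nonempty β] (M1 : TM2ComputableAux α β)
    (M2 : TM2ComputableAux β γ) : FinTM2 :=
  letI := M1.tm.kFin
  letI := M2.tm.kFin
  letI := M1.tm.ΛFin
  letI := M2.tm.ΛFin
  letI := M1.tm.σFin
  letI := M2.tm.σFin
  { K := Option (M1.tm.K ⊕ M2.tm.K)
    k₀ := some (.inl M1.tm.k₀)
    k₁ := some (.inr M2.tm.k₁)
    Γ := CG M1.tm.Γ M2.tm.Γ β
    Λ := CL M1.tm.Λ M2.tm.Λ
    main := .inl M1.tm.main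
    σ := CS M1.tm.σ M2.tm.σ β
    initialState := (M1.tm.initialState, M2.tm.initialState, none)
    Γk₀Fin := M1.tm.Γk₀Fin
    m := ccode M1.tm.k₁ M2.tm.k₀ M1.outputAlphabet M2.inputAlphabet M2.tm.main
      M1.tm.m M2.tm.m }

end CompM

open CompM in
/-- **Composition of machines.** -/
theorem comp_outputs {α β γ : Type} [Fintype β] [Nonempty β] (M1 : TM2ComputableAux α β)
    (M2 : TM2ComputableAux β γ) : ∃ M : TM2ComputableAux α γ,
      ((∀ k, Finite (M1.tm.Γ k)) → (∀ k, Finite (M2.tm.Γ k)) → ∀ k, Finite (M.tm.Γ k)) ∧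
      ∀ w w1 w2 t1 t2, Outputs M1 w w1 t1 → Outputs M2 w1 w2 t2 →
        Outputs M w w2 (t1 + 2 * (w1.length + 1) + t2) := by
  refine ⟨⟨machine M1 M2, M1.inputAlphabet, M2.outputAlphabet⟩, fun h1 h2 => ?_, ?_⟩
  · exact cgFinite M1.tm.Γ M2.tm.Γ β h1 h2
  · rintro w w1 w2 t1 t2 ⟨⟨⟨n1, e1⟩, l1⟩⟩ ⟨⟨⟨n2, e2⟩, l2⟩⟩
    set mm := ccode M1.tm.k₁ M2.tm.k₀ M1.outputAlphabet M2.inputAlphabet M2.tm.main
      M1.tm.m M2.tm.m with hmm
    have p1 := phase1 M1.tm.k₁ M2.tm.k₀ M1.outputAlphabet M2.inputAlphabet M2.tm.main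
      M1.tm.m M2.tm.m (fun _ => []) [] M2.tm.initialState none n1 _ _ rfl e1
    have q1 : Rch mm t1 _ _ := ⟨n1, l1, p1⟩
    have q2 := phase2 M1.tm.k₁ M2.tm.k₀ M1.outputAlphabet M2.inputAlphabet M2.tm.main
      M1.tm.m M2.tm.m (fun _ => []) M1.tm.initialState M2.tm.initialState
      (w1.map M1.outputAlphabet.invFun) (haltList M1.tm (w1.map M1.outputAlphabet.invFun)).stk
      [] (by simp [haltList])
    have f1 : update (haltList M1.tm (w1.map M1.outputAlphabet.invFun)).stk M1.tm.k₁ [] =
        fun _ => [] := by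
      funext k
      by_cases h : k = M1.tm.k₁
      · subst h; simp
      · rw [update_of_ne h]
        simp [haltList, h]
    have f2 : ((w1.map M1.outputAlphabet.invFun).map M1.outputAlphabet).reverse ++ [] =
        w1.reverse := by
      rw [List.map_map]
      simp
    rw [f1, f2] at q2
    have q3 := phase3 M1.tm.k₁ M2.tm.k₀ M1.outputAlphabet M2.inputAlphabet M2.tm.main
      M1.tm.m M2.tm.m (fun _ => []) M1.tm.initialState M2.tm.initialState
      w1.reverse (fun _ => [])
    have p4 := phase4 M1.tm.k₁ M2.tm.k₀ M1.outputAlphabet M2.inputAlphabet M2.tm.main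
      M1.tm.m M2.tm.m (fun _ => []) [] M1.tm.initialState none n2 _ _ e2
    have q4 : Rch mm t2 _ _ := ⟨n2, l2, p4⟩
    have f3 : (⟨some (.inr (.inl M2.tm.main)), (M1.tm.initialState, M2.tm.initialState, none),
        emb (fun _ => []) (update (fun _ => []) M2.tm.k₀
          (((w1.reverse).map M2.inputAlphabet.symm).reverse ++ [])) []⟩ :
          TM2.Cfg (CG M1.tm.Γ M2.tm.Γ β) (CL M1.tm.Λ M2.tm.Λ) (CS M1.tm.σ M2.tm.σ β)) =
        c2 (fun _ => []) [] M1.tm.initialState none
          (initList M2.tm (w1.map M2.inputAlphabet.invFun)) := by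
      simp only [c2, initList, Option.map_some]
      congr 2
      funext k
      by_cases h : k = M2.tm.k₀
      · subst h; simp
      · rw [update_of_ne h]
        simp [h]
    rw [f3] at q3
    have h := ((q1.trans q2).trans q3).trans q4
    obtain ⟨n, hn, he⟩ := h
    have g1 : (c1 (fun _ => []) [] M2.tm.initialState none
        (initList M1.tm (w.map M1.inputAlphabet.invFun)) :
          TM2.Cfg (CG M1.tm.Γ M2.tm.Γ β) (CL M1.tm.Λ M2.tm.Λ) (CS M1.tm.σ M2.tm.σ β)) =
        initList (machine M1 M2) (w.map M1.inputAlphabet.invFun) := by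
      simp only [c1, initList, machine, Option.elim]
      congr 1
      funext k
      rcases k with _ | k | k
      · simp [emb]
      · by_cases h : k = M1.tm.k₀
        · subst h; simp [emb]
        · simp [emb, h]
      · simp [emb]
    have g2 : (c2 (fun _ => []) [] M1.tm.initialState none
        (haltList M2.tm (w2.map M2.outputAlphabet.invFun)) :
          TM2.Cfg (CG M1.tm.Γ M2.tm.Γ β) (CL M1.tm.Λ M2.tm.Λ) (CS M1.tm.σ M2.tm.σ β)) =
        haltList (machine M1 M2) (w2.map M2.outputAlphabet.invFun) := by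
      simp only [c2, haltList, machine, Option.map_none]
      congr 1
      funext k
      rcases k with _ | k | k
      · simp [emb]
      · simp [emb]
      · by_cases h : k = M2.tm.k₁
        · subst h; simp [emb]
        · simp [emb, h]
    rw [g1, g2] at he
    refine ⟨⟨⟨n, he⟩, ?_⟩⟩
    change n ≤ _
    simp only [List.length_map, List.length_reverse] at hn
    omega

/-- A function on words computed in polynomial time by a machine with finite alphabets. -/
def PolyFun {α β : Type} (f : List α → List β) : Prop :=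
  ∃ (M : TM2ComputableAux α β) (p : Polynomial ℕ), (∀ k, Finite (M.tm.Γ k)) ∧
    ∀ w, Outputs M w (f w) (p.eval w.length)

theorem PolyFun.length_le {α β : Type} {f : List α → List β} (hf : PolyFun f) :
    ∃ p : Polynomial ℕ, ∀ w, (f w).length ≤ p.eval w.length := by
  obtain ⟨M, p, _, hM⟩ := hf
  obtain ⟨C, hC⟩ := Outputs.length_le M
  refine ⟨Polynomial.X + (C : Polynomial ℕ) * p, fun w => ?_⟩
  have := hC _ _ _ (hM w)
  simpa using this

theorem PolyFun.comp {α β γ : Type} [Fintype β] [Nonempty β] {g : List β → List γ}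
    {f : List α → List β} (hg : PolyFun g) (hf : PolyFun f) : PolyFun (g ∘ f) := by
  obtain ⟨pl, hpl⟩ := hf.length_le
  obtain ⟨M1, p1, h1, k1⟩ := hf
  obtain ⟨M2, p2, h2, k2⟩ := hg
  obtain ⟨M, hfin, hM⟩ := comp_outputs M1 M2
  refine ⟨M, p1 + 2 * (pl + 1) + p2.comp pl, hfin h1 h2, fun w => ?_⟩
  obtain ⟨⟨a, b⟩⟩ := hM w (f w) (g (f w)) _ _ (k1 w) (k2 (f w))
  refine ⟨⟨a, b.trans ?_⟩⟩
  have e1 := hpl w
  have e2 := poly_mono p2 e1
  simp only [Polynomial.eval_add, Polynomial.eval_mul, Polynomial.eval_ofNat,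
    Polynomial.eval_one, Polynomial.eval_comp]
  omega

end Pool.Agent.Lib.PolyTM
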