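import Pool.Agent.Lib.PolyTM.Rules

/-! # Programs that only write output; numbers in mixed radix -/

namespace Pool.Agent.Lib.PolyTM

set_option linter.unusedSectionVars false
set_option linter.unusedSimpArgs false

open Function

section

variable {V W : Type} [DecidableEq V] [DecidableEq W] {N : ℕ}

/-- The program `s` leaves the arrays unchanged and appends `l` to the output. -/
def Emits (N : ℕ) (a : Arr W) (s : Stmt V W) (e : V → ℕ) (l : List Bool) : Prop :=
  ∀ o, s.run N e ⟨a, o⟩ = ⟨a, o ++ l⟩

variable {a : Arr W} {e : V → ℕ}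

theorem Emits.skip : Emits N a (.skip : Stmt V W) e [] := fun o => by simp [Stmt.run]

theorem Emits.emit (φ : Fml V W) : Emits N a (.emit φ) e [φ.eval N a e] := fun o => by
  simp [Stmt.run]

theorem Emits.seq {s t : Stmt V W} {l l' : List Bool} (h : Emits N a s e l)
    (h' : Emits N a t e l') : Emits N a (.seq s t) e (l ++ l') := fun o => by
  simp only [Stmt.run]
  rw [h, h', List.append_assoc]

theorem Emits.ite {c : Cond V W} {s t : Stmt V W} {l : List Bool}
    (h : Emits N a (if c.eval N a e then s else t) e l) : Emits N a (.ite c s t) e l := by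
  intro o
  have := h o
  simp only [Stmt.run]
  split <;> simp_all

theorem Emits.loop {x : V} {s : Stmt V W} {f : ℕ → List Bool}
    (h : ∀ t < N, Emits N a s (update e x t) (f t)) :
    Emits N a (.loop x s) e ((List.range N).flatMap f) := by
  intro o
  have key : ∀ m ≤ N, (List.range m).foldl (fun σ t => s.run N (update e x t) σ) ⟨a, o⟩ =
      (⟨a, o ++ (List.range m).flatMap f⟩ : AS W) := by
    intro m
    induction m with
    | zero => intro _; simp
    | succ m ih =>
      intro hm
      rw [List.range_succ, List.foldl_append, ih (by omega), List.foldl_cons, List.foldl_nil,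
        h m (by omega), List.flatMap_append, List.append_assoc]
      simp
  exact key N le_rfl

/-- Sequence of a list of programs. -/
def seqs : List (Stmt V W) → Stmt V W
  | [] => .skip
  | s :: l => .seq s (seqs l)

theorem Emits.seqs {ι : Type} (L : List ι) {s : ι → Stmt V W} {f : ι → List Bool}
    (h : ∀ i ∈ L, Emits N a (s i) e (f i)) :
    Emits N a (seqs (L.map s)) e (L.flatMap f) := by
  induction L with
  | nil => exact Emits.skip
  | cons i L ih =>
    simp only [List.map_cons, PolyTM.seqs, List.flatMap_cons]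
    exact (h i (by simp)).seq (ih fun j hj => h j (by simp [hj]))

theorem wf_seqs {ar : W → ℕ} {F : List V} (L : List (Stmt V W))
    (h : ∀ s ∈ L, s.wf ar F = true) : (seqs L).wf ar F = true := by
  induction L with
  | nil => rfl
  | cons s L ih =>
    simp only [seqs, Stmt.wf, Bool.and_eq_true]
    exact ⟨h s (by simp), ih fun t ht => h t (by simp [ht])⟩

/-! ### Digits -/

/-- A digit of a number: a constant with its radix, or a variable. -/
inductive Dg (V : Type)
  | c (r v : ℕ)
  | x (x : V)

/-- Radix. -/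
def Dg.rad (N : ℕ) : Dg V → ℕ
  | .c r _ => r
  | .x _ => N

/-- Value. -/
def Dg.val (e : V → ℕ) : Dg V → ℕ
  | .c _ v => v
  | .x y => e y

/-- Product of the radices. -/
def radP (N : ℕ) (ds : List (Dg V)) : ℕ := (ds.map (Dg.rad N)).prod

/-- The number with the given digits. -/
def num (N : ℕ) (e : V → ℕ) : List (Dg V) → ℕ
  | [] => 0
  | d :: ds => d.val e * radP N ds + num N e ds

/-- All digits are smaller than their radix. -/
def Good (N : ℕ) (e : V → ℕ) (ds : List (Dg V)) : Prop := ∀ d ∈ ds, d.val e < d.rad N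

theorem radP_cons (d : Dg V) (ds : List (Dg V)) : radP N (d :: ds) = d.rad N * radP N ds := by
  simp [radP]

theorem radP_append (ds ds' : List (Dg V)) :
    radP N (ds ++ ds') = radP N ds * radP N ds' := by
  simp [radP]

theorem num_append (ds ds' : List (Dg V)) :
    num N e (ds ++ ds') = num N e ds * radP N ds' + num N e ds' := by
  induction ds with
  | nil => simp [num]
  | cons d ds ih =>
    simp only [List.cons_append, num, ih, radP_append]
    ring

theorem Good.cons {d : Dg V} {ds : List (Dg V)} (h : Good N e (d :: ds)) :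
    d.val e < d.rad N ∧ Good N e ds :=
  ⟨h d (by simp), fun d' hd' => h d' (by simp [hd'])⟩

theorem Good.append {ds ds' : List (Dg V)} (h : Good N e (ds ++ ds')) :
    Good N e ds ∧ Good N e ds' :=
  ⟨fun d' hd' => h d' (by simp [hd']), fun d' hd' => h d' (by simp [hd'])⟩

theorem num_lt {ds : List (Dg V)} (h : Good N e ds) : num N e ds < radP N ds := by
  induction ds with
  | nil => simp [num, radP]
  | cons d ds ih =>
    obtain ⟨h1, h2⟩ := h.cons
    have h3 := ih h2
    rw [num, radP_cons]
    have h4 : (d.val e + 1) * radP N ds ≤ d.rad N * radP N ds := Nat.mul_le_mul_right _ h1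
    nlinarith

/-- Digit specifications: a constant radix to be unrolled, or a loop variable. -/
abbrev Sp (V : Type) : Type := ℕ ⊕ V

/-- Radices of a specification. -/
def radS (N : ℕ) : List (Sp V) → ℕ
  | [] => 1
  | .inl r :: sp => r * radS N sp
  | .inr _ :: sp => N * radS N sp

/-- Variables of a specification. -/
def vars : List (Sp V) → List V
  | [] => []
  | .inl _ :: sp => vars sp
  | .inr x :: sp => x :: vars sp

/-- Digit lists matching a specification. -/
inductive Shape : List (Sp V) → List (Dg V) → Prop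
  | nil : Shape [] []
  | c (r v : ℕ) (hv : v < r) (sp ds) (h : Shape sp ds) : Shape (.inl r :: sp) (.c r v :: ds)
  | x (x : V) (sp ds) (h : Shape sp ds) : Shape (.inr x :: sp) (.x x :: ds)

theorem Shape.radP {sp : List (Sp V)} {ds : List (Dg V)} (h : Shape sp ds) :
    radP N ds = radS N sp := by
  induction h with
  | nil => rfl
  | c r v hv sp ds _ ih => rw [radP_cons, ih]; rfl
  | x x sp ds _ ih => rw [radP_cons, ih]; rfl

theorem Shape.good {sp : List (Sp V)} {ds : List (Dg V)} (h : Shape sp ds)
    (hv : ∀ x ∈ vars sp, e x < N) : Good N e ds := by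
  induction h with
  | nil => intro d hd; simp at hd
  | c r v hvr sp ds _ ih =>
    intro d hd
    rcases List.mem_cons.1 hd with rfl | hd
    · exact hvr
    · exact ih hv d hd
  | x x sp ds _ ih =>
    intro d hd
    rcases List.mem_cons.1 hd with rfl | hd
    · exact hv x (by simp [vars])
    · exact ih (fun y hy => hv y (by simp [vars, hy])) d hd

theorem Shape.mem_vars {sp : List (Sp V)} {ds : List (Dg V)} (h : Shape sp ds) {x : V}
    (hx : .x x ∈ ds) : x ∈ vars sp := by
  induction h with
  | nil => simp at hx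
  | c r v hvr sp ds _ ih =>
    simp only [List.mem_cons, reduceCtorEq, false_or] at hx
    exact ih hx
  | x y sp ds _ ih =>
    simp only [List.mem_cons, Dg.x.injEq] at hx
    simp only [vars, List.mem_cons]
    rcases hx with hx | hx
    · exact Or.inl hx
    · exact Or.inr (ih hx)

theorem Shape.append_inv {sp sp' : List (Sp V)} {ds : List (Dg V)} (h : Shape (sp ++ sp') ds) :
    ∃ ds1 ds2, ds = ds1 ++ ds2 ∧ Shape sp ds1 ∧ Shape sp' ds2 := by
  induction sp generalizing ds with
  | nil => exact ⟨[], ds, rfl, .nil, h⟩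
  | cons s sp ih =>
    rcases s with r | x
    · cases h with
      | c r v hv _ ds h =>
        obtain ⟨ds1, ds2, rfl, h1, h2⟩ := ih h
        exact ⟨.c r v :: ds1, ds2, rfl, .c r v hv _ _ h1, h2⟩
    · cases h with
      | x x _ ds h =>
        obtain ⟨ds1, ds2, rfl, h1, h2⟩ := ih h
        exact ⟨.x x :: ds1, ds2, rfl, .x x _ _ h1, h2⟩

theorem radS_append (sp sp' : List (Sp V)) : radS N (sp ++ sp') = radS N sp * radS N sp' := by
  induction sp with
  | nil => simp [radS]
  | cons s sp ih =>
    rcases s with r | x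
    · simp only [List.cons_append, radS, ih]; ring
    · simp only [List.cons_append, radS, ih]; ring

theorem vars_append (sp sp' : List (Sp V)) : vars (sp ++ sp') = vars sp ++ vars sp' := by
  induction sp with
  | nil => rfl
  | cons s sp ih =>
    rcases s with r | x
    · simp only [List.cons_append, vars, ih]
    · simp only [List.cons_append, vars, ih]

theorem num_congr {e e' : V → ℕ} {ds : List (Dg V)} (h : ∀ x, .x x ∈ ds → e x = e' x) :
    num N e ds = num N e' ds := by
  induction ds with
  | nil => rfl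
  | cons d ds ih =>
    rw [num, num, ih fun x hx => h x (List.mem_cons_of_mem _ hx)]
    congr 2
    cases d with
    | c r v => rfl
    | x y => exact h y (by simp)

/-- Run the body for all digit lists of a specification, in increasing order. -/
def enumP : List (Sp V) → (List (Dg V) → Stmt V W) → Stmt V W
  | [], body => body []
  | .inl r :: sp, body => seqs ((List.range r).map fun v => enumP sp fun ds => body (.c r v :: ds))
  | .inr x :: sp, body => .loop x (enumP sp fun ds => body (.x x :: ds))

theorem range_mul_flatMap (r R : ℕ) (f : ℕ → List Bool) :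
    (List.range (r * R)).flatMap f =
      (List.range r).flatMap fun t => (List.range R).flatMap fun k => f (t * R + k) := by
  induction r with
  | zero => simp
  | succ r ih =>
    rw [Nat.succ_mul, List.range_add, List.flatMap_append, ih, List.range_succ (n := r),
      List.flatMap_append]
    simp [List.flatMap_map]

theorem Emits.enum (sp : List (Sp V)) (hnd : (vars sp).Nodup) (body : List (Dg V) → Stmt V W)
    (e : V → ℕ) (f : ℕ → List Bool)
    (h : ∀ ds e', Shape sp ds → (∀ x, x ∉ vars sp → e' x = e x) → (∀ x ∈ vars sp, e' x < N) →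
      Emits N a (body ds) e' (f (num N e' ds))) :
    Emits N a (enumP sp body) e ((List.range (radS N sp)).flatMap f) := by
  induction sp generalizing body e f with
  | nil =>
    have := h [] e .nil (fun _ _ => rfl) (by simp [vars])
    simpa [enumP, radS, num] using this
  | cons s sp ih =>
    rcases s with r | x
    · simp only [enumP, radS]
      rw [range_mul_flatMap]
      refine Emits.seqs _ fun v hv => ?_
      refine ih hnd _ e (fun k => f (v * radS N sp + k)) fun ds e' hs h1 h2 => ?_
      have := h (.c r v :: ds) e' (.c r v (List.mem_range.1 hv) _ _ hs) h1 h2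
      rw [num, hs.radP] at this
      exact this
    · simp only [enumP, radS]
      rw [range_mul_flatMap]
      have hnd' : x ∉ vars sp ∧ (vars sp).Nodup := List.nodup_cons.1 hnd
      refine Emits.loop fun t ht => ?_
      refine ih hnd'.2 _ _ (fun k => f (t * radS N sp + k)) fun ds e' hs h1 h2 => ?_
      have hx : e' x = t := by rw [h1 x hnd'.1, update_self]
      have := h (.x x :: ds) e' (.x x _ _ hs) (fun y hy => by
        simp only [vars, List.mem_cons, not_or] at hy
        rw [h1 y hy.2, update_of_ne hy.1]) (fun y hy => by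
        simp only [vars, List.mem_cons] at hy
        rcases hy with rfl | hy
        · rw [hx]; exact ht
        · exact h2 y hy)
      rw [num, hs.radP] at this
      simp only [Dg.val, hx] at this
      exact this

theorem wf_enumP {ar : W → ℕ} (sp : List (Sp V)) {F : List V} (hnd : (vars sp).Nodup)
    (hF : ∀ x ∈ vars sp, x ∉ F) (body : List (Dg V) → Stmt V W)
    (h : ∀ ds, Shape sp ds → (body ds).wf ar ((vars sp).reverse ++ F) = true) :
    (enumP sp body).wf ar F = true := by
  induction sp generalizing body F with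
  | nil => exact h [] .nil
  | cons s sp ih =>
    rcases s with r | x
    · simp only [enumP]
      refine wf_seqs _ fun s hs => ?_
      simp only [List.mem_map, List.mem_range] at hs
      obtain ⟨v, hv, rfl⟩ := hs
      exact ih hnd hF _ fun ds hds => h _ (.c r v hv _ _ hds)
    · have hnd' : x ∉ vars sp ∧ (vars sp).Nodup := List.nodup_cons.1 hnd
      simp only [enumP, Stmt.wf, Bool.and_eq_true, decide_eq_true_eq]
      refine ⟨hF x (by simp [vars]), ih hnd'.2 (fun y hy => ?_) _ fun ds hds => ?_⟩
      · simp only [List.mem_cons, not_or]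
        exact ⟨fun hxy => hnd'.1 (hxy ▸ hy), hF y (by simp [vars, hy])⟩
      · have := h _ (.x x _ _ hds)
        simpa [vars, List.append_assoc] using this

end

/-! ### Formulas about digits -/

/-- Variables: digit variables and three bound variables. -/
abbrev Vr (L : Type) : Type := L ⊕ Fin 3

variable {L : Type} [DecidableEq L] {W : Type} [DecidableEq W] {N : ℕ} {a : Arr W} {e : Vr L → ℕ}

abbrev zv (i : Fin 3) : Vr L := .inr i

/-- A true closed formula. -/
def tt0 : Fml (Vr L) W := Fml.tt (.ex (zv 0) (.ex (zv 1) (.le (zv 0) (zv 1))))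
/-- A false closed formula. -/
def ff0 : Fml (Vr L) W := .not tt0

/-- Constant formula. -/
def cst (b : Bool) : Fml (Vr L) W := if b then tt0 else ff0

theorem eval_tt0 : (tt0 : Fml (Vr L) W).eval N a e = true := Fml.eval_tt _

theorem eval_cst (b : Bool) : (cst b : Fml (Vr L) W).eval N a e = b := by
  cases b
  · simp [cst, ff0, Fml.eval, eval_tt0]
  · simp [cst, eval_tt0]

/-- Only digit variables are in scope. -/
def Scope (F : List (Vr L)) : Prop := ∀ i : Fin 3, zv i ∉ F

theorem wf_tt0 {ar : W → ℕ} {F : List (Vr L)} (h : Scope F) :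
    (tt0 : Fml (Vr L) W).wf ar F = true := by
  have h0 := h 0
  have h1 := h 1
  simp [tt0, Fml.tt, Fml.ff, Fml.wf, h0, h1]

theorem wf_cst {ar : W → ℕ} {F : List (Vr L)} (h : Scope F) (b : Bool) :
    (cst b : Fml (Vr L) W).wf ar F = true := by
  cases b
  · simp [cst, ff0, Fml.wf, wf_tt0 h]
  · simp [cst, wf_tt0 h]

section

/-- The digit is zero. -/
def zeroD : Dg (Vr L) → Fml (Vr L) W
  | .c _ v => cst (decide (v = 0))
  | .x x => .not (.ex (zv 0) (.lt (zv 0) x))

/-- The digit is maximal. -/
def maxD : Dg (Vr L) → Fml (Vr L) W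
  | .c r v => cst (decide (v + 1 = r))
  | .x x => .not (.ex (zv 0) (.lt x (zv 0)))

/-- The digits agree. -/
def eqD : Dg (Vr L) → Dg (Vr L) → Fml (Vr L) W
  | .c _ v, .c _ v' => cst (decide (v = v'))
  | .x x, .x y => .eq x y
  | _, _ => ff0

/-- The second digit is one larger. -/
def sucD : Dg (Vr L) → Dg (Vr L) → Fml (Vr L) W
  | .c _ v, .c _ v' => cst (decide (v + 1 = v'))
  | .x x, .x y => .and (.lt x y) (.not (.ex (zv 0) (.and (.lt x (zv 0)) (.lt (zv 0) y))))
  | _, _ => ff0

/-- Digits of the same kind. -/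
def Sim : Dg (Vr L) → Dg (Vr L) → Prop
  | .c r _, .c r' _ => r = r'
  | .x x, .x y => (∃ i, x = .inl i) ∧ (∃ i, y = .inl i) ∧ x ≠ y
  | _, _ => False

/-- Variables of digits are digit variables. -/
def Dvar (ds : List (Dg (Vr L))) : Prop := ∀ x, .x x ∈ ds → ∃ i, x = .inl i

theorem eval_zeroD {d : Dg (Vr L)} (hd : Dvar [d]) (h : d.val e < d.rad N) :
    (zeroD d : Fml (Vr L) W).eval N a e = true ↔ d.val e = 0 := by
  cases d with
  | c r v => simp [zeroD, eval_cst, Dg.val]
  | x x =>
    obtain ⟨i, rfl⟩ := hd x (by simp)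
    simp only [Dg.val, Dg.rad] at h ⊢
    rw [zeroD, Fml.eval_not, Fml.eval_ex]
    constructor
    · intro h1
      by_contra h2
      refine h1 ⟨0, by omega, ?_⟩
      rw [Fml.eval_lt]
      simp
      omega
    · rintro h1 ⟨t, ht, h2⟩
      rw [Fml.eval_lt] at h2
      simp at h2
      omega

theorem eval_maxD {d : Dg (Vr L)} (hd : Dvar [d]) (h : d.val e < d.rad N) :
    (maxD d : Fml (Vr L) W).eval N a e = true ↔ d.val e + 1 = d.rad N := by
  cases d with
  | c r v => simp [maxD, eval_cst, Dg.val, Dg.rad]
  | x x =>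
    obtain ⟨i, rfl⟩ := hd x (by simp)
    simp only [Dg.val, Dg.rad] at h ⊢
    rw [maxD, Fml.eval_not, Fml.eval_ex]
    constructor
    · intro h1
      by_contra h2
      refine h1 ⟨e (.inl i) + 1, by omega, ?_⟩
      rw [Fml.eval_lt]
      simp
    · rintro h1 ⟨t, ht, h2⟩
      rw [Fml.eval_lt] at h2
      simp at h2
      omega

theorem eval_eqD {d d' : Dg (Vr L)} (hs : Sim d d') :
    (eqD d d' : Fml (Vr L) W).eval N a e = true ↔ d.val e = d'.val e := by
  cases d with
  | c r v =>
    cases d' with
    | c r' v' => simp [eqD, eval_cst, Dg.val]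
    | x x => exact absurd hs (by simp [Sim])
  | x x =>
    cases d' with
    | c r' v' => exact absurd hs (by simp [Sim])
    | x y => rw [eqD, Fml.eval_eq]; rfl

theorem eval_sucD {d d' : Dg (Vr L)} (hs : Sim d d') (h : d'.val e < d'.rad N) :
    (sucD d d' : Fml (Vr L) W).eval N a e = true ↔ d.val e + 1 = d'.val e := by
  cases d with
  | c r v =>
    cases d' with
    | c r' v' => simp [sucD, eval_cst, Dg.val]
    | x x => exact absurd hs (by simp [Sim])
  | x x =>
    cases d' with
    | c r' v' => exact absurd hs (by simp [Sim])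
    | x y =>
      obtain ⟨⟨i, rfl⟩, ⟨j, rfl⟩, -⟩ := hs
      simp only [Dg.val, Dg.rad] at h ⊢
      rw [sucD, Fml.eval_and, Fml.eval_not, Fml.eval_ex, Fml.eval_lt]
      constructor
      · rintro ⟨h1, h2⟩
        by_contra h3
        refine h2 ⟨e (.inl i) + 1, by omega, ?_⟩
        rw [Fml.eval_and, Fml.eval_lt, Fml.eval_lt]
        simp
        omega
      · intro h1
        refine ⟨by omega, ?_⟩
        rintro ⟨t, ht, h2⟩
        rw [Fml.eval_and, Fml.eval_lt, Fml.eval_lt] at h2
        simp at h2
        omega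

/-- All digits are zero. -/
def zeroT (ds : List (Dg (Vr L))) : Fml (Vr L) W := Fml.conj tt0 (ds.map zeroD)
/-- All digits are maximal. -/
def maxT (ds : List (Dg (Vr L))) : Fml (Vr L) W := Fml.conj tt0 (ds.map maxD)

/-- The numbers agree. -/
def eqT : List (Dg (Vr L)) → List (Dg (Vr L)) → Fml (Vr L) W
  | [], [] => tt0
  | d :: ds, d' :: ds' => .and (eqD d d') (eqT ds ds')
  | _, _ => ff0

/-- The second number is one larger. -/
def sucT : List (Dg (Vr L)) → List (Dg (Vr L)) → Fml (Vr L) W
  | d :: ds, d' :: ds' =>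
      .or (.and (sucD d d') (.and (maxT ds) (zeroT ds'))) (.and (eqD d d') (sucT ds ds'))
  | _, _ => ff0

theorem Dvar.cons {d : Dg (Vr L)} {ds : List (Dg (Vr L))} (h : Dvar (d :: ds)) :
    Dvar [d] ∧ Dvar ds :=
  ⟨fun x hx => h x (by simp only [List.mem_singleton] at hx; simp [hx]),
    fun x hx => h x (by simp [hx])⟩

theorem Dvar.append {ds ds' : List (Dg (Vr L))} (h : Dvar (ds ++ ds')) :
    Dvar ds ∧ Dvar ds' :=
  ⟨fun x hx => h x (by simp [hx]), fun x hx => h x (by simp [hx])⟩

theorem eval_zeroT {ds : List (Dg (Vr L))} (hd : Dvar ds) (h : Good N e ds) :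
    (zeroT ds : Fml (Vr L) W).eval N a e = true ↔ num N e ds = 0 := by
  rw [zeroT, Fml.eval_conj]
  simp only [eval_tt0, and_true]
  induction ds with
  | nil => simp [num]
  | cons d ds ih =>
    obtain ⟨g1, g2⟩ := h.cons
    obtain ⟨k1, k2⟩ := hd.cons
    simp only [List.map_cons, List.mem_cons, forall_eq_or_imp, num, Nat.add_eq_zero_iff]
    rw [ih k2 g2, eval_zeroD k1 g1]
    have h3 := num_lt g2
    have h4 : 0 < radP N ds := by omega
    constructor
    · rintro ⟨h1, h2⟩
      simp [h1, h2]
    · rintro ⟨h1, h2⟩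
      refine ⟨?_, h2⟩
      rcases Nat.mul_eq_zero.1 h1 with h5 | h5
      · exact h5
      · omega

theorem eval_maxT {ds : List (Dg (Vr L))} (hd : Dvar ds) (h : Good N e ds) :
    (maxT ds : Fml (Vr L) W).eval N a e = true ↔ num N e ds + 1 = radP N ds := by
  rw [maxT, Fml.eval_conj]
  simp only [eval_tt0, and_true]
  induction ds with
  | nil => simp [num, radP]
  | cons d ds ih =>
    obtain ⟨g1, g2⟩ := h.cons
    obtain ⟨k1, k2⟩ := hd.cons
    simp only [List.map_cons, List.mem_cons, forall_eq_or_imp, num, radP_cons]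
    rw [ih k2 g2, eval_maxD k1 g1]
    have h3 := num_lt g2
    constructor
    · rintro ⟨h1, h2⟩
      rw [← h1, Nat.succ_mul]
      omega
    · intro h1
      have h5 : d.val e + 1 = d.rad N := by
        by_contra h6
        have h7 : (d.val e + 2) * radP N ds ≤ d.rad N * radP N ds :=
          Nat.mul_le_mul_right _ (by omega)
        nlinarith
      refine ⟨h5, ?_⟩
      rw [← h5, Nat.succ_mul] at h1
      omega

theorem eval_eqT {ds ds' : List (Dg (Vr L))} (hs : List.Forall₂ Sim ds ds')
    (h : Good N e ds) (h' : Good N e ds') :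
    ((eqT ds ds' : Fml (Vr L) W).eval N a e = true ↔ num N e ds = num N e ds') ∧
      radP N ds = radP N ds' := by
  induction hs with
  | nil => simp [eqT, eval_tt0]
  | @cons d d' ds ds' h1 h2 ih =>
    obtain ⟨g1, g2⟩ := h.cons
    obtain ⟨g1', g2'⟩ := h'.cons
    obtain ⟨i1, i2⟩ := ih g2 g2'
    have hr : d.rad N = d'.rad N := by
      cases d <;> cases d' <;> simp_all [Sim, Dg.rad]
    refine ⟨?_, by rw [radP_cons, radP_cons, hr, i2]⟩
    rw [eqT, Fml.eval_and, i1, eval_eqD h1, num, num, ← i2]
    have h3 := num_lt g2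
    have h3' := num_lt g2'
    rw [← i2] at h3'
    constructor
    · rintro ⟨h5, h6⟩
      rw [h5, h6]
    · intro h5
      have h6 : d.val e = d'.val e := by
        rcases Nat.lt_trichotomy (d.val e) (d'.val e) with h7 | h7 | h7
        · have := Nat.mul_le_mul_right (radP N ds) h7
          nlinarith
        · exact h7
        · have := Nat.mul_le_mul_right (radP N ds) h7
          nlinarith
      refine ⟨h6, ?_⟩
      rw [h6] at h5
      omega

theorem eval_sucT {ds ds' : List (Dg (Vr L))} (hs : List.Forall₂ Sim ds ds')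
    (hd : Dvar ds) (hd' : Dvar ds') (h : Good N e ds) (h' : Good N e ds') :
    (sucT ds ds' : Fml (Vr L) W).eval N a e = true ↔ num N e ds + 1 = num N e ds' := by
  induction hs with
  | nil =>
    simp [sucT, ff0, Fml.eval, eval_tt0, num]
  | @cons d d' ds ds' h1 h2 ih =>
    obtain ⟨g1, g2⟩ := h.cons
    obtain ⟨g1', g2'⟩ := h'.cons
    obtain ⟨k1, k2⟩ := hd.cons
    obtain ⟨k1', k2'⟩ := hd'.cons
    have i2 := (eval_eqT (a := a) h2 g2 g2').2
    rw [sucT, Fml.eval_or, Fml.eval_and, Fml.eval_and, Fml.eval_and, ih k2 k2' g2 g2',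
      eval_sucD h1 g1', eval_eqD h1, eval_maxT k2 g2, eval_zeroT k2' g2', num, num, ← i2]
    have h3 := num_lt g2
    have h3' := num_lt g2'
    rw [← i2] at h3'
    constructor
    · rintro (⟨h5, h6, h7⟩ | ⟨h5, h6⟩)
      · rw [← h5, h7, Nat.succ_mul]; omega
      · rw [h5]; omega
    · intro h5
      rcases Nat.lt_trichotomy (d.val e) (d'.val e) with h7 | h7 | h7
      · left
        have h8 : d.val e + 1 = d'.val e := by
          by_contra h9
          have := Nat.mul_le_mul_right (radP N ds) (show d.val e + 2 ≤ d'.val e by omega)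
          nlinarith
        refine ⟨h8, ?_⟩
        rw [← h8, Nat.succ_mul] at h5
        omega
      · right
        rw [h7] at h5
        exact ⟨h7, by omega⟩
      · exfalso
        have := Nat.mul_le_mul_right (radP N ds) h7
        nlinarith

/-! ### Well-formedness -/

/-- Variables of the digits are in scope. -/
def InS (F : List (Vr L)) (ds : List (Dg (Vr L))) : Prop := ∀ x, .x x ∈ ds → x ∈ F

theorem InS.cons {F : List (Vr L)} {d : Dg (Vr L)} {ds : List (Dg (Vr L))}
    (h : InS F (d :: ds)) : InS F [d] ∧ InS F ds :=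
  ⟨fun x hx => h x (by simp only [List.mem_singleton] at hx; simp [hx]),
    fun x hx => h x (by simp [hx])⟩

variable {ar : W → ℕ} {F : List (Vr L)}

theorem wf_lt {x y : Vr L} (hx : x ∈ F) (hy : y ∈ F) (hxy : x ≠ y) :
    (Fml.lt x y : Fml (Vr L) W).wf ar F = true := by
  simp [Fml.lt, Fml.wf, hx, hy, Ne.symm hxy]

theorem wf_eq {x y : Vr L} (hx : x ∈ F) (hy : y ∈ F) (hxy : x ≠ y) :
    (Fml.eq x y : Fml (Vr L) W).wf ar F = true := by
  simp [Fml.eq, Fml.wf, hx, hy, hxy, Ne.symm hxy]

theorem wf_or {φ ψ : Fml (Vr L) W} (h : φ.wf ar F = true) (h' : ψ.wf ar F = true) :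
    (φ.or ψ).wf ar F = true := by
  simp [Fml.or, Fml.wf, h, h']

theorem wf_and {φ ψ : Fml (Vr L) W} (h : φ.wf ar F = true) (h' : ψ.wf ar F = true) :
    (Fml.and φ ψ).wf ar F = true := by
  simp [Fml.wf, h, h']

theorem wf_not {φ : Fml (Vr L) W} (h : φ.wf ar F = true) : (Fml.not φ).wf ar F = true := h

theorem wf_conj {φ0 : Fml (Vr L) W} (h0 : φ0.wf ar F = true) (l : List (Fml (Vr L) W))
    (h : ∀ φ ∈ l, φ.wf ar F = true) : (Fml.conj φ0 l).wf ar F = true := by
  induction l with
  | nil => exact h0
  | cons φ l ih =>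
    exact wf_and (h φ (by simp)) (ih fun ψ hψ => h ψ (by simp [hψ]))

theorem wf_disj {φ0 : Fml (Vr L) W} (h0 : φ0.wf ar F = true) (l : List (Fml (Vr L) W))
    (h : ∀ φ ∈ l, φ.wf ar F = true) : (Fml.disj φ0 l).wf ar F = true := by
  induction l with
  | nil => exact h0
  | cons φ l ih =>
    exact wf_or (h φ (by simp)) (ih fun ψ hψ => h ψ (by simp [hψ]))

theorem zv_ne {i : Fin 3} {x : Vr L} (hF : Scope F) (hx : x ∈ F) : zv i ≠ x := by
  rintro rfl
  exact hF i hx

theorem wf_zeroD (hF : Scope F) {d : Dg (Vr L)} (hd : InS F [d]) :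
    (zeroD d : Fml (Vr L) W).wf ar F = true := by
  cases d with
  | c r v => exact wf_cst hF _
  | x x =>
    have hx : x ∈ F := hd x (by simp)
    simp only [zeroD, Fml.wf, Bool.and_eq_true, decide_eq_true_eq]
    exact ⟨hF 0, wf_lt (by simp) (by simp [hx]) (zv_ne hF hx)⟩

theorem wf_maxD (hF : Scope F) {d : Dg (Vr L)} (hd : InS F [d]) :
    (maxD d : Fml (Vr L) W).wf ar F = true := by
  cases d with
  | c r v => exact wf_cst hF _
  | x x =>
    have hx : x ∈ F := hd x (by simp)
    simp only [maxD, Fml.wf, Bool.and_eq_true, decide_eq_true_eq]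
    exact ⟨hF 0, wf_lt (by simp [hx]) (by simp) (zv_ne hF hx).symm⟩

theorem wf_eqD (hF : Scope F) {d d' : Dg (Vr L)} (hs : Sim d d') (hd : InS F [d])
    (hd' : InS F [d']) : (eqD d d' : Fml (Vr L) W).wf ar F = true := by
  cases d with
  | c r v =>
    cases d' with
    | c r' v' => exact wf_cst hF _
    | x x => exact absurd hs (by simp [Sim])
  | x x =>
    cases d' with
    | c r' v' => exact absurd hs (by simp [Sim])
    | x y => exact wf_eq (hd x (by simp)) (hd' y (by simp)) hs.2.2

theorem wf_sucD (hF : Scope F) {d d' : Dg (Vr L)} (hs : Sim d d') (hd : InS F [d])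
    (hd' : InS F [d']) : (sucD d d' : Fml (Vr L) W).wf ar F = true := by
  cases d with
  | c r v =>
    cases d' with
    | c r' v' => exact wf_cst hF _
    | x x => exact absurd hs (by simp [Sim])
  | x x =>
    cases d' with
    | c r' v' => exact absurd hs (by simp [Sim])
    | x y =>
      have hx : x ∈ F := hd x (by simp)
      have hy : y ∈ F := hd' y (by simp)
      refine wf_and (wf_lt hx hy hs.2.2) ?_
      simp only [Fml.wf, Bool.and_eq_true, decide_eq_true_eq]
      exact ⟨hF 0, wf_lt (by simp [hx]) (by simp) (zv_ne hF hx).symm,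
        wf_lt (by simp) (by simp [hy]) (zv_ne hF hy)⟩

theorem wf_zeroT (hF : Scope F) {ds : List (Dg (Vr L))} (hd : InS F ds) :
    (zeroT ds : Fml (Vr L) W).wf ar F = true := by
  refine wf_conj (wf_tt0 hF) _ fun φ hφ => ?_
  obtain ⟨d, hd', rfl⟩ := List.mem_map.1 hφ
  exact wf_zeroD hF fun x hx => hd x (by simp only [List.mem_singleton] at hx; rw [hx]; exact hd')

theorem wf_maxT (hF : Scope F) {ds : List (Dg (Vr L))} (hd : InS F ds) :
    (maxT ds : Fml (Vr L) W).wf ar F = true := by
  refine wf_conj (wf_tt0 hF) _ fun φ hφ => ?_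
  obtain ⟨d, hd', rfl⟩ := List.mem_map.1 hφ
  exact wf_maxD hF fun x hx => hd x (by simp only [List.mem_singleton] at hx; rw [hx]; exact hd')

theorem wf_eqT (hF : Scope F) {ds ds' : List (Dg (Vr L))} (hs : List.Forall₂ Sim ds ds')
    (hd : InS F ds) (hd' : InS F ds') : (eqT ds ds' : Fml (Vr L) W).wf ar F = true := by
  induction hs with
  | nil => exact wf_tt0 hF
  | @cons d d' ds ds' h1 h2 ih =>
    obtain ⟨g1, g2⟩ := hd.cons
    obtain ⟨g1', g2'⟩ := hd'.cons
    exact wf_and (wf_eqD hF h1 g1 g1') (ih g2 g2')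

theorem wf_ff0 (hF : Scope F) : (ff0 : Fml (Vr L) W).wf ar F = true := wf_not (wf_tt0 hF)

theorem wf_sucT (hF : Scope F) {ds ds' : List (Dg (Vr L))} (hs : List.Forall₂ Sim ds ds')
    (hd : InS F ds) (hd' : InS F ds') : (sucT ds ds' : Fml (Vr L) W).wf ar F = true := by
  induction hs with
  | nil => exact wf_ff0 hF
  | @cons d d' ds ds' h1 h2 ih =>
    obtain ⟨g1, g2⟩ := hd.cons
    obtain ⟨g1', g2'⟩ := hd'.cons
    exact wf_or (wf_and (wf_sucD hF h1 g1 g1') (wf_and (wf_maxT hF g2) (wf_zeroT hF g2')))
      (wf_and (wf_eqD hF h1 g1 g1') (ih g2 g2'))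

end

end Pool.Agent.Lib.PolyTM
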