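import Mathlib

section LangPart

/-! # A small loop language with bounded counters, flags and Boolean stacks -/

namespace Pool.Agent.Lib.PolyTM

set_option linter.unusedSectionVars false

open Function

/-- Elementary operations on counters `V`, flags `B` and Boolean stacks `K`. -/
inductive Op (V B K : Type)
  | zero (i : V)
  | inc (i : V)
  | le (i j : V) (g : B)
  | set (g : B) (f : (B → Bool) → Bool)
  | push (k : K) (f : (B → Bool) → Bool)
  | pop (k : K) (g : B)
  | move (k k' : K)

/-- Commands. -/
inductive Cmd (V B K : Type)
  | op (o : Op V B K)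
  | seq (a b : Cmd V B K)
  | ite (f : (B → Bool) → Bool) (a b : Cmd V B K)
  | loop (i : V) (a : Cmd V B K)

/-- States. -/
@[ext]
structure St (V B K : Type) where
  v : V → ℕ
  b : B → Bool
  st : K → List Bool

variable {V B K : Type} [DecidableEq V] [DecidableEq B] [DecidableEq K]

/-- All counters at most `N`. -/
def St.ok (N : ℕ) (s : St V B K) : Prop := ∀ i, s.v i ≤ N

def Op.exec (N : ℕ) : Op V B K → St V B K → St V B K
  | .zero i, s => { s with v := update s.v i 0 }
  | .inc i, s => { s with v := update s.v i (min (s.v i + 1) N) }
  | .le i j g, s => { s with b := update s.b g (decide (s.v i ≤ s.v j)) }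
  | .set g f, s => { s with b := update s.b g (f s.b) }
  | .push k f, s => { s with st := update s.st k (f s.b :: s.st k) }
  | .pop k g, s =>
      { s with b := update s.b g ((s.st k).headD false), st := update s.st k (s.st k).tail }
  | .move k k', s =>
      { s with st := update (update s.st k' ((s.st k).reverse ++ s.st k')) k [] }

def Cmd.exec (N : ℕ) : Cmd V B K → St V B K → St V B K
  | .op o, s => o.exec N s
  | .seq a b, s => b.exec N (a.exec N s)
  | .ite f a b, s => if f s.b then a.exec N s else b.exec N s
  | .loop i a, s =>
      (fun s => (Op.inc i).exec N (a.exec N s))^[N] ((Op.zero i).exec N s)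

/-- Cost of an elementary operation (an upper bound on machine steps). -/
def Op.cost (N : ℕ) : Op V B K → St V B K → ℕ
  | .zero _, _ => N + 1
  | .le _ _ _, _ => 2 * N + 2
  | .move k _, s => (s.st k).length + 1
  | _, _ => 1

def Cmd.cost (N : ℕ) : Cmd V B K → St V B K → ℕ
  | .op o, s => o.cost N s
  | .seq a b, s => a.cost N s + b.cost N (a.exec N s)
  | .ite f a b, s => 1 + if f s.b then a.cost N s else b.cost N s
  | .loop i a, s =>
      N + 2 + ∑ t ∈ Finset.range N, (a.cost N
        ((fun s => (Op.inc i).exec N (a.exec N s))^[t] ((Op.zero i).exec N s)) + 2)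

/-- Counters that an operation may change. -/
def Op.wv : Op V B K → Set V
  | .inc i => {i}
  | .zero i => {i}
  | _ => ∅

def Cmd.wv : Cmd V B K → Set V
  | .op o => o.wv
  | .seq a b => a.wv ∪ b.wv
  | .ite _ a b => a.wv ∪ b.wv
  | .loop i a => insert i a.wv

def Op.WF : Op V B K → Prop
  | .le i j _ => i ≠ j
  | .move k k' => k ≠ k'
  | _ => True

def Cmd.WF : Cmd V B K → Prop
  | .op o => o.WF
  | .seq a b => a.WF ∧ b.WF
  | .ite _ a b => a.WF ∧ b.WF
  | .loop i a => i ∉ a.wv ∧ a.WF

variable {N : ℕ}

theorem Op.exec_ok (o : Op V B K) (s : St V B K) (h : s.ok N) : (o.exec N s).ok N := by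
  cases o with
  | inc i =>
    intro j
    simp only [Op.exec]
    by_cases hj : j = i
    · subst hj; simp
    · simp [Function.update_of_ne hj, h j]
  | zero i =>
    intro j
    simp only [Op.exec]
    by_cases hj : j = i
    · subst hj; simp
    · simp [Function.update_of_ne hj, h j]
  | _ => exact h

theorem Op.exec_v (o : Op V B K) (s : St V B K) {j : V} (h : j ∉ o.wv) :
    (o.exec N s).v j = s.v j := by
  cases o <;> simp_all [Op.exec, Op.wv, Function.update_of_ne]

omit [DecidableEq V] [DecidableEq B] [DecidableEq K] in
theorem iterate_ok {f : St V B K → St V B K} (hf : ∀ s, s.ok N → (f s).ok N)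
    (t : ℕ) (s : St V B K) (h : s.ok N) : (f^[t] s).ok N := by
  induction t generalizing s with
  | zero => exact h
  | succ t ih => rw [Function.iterate_succ_apply]; exact ih _ (hf _ h)

theorem Cmd.exec_ok (c : Cmd V B K) (s : St V B K) (h : s.ok N) : (c.exec N s).ok N := by
  induction c generalizing s with
  | op o => exact o.exec_ok s h
  | seq a b iha ihb => exact ihb _ (iha _ h)
  | ite f a b iha ihb =>
    simp only [Cmd.exec]
    split
    · exact iha _ h
    · exact ihb _ h
  | loop i a iha =>
    exact iterate_ok (fun s hs => Op.exec_ok _ _ (iha _ hs)) _ _ (Op.exec_ok _ _ h)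

theorem Cmd.exec_v (c : Cmd V B K) (s : St V B K) {j : V} (h : j ∉ c.wv) :
    (c.exec N s).v j = s.v j := by
  induction c generalizing s with
  | op o => exact o.exec_v s h
  | seq a b iha ihb =>
    simp only [Cmd.wv, Set.mem_union, not_or] at h
    simp only [Cmd.exec]
    rw [ihb _ h.2, iha _ h.1]
  | ite f a b iha ihb =>
    simp only [Cmd.wv, Set.mem_union, not_or] at h
    simp only [Cmd.exec]
    split
    · exact iha _ h.1
    · exact ihb _ h.2
  | loop i a iha =>
    simp only [Cmd.wv, Set.mem_insert_iff, not_or] at h
    have key : ∀ t (s : St V B K), ((fun s => (Op.inc i).exec N (a.exec N s))^[t] s).v j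
        = s.v j := by
      intro t
      induction t with
      | zero => intro s; rfl
      | succ t ih =>
        intro s
        rw [Function.iterate_succ_apply, ih]
        rw [Op.exec_v _ _ (by simpa [Op.wv] using h.1), iha _ h.2]
    simp only [Cmd.exec]
    rw [key, Op.exec_v _ _ (by simpa [Op.wv] using h.1)]

/-- Value of the loop counter during a loop whose body does not touch it. -/
theorem loop_counter {i : V} {a : Cmd V B K} (hi : i ∉ a.wv) (t : ℕ) (ht : t ≤ N)
    (s : St V B K) :
    ((fun s => (Op.inc i).exec N (a.exec N s))^[t] ((Op.zero i).exec N s)).v i = t := by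
  induction t with
  | zero => simp [Op.exec]
  | succ t ih =>
    rw [Function.iterate_succ_apply']
    have h1 := ih (by omega)
    generalize ((fun s => (Op.inc i).exec N (a.exec N s))^[t] ((Op.zero i).exec N s)) = s' at *
    simp only [Op.exec, update_self]
    rw [Cmd.exec_v a s' hi, h1]
    omega

/-- The loop rule: an invariant `I`, indexed by the number of completed iterations, for the state
before each iteration. -/
theorem loop_inv {i : V} {a : Cmd V B K} (hi : i ∉ a.wv) (I : ℕ → St V B K → Prop)
    (s : St V B K) (hok : s.ok N) (h0 : I 0 ((Op.zero i).exec N s))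
    (hs : ∀ t < N, ∀ s' : St V B K, s'.ok N → s'.v i = t →
      (∀ j, j ∉ a.wv → j ≠ i → s'.v j = s.v j) → I t s' →
      I (t + 1) ((Op.inc i).exec N (a.exec N s'))) :
    I N ((Cmd.loop i a).exec N s) := by
  set F : St V B K → St V B K := fun s => (Op.inc i).exec N (a.exec N s) with hF
  set s0 := (Op.zero i).exec N s with hs0
  have hs0ok : s0.ok N := Op.exec_ok _ _ hok
  have frame : ∀ t ≤ N, (F^[t] s0).ok N ∧ (F^[t] s0).v i = t ∧
      (∀ j, j ∉ a.wv → j ≠ i → (F^[t] s0).v j = s.v j) ∧ I t (F^[t] s0) := by
    intro t
    induction t with
    | zero =>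
      intro _
      refine ⟨hs0ok, by simp [hs0, Op.exec], ?_, h0⟩
      intro j _ hj
      simp [hs0, Op.exec, Function.update_of_ne hj]
    | succ t ih =>
      intro ht
      obtain ⟨g1, g2, g3, g5⟩ := ih (by omega)
      rw [Function.iterate_succ_apply']
      generalize F^[t] s0 = s' at *
      refine ⟨Op.exec_ok _ _ (Cmd.exec_ok _ _ g1), ?_, ?_, ?_⟩
      · simp only [hF, Op.exec, update_self]
        rw [Cmd.exec_v a s' hi, g2]
        omega
      · intro j hj hji
        simp only [hF]
        rw [Op.exec_v _ _ (by simpa [Op.wv] using hji), Cmd.exec_v _ _ hj, g3 j hj hji]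
      · exact hs t (by omega) s' g1 g2 g3 g5
  exact (frame N le_rfl).2.2.2

section Growth

variable [Fintype K]

/-- Total length of all stacks. -/
def St.total (s : St V B K) : ℕ := ∑ k, (s.st k).length

omit [DecidableEq V] [DecidableEq B] in
theorem St.total_update (s : St V B K) (k : K) (l : List Bool) :
    ∑ k', (update s.st k l k').length + (s.st k).length = s.total + l.length := by
  unfold St.total
  rw [← Finset.add_sum_erase _ _ (Finset.mem_univ k), ← Finset.add_sum_erase _ (fun k' =>
    (s.st k').length) (Finset.mem_univ k)]
  have : ∑ x ∈ Finset.univ.erase k, (update s.st k l x).length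
      = ∑ x ∈ Finset.univ.erase k, (s.st x).length := by
    apply Finset.sum_congr rfl
    intro x hx
    rw [update_of_ne (Finset.ne_of_mem_erase hx)]
  rw [this]
  simp
  ring

theorem Op.total_le (o : Op V B K) (ho : o.WF) (s : St V B K) :
    (o.exec N s).total ≤ s.total + 1 := by
  cases o with
  | push k f =>
    have := St.total_update s k (f s.b :: s.st k)
    change ∑ k', (update s.st k (f s.b :: s.st k) k').length ≤ s.total + 1
    simp only [List.length_cons] at this
    omega
  | pop k g =>
    have := St.total_update s k (s.st k).tail
    change ∑ k', (update s.st k (s.st k).tail k').length ≤ s.total + 1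
    simp only [List.length_tail] at this
    omega
  | move k k' =>
    have ho' : k ≠ k' := ho
    have h1 := St.total_update s k' ((s.st k).reverse ++ s.st k')
    have h2 := St.total_update ({ s with st := update s.st k' ((s.st k).reverse ++ s.st k') }) k []
    change ∑ x, (update (update s.st k' ((s.st k).reverse ++ s.st k')) k [] x).length
      ≤ s.total + 1
    have h3 : St.total ({ s with st := update s.st k' ((s.st k).reverse ++ s.st k') }) =
      ∑ x, (update s.st k' ((s.st k).reverse ++ s.st k') x).length := rfl
    rw [h3] at h2
    simp only [List.length_append, List.length_reverse, List.length_nil] at h1 h2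
    rw [update_of_ne ho'] at h2
    omega
  | _ => exact Nat.le_succ _

theorem poly_mono (p : Polynomial ℕ) {a b : ℕ} (h : a ≤ b) : p.eval a ≤ p.eval b := by
  induction p using Polynomial.induction_on' with
  | add p q hp hq => simp only [Polynomial.eval_add]; omega
  | monomial n c =>
    simp only [Polynomial.eval_monomial]
    exact Nat.mul_le_mul_left _ (Nat.pow_le_pow_left h n)

/-- The growth of the total stack length is polynomial in `N`. -/
theorem Cmd.growth (c : Cmd V B K) (hc : c.WF) : ∃ p : Polynomial ℕ, ∀ (N m : ℕ) (s : St V B K),
    N ≤ m → (c.exec N s).total ≤ s.total + p.eval m := by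
  induction c with
  | op o =>
    refine ⟨1, fun N m s _ => ?_⟩
    rw [Polynomial.eval_one]
    exact o.total_le hc s
  | seq a b iha ihb =>
    obtain ⟨p, hp⟩ := iha hc.1
    obtain ⟨q, hq⟩ := ihb hc.2
    refine ⟨p + q, fun N m s hN => ?_⟩
    have h1 := hp N m s hN
    have h2 := hq N m (a.exec N s) hN
    simp only [Cmd.exec, Polynomial.eval_add]
    omega
  | ite f a b iha ihb =>
    obtain ⟨p, hp⟩ := iha hc.1
    obtain ⟨q, hq⟩ := ihb hc.2
    refine ⟨p + q, fun N m s hN => ?_⟩
    have h1 := hp N m s hN
    have h2 := hq N m s hN
    simp only [Cmd.exec, Polynomial.eval_add]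
    split <;> omega
  | loop i a iha =>
    obtain ⟨p, hp⟩ := iha hc.2
    refine ⟨Polynomial.X * p, fun N m s hN => ?_⟩
    have key : ∀ t (s : St V B K), ((fun s => (Op.inc i).exec N (a.exec N s))^[t] s).total
        ≤ s.total + t * p.eval m := by
      intro t
      induction t with
      | zero => intro s; simp
      | succ t ih =>
        intro s
        rw [Function.iterate_succ_apply]
        refine (ih _).trans ?_
        have h1 := hp N m s hN
        have h2 : ((Op.inc i).exec N (a.exec N s)).total = (a.exec N s).total := rfl
        rw [h2]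
        nlinarith
    simp only [Cmd.exec, Polynomial.eval_mul, Polynomial.eval_X]
    have h1 := key N ((Op.zero i).exec N s)
    have h2 : ((Op.zero i).exec N s).total = s.total := rfl
    rw [h2] at h1
    refine h1.trans ?_
    gcongr

/-- The cost is polynomial. -/
theorem Cmd.cost_poly (c : Cmd V B K) (hc : c.WF) : ∃ p : Polynomial ℕ,
    ∀ (N m : ℕ) (s : St V B K), N ≤ m → s.total ≤ m → c.cost N s ≤ p.eval m := by
  induction c with
  | op o =>
    refine ⟨2 * Polynomial.X + 2, fun N m s hN hs => ?_⟩
    have hlen : ∀ k, (s.st k).length ≤ m := by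
      intro k
      refine le_trans ?_ hs
      exact Finset.single_le_sum (f := fun k => (s.st k).length) (fun _ _ => Nat.zero_le _)
        (Finset.mem_univ k)
    simp only [Cmd.cost, Polynomial.eval_add, Polynomial.eval_mul, Polynomial.eval_X,
      Polynomial.eval_ofNat]
    cases o with
    | move k k' => simp only [Op.cost]; have := hlen k; omega
    | _ => simp only [Op.cost]; omega
  | seq a b iha ihb =>
    obtain ⟨p, hp⟩ := iha hc.1
    obtain ⟨q, hq⟩ := ihb hc.2
    obtain ⟨g, hg⟩ := a.growth hc.1
    refine ⟨p + q.comp (Polynomial.X + g), fun N m s hN hs => ?_⟩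
    have h1 := hp N m s hN hs
    have h2 := hq N (m + g.eval m) (a.exec N s) (by omega) (by
      have := hg N m s hN
      omega)
    simp only [Cmd.cost, Polynomial.eval_add, Polynomial.eval_comp, Polynomial.eval_X]
    omega
  | ite f a b iha ihb =>
    obtain ⟨p, hp⟩ := iha hc.1
    obtain ⟨q, hq⟩ := ihb hc.2
    refine ⟨1 + (p + q), fun N m s hN hs => ?_⟩
    have h1 := hp N m s hN hs
    have h2 := hq N m s hN hs
    simp only [Cmd.cost, Polynomial.eval_add, Polynomial.eval_one]
    split <;> omega
  | loop i a iha =>
    obtain ⟨p, hp⟩ := iha hc.2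
    obtain ⟨g, hg⟩ := a.growth hc.2
    refine ⟨Polynomial.X + 2 + Polynomial.X * (p.comp (Polynomial.X + Polynomial.X * g) + 2),
      fun N m s hN hs => ?_⟩
    have key : ∀ t (s : St V B K), ((fun s => (Op.inc i).exec N (a.exec N s))^[t] s).total
        ≤ s.total + t * g.eval m := by
      intro t
      induction t with
      | zero => intro s; simp
      | succ t ih =>
        intro s
        rw [Function.iterate_succ_apply]
        refine (ih _).trans ?_
        have h1 := hg N m s hN
        have h2 : ((Op.inc i).exec N (a.exec N s)).total = (a.exec N s).total := rfl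
        rw [h2]
        nlinarith
    simp only [Cmd.cost, Polynomial.eval_add, Polynomial.eval_mul, Polynomial.eval_comp,
      Polynomial.eval_X, Polynomial.eval_ofNat]
    have hsum : ∑ t ∈ Finset.range N, (a.cost N
        ((fun s => (Op.inc i).exec N (a.exec N s))^[t] ((Op.zero i).exec N s)) + 2)
        ≤ ∑ _t ∈ Finset.range N, (p.eval (m + m * g.eval m) + 2) := by
      apply Finset.sum_le_sum
      intro t ht
      have ht' : t < N := Finset.mem_range.1 ht
      gcongr
      apply hp
      · nlinarith [Nat.zero_le (m * g.eval m)]
      · refine (key t _).trans ?_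
        have h2 : ((Op.zero i).exec N s).total = s.total := rfl
        rw [h2]
        have : t * g.eval m ≤ m * g.eval m := Nat.mul_le_mul_right _ (by omega)
        omega
    rw [Finset.sum_const, Finset.card_range, smul_eq_mul] at hsum
    have : N * (p.eval (m + m * g.eval m) + 2) ≤ m * (p.eval (m + m * g.eval m) + 2) :=
      Nat.mul_le_mul_right _ hN
    omega

theorem Cmd.total_le_cost (c : Cmd V B K) (hc : c.WF) (s : St V B K) :
    (c.exec N s).total ≤ s.total + c.cost N s := by
  induction c generalizing s with
  | op o =>
    refine (o.total_le hc s).trans ?_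
    simp only [Cmd.cost]
    have : 1 ≤ o.cost N s := by cases o <;> simp [Op.cost]
    omega
  | seq a b iha ihb =>
    have h1 := iha hc.1 s
    have h2 := ihb hc.2 (a.exec N s)
    simp only [Cmd.exec, Cmd.cost]
    omega
  | ite f a b iha ihb =>
    have h1 := iha hc.1 s
    have h2 := ihb hc.2 s
    simp only [Cmd.exec, Cmd.cost]
    split <;> omega
  | loop i a iha =>
    have key : ∀ t, ((fun s => (Op.inc i).exec N (a.exec N s))^[t]
        ((Op.zero i).exec N s)).total ≤ s.total + ∑ u ∈ Finset.range t, (a.cost N
        ((fun s => (Op.inc i).exec N (a.exec N s))^[u] ((Op.zero i).exec N s)) + 2) := by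
      intro t
      induction t with
      | zero => simp; rfl
      | succ t ih =>
        rw [Function.iterate_succ_apply', Finset.sum_range_succ]
        generalize (fun s => (Op.inc i).exec N (a.exec N s))^[t] ((Op.zero i).exec N s) = s' at *
        have h1 := iha hc.2 s'
        have h2 : ((Op.inc i).exec N (a.exec N s')).total = (a.exec N s').total := rfl
        rw [h2]
        omega
    have := key N
    simp only [Cmd.exec, Cmd.cost]
    omega

end Growth

end Pool.Agent.Lib.PolyTM

end LangPart

section CompilePart

/-! # Compiling the loop language to stack machines -/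

namespace Pool.Agent.Lib.PolyTM

set_option linter.unusedSectionVars false
set_option linter.unusedSimpArgs false

open Function Turing

/-- Stack names. -/
inductive SK (V K : Type)
  | L (i : V)
  | R (i : V)
  | T
  | S (k : K)
  | inp
  | out
  deriving DecidableEq, Fintype

/-- Stack alphabets. -/
abbrev Gam (V K Γ : Type) : SK V K → Type
  | .inp => Γ
  | .out => Bool
  | .S _ => Bool
  | _ => Unit

/-- Finite control register: flags and scratch. -/
abbrev Sg (B Γ : Type) := (B → Bool) × Bool × Bool × Option Γ × Option Bool

section Reach

variable {K : Type} [DecidableEq K] {Γ : K → Type} {Λ σ : Type}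

/-- `c'` is reached from `c` in at most `T` steps. -/
def Rch (M : Λ → TM2.Stmt Γ Λ σ) (T : ℕ) (c c' : TM2.Cfg Γ Λ σ) : Prop :=
  ∃ t ≤ T, (flip bind (TM2.step M))^[t] (some c) = some c'

theorem Rch.refl (M : Λ → TM2.Stmt Γ Λ σ) (c : TM2.Cfg Γ Λ σ) : Rch M 0 c c :=
  ⟨0, le_rfl, rfl⟩

theorem Rch.trans {M : Λ → TM2.Stmt Γ Λ σ} {T1 T2 : ℕ} {c1 c2 c3 : TM2.Cfg Γ Λ σ}
    (h1 : Rch M T1 c1 c2) (h2 : Rch M T2 c2 c3) : Rch M (T1 + T2) c1 c3 := by
  obtain ⟨t1, ht1, e1⟩ := h1
  obtain ⟨t2, ht2, e2⟩ := h2
  refine ⟨t2 + t1, by omega, ?_⟩
  rw [Function.iterate_add_apply, e1, e2]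

theorem Rch.mono {M : Λ → TM2.Stmt Γ Λ σ} {T1 T2 : ℕ} {c1 c2 : TM2.Cfg Γ Λ σ}
    (h1 : Rch M T1 c1 c2) (h : T1 ≤ T2) : Rch M T2 c1 c2 := by
  obtain ⟨t1, ht1, e1⟩ := h1
  exact ⟨t1, ht1.trans h, e1⟩

theorem Rch.step {M : Λ → TM2.Stmt Γ Λ σ} {c c' : TM2.Cfg Γ Λ σ}
    (h : TM2.step M c = some c') : Rch M 1 c c' :=
  ⟨1, le_rfl, by simp only [Function.iterate_one, flip]; exact h⟩

end Reach

variable {V B K Γ : Type} [DecidableEq V] [DecidableEq B] [DecidableEq K] {Λ : Type}

/-- Stack contents of a state, with `t` units on the auxiliary stack. -/
def St.stk (N : ℕ) (s : St V B K) (t : ℕ) : ∀ k : SK V K, List (Gam V K Γ k)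
  | .L i => List.replicate (s.v i) ()
  | .R i => List.replicate (N - s.v i) ()
  | .T => List.replicate t ()
  | .S k => s.st k
  | .inp => []
  | .out => []

def St.cfg (N : ℕ) (l : Λ) (s : St V B K) (t : ℕ) :
    TM2.Cfg (Gam V K Γ) Λ (Sg B Γ) :=
  ⟨some l, (s.b, false, false, none, none), s.stk N t⟩

/-- Code of the elementary operations. -/
def Op.code (e : Fin 2 → Λ) (x : Λ) : Op V B K → Fin 2 → TM2.Stmt (Gam V K Γ) Λ (Sg B Γ)
  | .inc i, _ =>
      TM2.Stmt.pop (.R i) (fun s a => (s.1, a.isSome, s.2.2)) <|
      TM2.Stmt.branch (fun s => s.2.1)
        (TM2.Stmt.push (.L i) (fun _ => ()) <| TM2.Stmt.load (fun s => (s.1, false, false, none, none)) <|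
          TM2.Stmt.goto fun _ => x)
        (TM2.Stmt.load (fun s => (s.1, false, false, none, none)) <| TM2.Stmt.goto fun _ => x)
  | .zero i, _ =>
      TM2.Stmt.pop (.L i) (fun s a => (s.1, a.isSome, s.2.2)) <|
      TM2.Stmt.branch (fun s => s.2.1)
        (TM2.Stmt.push (.R i) (fun _ => ()) <| TM2.Stmt.load (fun s => (s.1, false, false, none, none)) <|
          TM2.Stmt.goto fun _ => e 0)
        (TM2.Stmt.load (fun s => (s.1, false, false, none, none)) <| TM2.Stmt.goto fun _ => x)
  | .le i j g, 0 =>
      TM2.Stmt.pop (.L i) (fun s a => (s.1, a.isSome, s.2.2)) <|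
      TM2.Stmt.pop (.L j) (fun s a => (s.1, s.2.1, a.isSome, s.2.2.2)) <|
      TM2.Stmt.branch (fun s => s.2.1)
        (TM2.Stmt.branch (fun s => s.2.2.1)
          (TM2.Stmt.push (.R i) (fun _ => ()) <| TM2.Stmt.push (.R j) (fun _ => ()) <| TM2.Stmt.push .T (fun _ => ()) <|
            TM2.Stmt.load (fun s => (s.1, false, false, none, none)) <| TM2.Stmt.goto fun _ => e 0)
          (TM2.Stmt.push (.L i) (fun _ => ()) <|
            TM2.Stmt.load (fun s => (update s.1 g false, false, false, none, none)) <|
              TM2.Stmt.goto fun _ => e 1))
        (TM2.Stmt.branch (fun s => s.2.2.1)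
          (TM2.Stmt.push (.L j) (fun _ => ()) <|
            TM2.Stmt.load (fun s => (update s.1 g true, false, false, none, none)) <| TM2.Stmt.goto fun _ => e 1)
          (TM2.Stmt.load (fun s => (update s.1 g true, false, false, none, none)) <| TM2.Stmt.goto fun _ => e 1))
  | .le i j _, 1 =>
      TM2.Stmt.pop .T (fun s a => (s.1, a.isSome, s.2.2)) <|
      TM2.Stmt.branch (fun s => s.2.1)
        (TM2.Stmt.pop (.R i) (fun s _ => s) <| TM2.Stmt.pop (.R j) (fun s _ => s) <|
          TM2.Stmt.push (.L i) (fun _ => ()) <| TM2.Stmt.push (.L j) (fun _ => ()) <|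
          TM2.Stmt.load (fun s => (s.1, false, false, none, none)) <| TM2.Stmt.goto fun _ => e 1)
        (TM2.Stmt.load (fun s => (s.1, false, false, none, none)) <| TM2.Stmt.goto fun _ => x)
  | .set g f, _ =>
      TM2.Stmt.load (fun s => (update s.1 g (f s.1), s.2)) <| TM2.Stmt.goto fun _ => x
  | .push k f, _ =>
      TM2.Stmt.push (.S k) (fun s => f s.1) <| TM2.Stmt.goto fun _ => x
  | .pop k g, _ =>
      TM2.Stmt.pop (.S k) (fun s a => (update s.1 g (a.getD false), s.2)) <| TM2.Stmt.goto fun _ => x
  | .move k k', _ =>
      TM2.Stmt.pop (.S k) (fun s a => (s.1, s.2.1, s.2.2.1, s.2.2.2.1, a)) <|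
      TM2.Stmt.branch (fun s => s.2.2.2.2.isSome)
        (TM2.Stmt.push (.S k') (fun s => s.2.2.2.2.getD false) <|
          TM2.Stmt.load (fun s => (s.1, false, false, none, none)) <| TM2.Stmt.goto fun _ => e 0)
        (TM2.Stmt.load (fun s => (s.1, false, false, none, none)) <| TM2.Stmt.goto fun _ => x)

/-- Labels of a command. -/
def Lab : Cmd V B K → Type
  | .op _ => Fin 2
  | .seq a b => Lab a ⊕ Lab b
  | .ite _ a b => Unit ⊕ (Lab a ⊕ Lab b)
  | .loop _ a => Fin 3 ⊕ Lab a

instance Lab.fintype : (c : Cmd V B K) → Fintype (Lab c)
  | .op _ => inferInstanceAs (Fintype (Fin 2))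
  | .seq a b =>
      letI := Lab.fintype a
      letI := Lab.fintype b
      inferInstanceAs (Fintype (Lab a ⊕ Lab b))
  | .ite _ a b =>
      letI := Lab.fintype a
      letI := Lab.fintype b
      inferInstanceAs (Fintype (Unit ⊕ (Lab a ⊕ Lab b)))
  | .loop _ a =>
      letI := Lab.fintype a
      inferInstanceAs (Fintype (Fin 3 ⊕ Lab a))

/-- Entry label. -/
def entry : (c : Cmd V B K) → Lab c
  | .op _ => (0 : Fin 2)
  | .seq a _ => Sum.inl (entry a)
  | .ite _ _ _ => Sum.inl ()
  | .loop _ _ => Sum.inl 0

open TM2.Stmt in
/-- Code of a command, with label embedding `e` and exit label `x`. -/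
def code : (c : Cmd V B K) → (Lab c → Λ) → Λ → Lab c → TM2.Stmt (Gam V K Γ) Λ (Sg B Γ)
  | .op o, e, x, l => o.code e x l
  | .seq a b, e, x, l =>
      match l with
      | .inl l => code a (fun l => e (.inl l)) (e (.inr (entry b))) l
      | .inr l => code b (fun l => e (.inr l)) x l
  | .ite f a b, e, x, l =>
      match l with
      | .inl () => branch (fun s => f s.1) (goto fun _ => e (.inr (.inl (entry a))))
          (goto fun _ => e (.inr (.inr (entry b))))
      | .inr (.inl l) => code a (fun l => e (.inr (.inl l))) x l
      | .inr (.inr l) => code b (fun l => e (.inr (.inr l))) x l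
  | .loop i a, e, x, l =>
      match l with
      | .inl 0 =>
        pop (.L i) (fun s a => (s.1, a.isSome, s.2.2)) <|
        branch (fun s => s.2.1)
          (push (.R i) (fun _ => ()) <| load (fun s => (s.1, false, false, none, none)) <|
            goto fun _ => e (.inl 0))
          (load (fun s => (s.1, false, false, none, none)) <| goto fun _ => e (.inl 1))
      | .inl 1 =>
        peek (.R i) (fun s a => (s.1, a.isSome, s.2.2)) <|
        branch (fun s => s.2.1)
          (load (fun s => (s.1, false, false, none, none)) <| goto fun _ => e (.inr (entry a)))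
          (load (fun s => (s.1, false, false, none, none)) <| goto fun _ => x)
      | .inl 2 =>
        pop (.R i) (fun s a => (s.1, a.isSome, s.2.2)) <|
        branch (fun s => s.2.1)
          (push (.L i) (fun _ => ()) <| load (fun s => (s.1, false, false, none, none)) <|
            goto fun _ => e (.inl 1))
          (load (fun s => (s.1, false, false, none, none)) <| goto fun _ => e (.inl 1))
      | .inr l => code a (fun l => e (.inr l)) (e (.inl 2)) l

variable {N : ℕ}

theorem zero_reach (M : Λ → TM2.Stmt (Gam V K Γ) Λ (Sg B Γ)) (l x : Λ) (i : V)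
    (hM : M l = (TM2.Stmt.pop (.L i) (fun s a => (s.1, a.isSome, s.2.2)) <|
        TM2.Stmt.branch (fun s => s.2.1)
          (TM2.Stmt.push (.R i) (fun _ => ()) <|
            TM2.Stmt.load (fun s => (s.1, false, false, none, none)) <|
            TM2.Stmt.goto fun _ => l)
          (TM2.Stmt.load (fun s => (s.1, false, false, none, none)) <|
            TM2.Stmt.goto fun _ => x)))
    (n : ℕ) (hn : n ≤ N) (s : St V B K) (t : ℕ) :
    Rch M (n + 1) (St.cfg N l { s with v := update s.v i n } t)
      (St.cfg N x { s with v := update s.v i 0 } t) := by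
  induction n with
  | zero =>
    apply Rch.step
    simp only [St.cfg, TM2.step, hM, TM2.stepAux, St.stk, update_self, List.replicate_zero,
      List.head?_nil, Option.isSome_none, cond_false, List.tail_nil, Option.some.injEq,
      TM2.Cfg.mk.injEq, true_and]
    funext k
    by_cases hk : k = SK.L i
    · subst hk; simp [St.stk]
    · simp [Function.update_of_ne hk]
  | succ n ih =>
    have h1 : Rch M 1 (St.cfg N l { s with v := update s.v i (n + 1) } t)
        (St.cfg N l { s with v := update s.v i n } t) := by
      apply Rch.step
      simp only [St.cfg, TM2.step, hM, TM2.stepAux, St.stk, update_self, List.replicate_succ,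
        List.head?_cons, Option.isSome_some, cond_true, List.tail_cons, Option.some.injEq,
        TM2.Cfg.mk.injEq, true_and]
      funext k
      by_cases hk : k = SK.R i
      · subst hk
        simp only [update_self, ne_eq, reduceCtorEq, not_false_eq_true, update_of_ne, St.stk]
        rw [← List.replicate_succ]
        congr 1
        omega
      · rw [Function.update_of_ne hk]
        by_cases hk2 : k = SK.L i
        · subst hk2; simp [St.stk]
        · rw [Function.update_of_ne hk2]
          cases k with
          | L j =>
            have : j ≠ i := fun h => hk2 (by rw [h])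
            simp [St.stk, Function.update_of_ne this]
          | R j =>
            have : j ≠ i := fun h => hk (by rw [h])
            simp [St.stk, Function.update_of_ne this]
          | _ => rfl
    have h2 := h1.trans (ih (by omega))
    exact h2.mono (by omega)

theorem le_loop0 (M : Λ → TM2.Stmt (Gam V K Γ) Λ (Sg B Γ)) (e : Fin 2 → Λ) (x : Λ) (i j : V)
    (g : B) (hij : i ≠ j) (hM : M (e 0) = (Op.le i j g).code e x 0) (m : ℕ) :
    ∀ (a b t : ℕ) (s : St V B K), min a b = m → a ≤ N → b ≤ N →
      Rch M (m + 1) (St.cfg N (e 0) { s with v := update (update s.v i a) j b } t)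
        (St.cfg N (e 1) { s with v := update (update s.v i (a - m)) j (b - m),
                                 b := update s.b g (decide (a ≤ b)) } (t + m)) := by
  induction m with
  | zero =>
    intro a b t s hm ha hb
    apply Rch.step
    have hji : j ≠ i := hij.symm
    simp only [St.cfg, TM2.step, hM, Op.code, TM2.stepAux, Nat.sub_zero, add_zero]
    rcases Nat.eq_zero_or_pos a with h0 | h0
    · subst h0
      rcases Nat.eq_zero_or_pos b with h1 | h1
      · subst h1
        simp only [St.stk, update_self, List.replicate_zero, List.head?_nil, Option.isSome_none,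
          cond_false, List.tail_nil, Option.some.injEq, TM2.Cfg.mk.injEq, true_and, ne_eq, hij,
          not_false_eq_true, update_of_ne, reduceCtorEq, SK.L.injEq, hji]
        refine ⟨by simp, ?_⟩
        funext k
        rcases k with c | c | _ | c | _ | _
        · by_cases hcj : c = j
          · subst hcj; simp [St.stk, List.replicate_succ, hij, hij.symm]
          · by_cases hci : c = i
            · subst hci; simp [Function.update_of_ne, hcj, St.stk, List.replicate_succ]
            · simp [Function.update_of_ne, hcj, hci, St.stk]
        all_goals simp [St.stk]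
      · obtain ⟨b', rfl⟩ : ∃ b', b = b' + 1 := ⟨b - 1, by omega⟩
        simp only [St.stk, update_self, List.replicate_zero, List.head?_nil, Option.isSome_none,
          cond_false, List.tail_nil, Option.some.injEq, TM2.Cfg.mk.injEq, true_and, ne_eq, hij,
          not_false_eq_true, update_of_ne, reduceCtorEq, SK.L.injEq, hji, List.replicate_succ,
          List.head?_cons, Option.isSome_some, cond_true, List.tail_cons]
        refine ⟨by simp, ?_⟩
        funext k
        rcases k with c | c | _ | c | _ | _
        · by_cases hcj : c = j
          · subst hcj; simp [St.stk, List.replicate_succ, hij, hij.symm]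
          · by_cases hci : c = i
            · subst hci; simp [Function.update_of_ne, hcj, St.stk, List.replicate_succ]
            · simp [Function.update_of_ne, hcj, hci, St.stk]
        all_goals simp [St.stk]
    · obtain ⟨a', rfl⟩ : ∃ a', a = a' + 1 := ⟨a - 1, by omega⟩
      have hb0 : b = 0 := by omega
      subst hb0
      simp only [St.stk, update_self, List.replicate_zero, List.head?_nil, Option.isSome_none,
        cond_false, List.tail_nil, Option.some.injEq, TM2.Cfg.mk.injEq, true_and, ne_eq, hij,
        not_false_eq_true, update_of_ne, reduceCtorEq, SK.L.injEq, hji, List.replicate_succ,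
        List.head?_cons, Option.isSome_some, cond_true, List.tail_cons]
      refine ⟨by simp, ?_⟩
      funext k
      rcases k with c | c | _ | c | _ | _
      · by_cases hcj : c = j
        · subst hcj; simp [St.stk, List.replicate_succ, hij, hij.symm]
        · by_cases hci : c = i
          · subst hci; simp [Function.update_of_ne, hcj, St.stk, List.replicate_succ]
          · simp [Function.update_of_ne, hcj, hci, St.stk]
      all_goals simp [St.stk]
  | succ m ih =>
    intro a b t s hm ha hb
    obtain ⟨a', rfl⟩ : ∃ a', a = a' + 1 := ⟨a - 1, by omega⟩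
    obtain ⟨b', rfl⟩ : ∃ b', b = b' + 1 := ⟨b - 1, by omega⟩
    have hji : j ≠ i := hij.symm
    have h1 : Rch M 1 (St.cfg N (e 0) { s with v := update (update s.v i (a' + 1)) j (b' + 1) } t)
        (St.cfg N (e 0) { s with v := update (update s.v i a') j b' } (t + 1)) := by
      apply Rch.step
      simp only [St.cfg, TM2.step, hM, Op.code, TM2.stepAux]
      simp only [St.stk, update_self, Option.some.injEq, TM2.Cfg.mk.injEq, true_and, ne_eq, hij,
        not_false_eq_true, update_of_ne, reduceCtorEq, SK.L.injEq, SK.R.injEq, hji,
        List.replicate_succ, List.head?_cons, Option.isSome_some, cond_true, List.tail_cons]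
      funext k
      have e1 : N - a' = (N - (a' + 1)) + 1 := by omega
      have e2 : N - b' = (N - (b' + 1)) + 1 := by omega
      rcases k with c | c | _ | c | _ | _
      · simp only [ne_eq, reduceCtorEq, not_false_eq_true, update_of_ne, St.stk]
        by_cases hcj : c = j
        · subst hcj; simp
        · by_cases hci : c = i
          · subst hci; simp [Function.update_of_ne, hcj]
          · simp [Function.update_of_ne, hcj, hci, St.stk]
      · by_cases hcj : c = j
        · subst hcj
          simp [St.stk, e2, List.replicate_succ]
        · by_cases hci : c = i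
          · subst hci
            simp [Function.update_of_ne, hcj, St.stk, e1, List.replicate_succ]
          · simp [Function.update_of_ne, hcj, hci, St.stk]
      · simp [St.stk, List.replicate_succ]
      all_goals simp [St.stk]
    have h2 := h1.trans (ih a' b' (t + 1) s (by omega) (by omega) (by omega))
    have e1 : a' + 1 - (m + 1) = a' - m := by omega
    have e2 : b' + 1 - (m + 1) = b' - m := by omega
    have e3 : t + (m + 1) = t + 1 + m := by omega
    have e4 : decide (a' + 1 ≤ b' + 1) = decide (a' ≤ b') := by simp
    rw [e1, e2, e3, e4]
    exact h2.mono (by omega)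

theorem le_loop1 (M : Λ → TM2.Stmt (Gam V K Γ) Λ (Sg B Γ)) (e : Fin 2 → Λ) (x : Λ) (i j : V)
    (g : B) (hij : i ≠ j) (hM : M (e 1) = (Op.le i j g).code e x 1) (t : ℕ) :
    ∀ (a b : ℕ) (s : St V B K), a + t ≤ N → b + t ≤ N →
      Rch M (t + 1) (St.cfg N (e 1) { s with v := update (update s.v i a) j b } t)
        (St.cfg N x { s with v := update (update s.v i (a + t)) j (b + t) } 0) := by
  induction t with
  | zero =>
    intro a b s ha hb
    apply Rch.step
    simp only [St.cfg, TM2.step, hM, Op.code, TM2.stepAux]
    simp only [St.stk, update_self, Option.some.injEq, TM2.Cfg.mk.injEq, true_and,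
      List.replicate_zero, List.head?_nil, Option.isSome_none, cond_false, List.tail_nil, add_zero]
    funext k
    rcases k with c | c | _ | c | _ | _ <;> simp [St.stk]
  | succ t ih =>
    intro a b s ha hb
    have hji : j ≠ i := hij.symm
    have h1 : Rch M 1 (St.cfg N (e 1) { s with v := update (update s.v i a) j b } (t + 1))
        (St.cfg N (e 1) { s with v := update (update s.v i (a + 1)) j (b + 1) } t) := by
      apply Rch.step
      simp only [St.cfg, TM2.step, hM, Op.code, TM2.stepAux]
      simp only [St.stk, update_self, Option.some.injEq, TM2.Cfg.mk.injEq, true_and, ne_eq, hij,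
        not_false_eq_true, update_of_ne, reduceCtorEq, SK.L.injEq, SK.R.injEq, hji,
        List.replicate_succ, List.head?_cons, Option.isSome_some, cond_true, List.tail_cons]
      funext k
      have e1 : N - a = (N - (a + 1)) + 1 := by omega
      have e2 : N - b = (N - (b + 1)) + 1 := by omega
      rcases k with c | c | _ | c | _ | _
      · by_cases hcj : c = j
        · subst hcj; simp [St.stk, List.replicate_succ]
        · by_cases hci : c = i
          · subst hci; simp [Function.update_of_ne, hcj, St.stk, List.replicate_succ]
          · simp [Function.update_of_ne, hcj, hci, St.stk]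
      · by_cases hcj : c = j
        · subst hcj
          simp [St.stk, e2, List.replicate_succ, hij]
        · by_cases hci : c = i
          · subst hci
            simp [Function.update_of_ne, hcj, St.stk, e1, List.replicate_succ]
          · simp [Function.update_of_ne, hcj, hci, St.stk]
      all_goals simp [St.stk]
    have h2 := h1.trans (ih (a + 1) (b + 1) s (by omega) (by omega))
    have e1 : a + (t + 1) = a + 1 + t := by omega
    have e2 : b + (t + 1) = b + 1 + t := by omega
    rw [e1, e2]
    exact h2.mono (by omega)

theorem move_reach (M : Λ → TM2.Stmt (Gam V K Γ) Λ (Sg B Γ)) (e : Fin 2 → Λ) (x : Λ) (k k' : K)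
    (hk : k ≠ k') (hM : M (e 0) = (Op.move k k' : Op V B K).code e x 0) (l : List Bool) :
    ∀ (s : St V B K) (t : ℕ), s.st k = l →
      Rch M (l.length + 1) (St.cfg N (e 0) s t)
        (St.cfg N x { s with st := update (update s.st k' (l.reverse ++ s.st k')) k [] } t) := by
  induction l with
  | nil =>
    intro s t hs
    apply Rch.step
    simp only [St.cfg, TM2.step, hM, Op.code, TM2.stepAux]
    simp only [St.stk, hs, List.head?_nil, Option.isSome_none, cond_false, List.tail_nil,
      Option.some.injEq, TM2.Cfg.mk.injEq, true_and, List.reverse_nil, List.nil_append,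
      update_eq_self]
    funext c
    rcases c with c | c | _ | c | _ | _
    · simp [St.stk]
    · simp [St.stk]
    · simp [St.stk]
    · by_cases hc : c = k
      · subst hc; simp [St.stk]
      · simp [St.stk, Function.update_of_ne, hc]
    · simp [St.stk]
    · simp [St.stk]
  | cons a l ih =>
    intro s t hs
    have h1 : Rch M 1 (St.cfg N (e 0) s t)
        (St.cfg N (e 0) { s with st := update (update s.st k' (a :: s.st k')) k l } t) := by
      apply Rch.step
      simp only [St.cfg, TM2.step, hM, Op.code, TM2.stepAux]
      simp only [St.stk, hs, List.head?_cons, Option.isSome_some, cond_true, List.tail_cons,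
        Option.getD_some, Option.some.injEq, TM2.Cfg.mk.injEq, true_and]
      funext c
      rcases c with c | c | _ | c | _ | _
      · simp [St.stk]
      · simp [St.stk]
      · simp [St.stk]
      · by_cases hc : c = k
        · subst hc; simp [St.stk, hk]
        · by_cases hc' : c = k'
          · subst hc'; simp [St.stk, hc]
          · simp [St.stk, Function.update_of_ne, hc, hc']
      · simp [St.stk]
      · simp [St.stk]
    have h2 := h1.trans (ih { s with st := update (update s.st k' (a :: s.st k')) k l } t
      (by simp))
    have e1 : ({ s with st := update (update (update (update s.st k' (a :: s.st k')) k l) k'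
        (l.reverse ++ (update (update s.st k' (a :: s.st k')) k l) k')) k [] } : St V B K)
        = { s with st := update (update s.st k' ((a :: l).reverse ++ s.st k')) k [] } := by
      ext : 1
      · rfl
      · rfl
      · funext c
        change update (update (update (update s.st k' (a :: s.st k')) k l) k'
          (l.reverse ++ (update (update s.st k' (a :: s.st k')) k l) k')) k [] c =
          update (update s.st k' ((a :: l).reverse ++ s.st k')) k [] c
        by_cases hc : c = k
        · subst hc; simp
        · by_cases hc' : c = k'
          · subst hc'; simp [hc]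
          · simp [hc, hc']
    simp only at h2
    rw [e1] at h2
    exact h2.mono (by simp only [List.length_cons]; omega)

/-- Correctness of the code of an elementary operation. -/
theorem op_reach (o : Op V B K) (ho : o.WF) (M : Λ → TM2.Stmt (Gam V K Γ) Λ (Sg B Γ))
    (e : Fin 2 → Λ) (x : Λ) (hM : ∀ l, M (e l) = o.code e x l) (s : St V B K) (hs : s.ok N) :
    Rch M (o.cost N s) (s.cfg N (e 0) 0) ((o.exec N s).cfg N x 0) := by
  cases o with
  | inc i =>
    apply Rch.step
    have h := hs i
    simp only [St.cfg, TM2.step, hM, Op.code, TM2.stepAux, Op.exec]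
    rcases Nat.lt_or_ge (s.v i) N with h1 | h1
    · obtain ⟨m, hm⟩ : ∃ m, N - s.v i = m + 1 := ⟨N - s.v i - 1, by omega⟩
      have hmin : min (s.v i + 1) N = s.v i + 1 := by omega
      simp only [St.stk, update_self, Option.some.injEq, TM2.Cfg.mk.injEq, true_and, hm,
        List.replicate_succ, List.head?_cons, Option.isSome_some, cond_true, List.tail_cons,
        ne_eq, reduceCtorEq, not_false_eq_true, update_of_ne, hmin]
      funext k
      rcases k with c | c | _ | c | _ | _
      · by_cases hc : c = i
        · subst hc; simp [St.stk, List.replicate_succ]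
        · simp [St.stk, Function.update_of_ne, hc]
      · by_cases hc : c = i
        · subst hc
          have : N - (s.v c + 1) = m := by omega
          simp [St.stk, this]
        · simp [St.stk, Function.update_of_ne, hc]
      all_goals simp [St.stk]
    · have h2 : s.v i = N := by omega
      have hm : N - s.v i = 0 := by omega
      have hmin : min (s.v i + 1) N = s.v i := by omega
      simp only [St.stk, update_self, Option.some.injEq, TM2.Cfg.mk.injEq, true_and, hm,
        List.replicate_zero, List.head?_nil, Option.isSome_none, cond_false, List.tail_nil,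
        hmin, update_eq_self]
      funext k
      rcases k with c | c | _ | c | _ | _
      · simp [St.stk]
      · by_cases hc : c = i
        · subst hc; simp [St.stk, hm]
        · simp [St.stk, Function.update_of_ne, hc]
      all_goals simp [St.stk]
  | zero i =>
    have := zero_reach (N := N) M (e 0) x i (by rw [hM]; rfl) (s.v i) (hs i) s 0
    rw [update_eq_self] at this
    exact this.mono (by simp only [Op.cost]; have := hs i; omega)
  | le i j g =>
    have h0 := le_loop0 (N := N) M e x i j g ho (hM 0) (min (s.v i) (s.v j))
      (s.v i) (s.v j) 0 s rfl (hs i) (hs j)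
    have h1 := le_loop1 (N := N) M e x i j g ho (hM 1) (min (s.v i) (s.v j))
      (s.v i - min (s.v i) (s.v j)) (s.v j - min (s.v i) (s.v j))
      { s with b := update s.b g (decide (s.v i ≤ s.v j)) }
      (by have := hs i; omega) (by have := hs j; omega)
    have e1 : s.v i - min (s.v i) (s.v j) + min (s.v i) (s.v j) = s.v i := by omega
    have e2 : s.v j - min (s.v i) (s.v j) + min (s.v i) (s.v j) = s.v j := by omega
    rw [e1, e2] at h1
    have e3 : update (update s.v i (s.v i)) j (s.v j) = s.v := by simp
    rw [zero_add] at h0
    simp only [e3] at h0 h1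
    have h2 := h0.trans h1
    refine h2.mono ?_
    simp only [Op.cost]
    have := hs i
    omega
  | set g f =>
    apply Rch.step
    simp only [St.cfg, TM2.step, hM, Op.code, TM2.stepAux, Op.exec]
    rfl
  | push k f =>
    apply Rch.step
    simp only [St.cfg, TM2.step, hM, Op.code, TM2.stepAux, Op.exec, Option.some.injEq,
      TM2.Cfg.mk.injEq, true_and]
    funext c
    rcases c with c | c | _ | c | _ | _
    · simp [St.stk]
    · simp [St.stk]
    · simp [St.stk]
    · by_cases hc : c = k
      · subst hc; simp [St.stk]
      · simp [St.stk, Function.update_of_ne, hc]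
    · simp [St.stk]
    · simp [St.stk]
  | pop k g =>
    apply Rch.step
    have hh : (s.st k).headD false = (s.st k).head?.getD false := by
      cases s.st k <;> rfl
    simp only [St.cfg, TM2.step, hM, Op.code, TM2.stepAux, Op.exec, Option.some.injEq,
      TM2.Cfg.mk.injEq, true_and, hh]
    refine ⟨rfl, ?_⟩
    funext c
    rcases c with c | c | _ | c | _ | _
    · simp [St.stk]
    · simp [St.stk]
    · simp [St.stk]
    · by_cases hc : c = k
      · subst hc; simp [St.stk]
      · simp [St.stk, Function.update_of_ne, hc]
    · simp [St.stk]
    · simp [St.stk]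
  | move k k' =>
    exact move_reach (N := N) M e x k k' ho (hM 0) (s.st k) s 0 rfl

/-- Correctness of compiled code. -/
theorem cmd_reach (c : Cmd V B K) (hc : c.WF) (M : Λ → TM2.Stmt (Gam V K Γ) Λ (Sg B Γ))
    (e : Lab c → Λ) (x : Λ) (hM : ∀ l, M (e l) = code c e x l) (s : St V B K) (hs : s.ok N) :
    Rch M (c.cost N s) (s.cfg N (e (entry c)) 0) ((c.exec N s).cfg N x 0) := by
  induction c generalizing x s with
  | op o => exact op_reach o hc M e x hM s hs
  | seq a b iha ihb =>
    have h1 := iha hc.1 (fun l => e (.inl l)) (e (.inr (entry b))) (fun l => hM (.inl l)) s hs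
    have h2 := ihb hc.2 (fun l => e (.inr l)) x (fun l => hM (.inr l)) _ (Cmd.exec_ok a s hs)
    exact h1.trans h2
  | ite f a b iha ihb =>
    by_cases hf : f s.b = true
    · have h0 : Rch M 1 (s.cfg N (e (entry (.ite f a b))) 0)
          (s.cfg N (e (.inr (.inl (entry a)))) 0) := by
        apply Rch.step
        simp only [St.cfg, TM2.step, entry, hM, code, TM2.stepAux, hf, cond_true]
      have h1 := iha hc.1 (fun l => e (.inr (.inl l))) x (fun l => hM (.inr (.inl l))) s hs
      have h2 := h0.trans h1
      simp only [Cmd.exec, Cmd.cost, hf, if_true]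
      exact h2
    · have hf' : f s.b = false := by simpa using hf
      have h0 : Rch M 1 (s.cfg N (e (entry (.ite f a b))) 0)
          (s.cfg N (e (.inr (.inr (entry b)))) 0) := by
        apply Rch.step
        simp only [St.cfg, TM2.step, entry, hM, code, TM2.stepAux, hf', cond_false]
      have h1 := ihb hc.2 (fun l => e (.inr (.inr l))) x (fun l => hM (.inr (.inr l))) s hs
      have h2 := h0.trans h1
      simp only [Cmd.exec, Cmd.cost, hf', Bool.false_eq_true, if_false]
      exact h2
  | loop i a iha =>
    obtain ⟨hi, ha⟩ := hc
    set F : St V B K → St V B K := fun s => (Op.inc i).exec N (a.exec N s) with hF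
    have hz := zero_reach (N := N) M (e (.inl 0)) (e (.inl 1)) i
      (by rw [hM]; rfl) (s.v i) (hs i) s 0
    rw [update_eq_self] at hz
    have hz' : Rch M (s.v i + 1) (s.cfg N (e (.inl 0)) 0)
        (((Op.zero i).exec N s).cfg N (e (.inl 1)) 0) := hz
    have hs0 : ((Op.zero i).exec N s).ok N := Op.exec_ok _ _ hs
    have key : ∀ t ≤ N, Rch M (∑ u ∈ Finset.range t,
          (a.cost N (F^[u] ((Op.zero i).exec N s)) + 2))
        (((Op.zero i).exec N s).cfg N (e (.inl 1)) 0)
        ((F^[t] ((Op.zero i).exec N s)).cfg N (e (.inl 1)) 0) := by
      intro t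
      induction t with
      | zero => intro _; simpa using Rch.refl M _
      | succ t ih =>
        intro ht
        have h1 := ih (by omega)
        rw [Finset.sum_range_succ, Function.iterate_succ_apply']
        refine h1.trans ?_
        have hcnt := loop_counter (N := N) hi t (by omega) s
        have hok := iterate_ok (N := N) (f := F)
          (fun s hs => Op.exec_ok _ _ (Cmd.exec_ok _ _ hs)) t _ hs0
        change (F^[t] ((Op.zero i).exec N s)).v i = t at hcnt
        generalize F^[t] ((Op.zero i).exec N s) = s' at *
        have g1 : Rch M 1 (s'.cfg N (e (.inl 1)) 0) (s'.cfg N (e (.inr (entry a))) 0) := by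
          apply Rch.step
          obtain ⟨m, hm⟩ : ∃ m, N - s'.v i = m + 1 := ⟨N - s'.v i - 1, by omega⟩
          simp only [St.cfg, TM2.step, hM, code, TM2.stepAux, St.stk, hm, List.replicate_succ,
            List.head?_cons, Option.isSome_some, cond_true]
        have g2 := iha ha (fun l => e (.inr l)) (e (.inl 2)) (fun l => hM (.inr l)) s' hok
        have g3 : Rch M 1 ((a.exec N s').cfg N (e (.inl 2)) 0)
            ((F s').cfg N (e (.inl 1)) 0) := by
          have hok2 := Cmd.exec_ok (N := N) a s' hok
          have hcnt2 : (a.exec N s').v i = t := by rw [Cmd.exec_v a s' hi, hcnt]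
          simp only [hF]
          generalize a.exec N s' = s2 at *
          apply Rch.step
          obtain ⟨m, hm⟩ : ∃ m, N - s2.v i = m + 1 := ⟨N - s2.v i - 1, by omega⟩
          have hmin : min (s2.v i + 1) N = s2.v i + 1 := by omega
          simp only [St.cfg, TM2.step, hM, code, TM2.stepAux, Op.exec]
          simp only [St.stk, update_self, Option.some.injEq, TM2.Cfg.mk.injEq, true_and, hm,
            List.replicate_succ, List.head?_cons, Option.isSome_some, cond_true, List.tail_cons,
            ne_eq, reduceCtorEq, not_false_eq_true, update_of_ne, hmin]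
          funext k
          rcases k with c | c | _ | c | _ | _
          · by_cases hc : c = i
            · subst hc; simp [St.stk, List.replicate_succ]
            · simp [St.stk, Function.update_of_ne, hc]
          · by_cases hc : c = i
            · subst hc
              have : N - (s2.v c + 1) = m := by omega
              simp [St.stk, this]
            · simp [St.stk, Function.update_of_ne, hc]
          all_goals simp [St.stk]
        exact ((g1.trans g2).trans g3).mono (by omega)
    have hlast : Rch M 1 ((F^[N] ((Op.zero i).exec N s)).cfg N (e (.inl 1)) 0)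
        ((F^[N] ((Op.zero i).exec N s)).cfg N x 0) := by
      have hcnt := loop_counter (N := N) hi N le_rfl s
      change (F^[N] ((Op.zero i).exec N s)).v i = N at hcnt
      generalize F^[N] ((Op.zero i).exec N s) = s' at *
      apply Rch.step
      have hm : N - s'.v i = 0 := by omega
      simp only [St.cfg, TM2.step, hM, code, TM2.stepAux, St.stk, hm, List.replicate_zero,
        List.head?_nil, Option.isSome_none, cond_false]
    have hall := (hz'.trans (key N le_rfl)).trans hlast
    simp only [Cmd.exec, Cmd.cost]
    refine hall.mono ?_
    have := hs i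
    simp only [hF]
    omega

end Pool.Agent.Lib.PolyTM

end CompilePart

section MachinePart

/-! # From a command of the loop language to a polynomial-time Turing machine -/

namespace Pool.Agent.Lib.PolyTM

set_option linter.unusedSectionVars false
set_option linter.unusedSimpArgs false

open Function Turing

variable {V B K Γ : Type} [DecidableEq V] [DecidableEq B] [DecidableEq K]
  [Fintype V] [Fintype B] [Fintype K]

section Aux
variable {Λ : Type}

/-- Push one unit on every stack `R i`, `i` in the list. -/
def pushAll (l : List V) (q : TM2.Stmt (Gam V K Γ) Λ (Sg B Γ)) :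
    TM2.Stmt (Gam V K Γ) Λ (Sg B Γ) :=
  l.foldr (fun i q => TM2.Stmt.push (.R i) (fun _ => ()) q) q

theorem stepAux_pushAll (l : List V) (hl : l.Nodup) (q : TM2.Stmt (Gam V K Γ) Λ (Sg B Γ))
    (v : Sg B Γ) (S : ∀ k, List (Gam V K Γ k)) :
    TM2.stepAux (pushAll l q) v S = TM2.stepAux q v (fun k => match k with
      | .R i => if i ∈ l then () :: S (.R i) else S (.R i)
      | .L i => S (.L i)
      | .T => S .T
      | .S k => S (.S k)
      | .inp => S .inp
      | .out => S .out) := by
  induction l generalizing S with
  | nil =>
    simp only [pushAll, List.foldr_nil, List.not_mem_nil, if_false]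
    congr 1
    funext k
    cases k <;> rfl
  | cons a l ih =>
    have hnd := List.nodup_cons.1 hl
    have := ih hnd.2 (update S (.R a) (() :: S (.R a)))
    simp only [pushAll, List.foldr_cons, TM2.stepAux] at this ⊢
    rw [this]
    congr 1
    funext k
    cases k with
    | R i =>
      by_cases hia : i = a
      · subst hia
        simp [hnd.1]
      · simp [hia]
    | _ => simp

/-- Push the translation of the scanned symbol on the stacks `S k`, `k` in the list. -/
def pushIni (ini : K → Γ → Option Bool) (l : List K) (q : TM2.Stmt (Gam V K Γ) Λ (Sg B Γ)) :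
    TM2.Stmt (Gam V K Γ) Λ (Sg B Γ) :=
  l.foldr (fun k q => TM2.Stmt.branch (fun s => (s.2.2.2.1.bind (ini k)).isSome)
    (TM2.Stmt.push (.S k) (fun s => (s.2.2.2.1.bind (ini k)).getD false) q) q) q

theorem stepAux_pushIni (ini : K → Γ → Option Bool) (l : List K) (hl : l.Nodup)
    (q : TM2.Stmt (Gam V K Γ) Λ (Sg B Γ)) (v : Sg B Γ) (S : ∀ k, List (Gam V K Γ k)) :
    TM2.stepAux (pushIni ini l q) v S = TM2.stepAux q v (fun k => match k with
      | .R i => S (.R i)
      | .L i => S (.L i)
      | .T => S .T
      | .S k => if k ∈ l then (v.2.2.2.1.bind (ini k)).toList ++ S (.S k) else S (.S k)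
      | .inp => S .inp
      | .out => S .out) := by
  induction l generalizing S with
  | nil =>
    simp only [pushIni, List.foldr_nil, List.not_mem_nil, if_false]
    congr 1
    funext k
    cases k <;> rfl
  | cons a l ih =>
    have hnd := List.nodup_cons.1 hl
    simp only [pushIni, List.foldr_cons, TM2.stepAux] at ih ⊢
    cases hc : v.2.2.2.1.bind (ini a) with
    | none =>
      simp only [Option.isSome_none, cond_false]
      rw [ih hnd.2 S]
      congr 1
      funext k
      cases k with
      | S i =>
        by_cases hia : i = a
        · subst hia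
          simp [hnd.1, hc]
        · simp [hia]
      | _ => simp
    | some b =>
      simp only [Option.isSome_some, cond_true, Option.getD_some]
      rw [ih hnd.2]
      congr 1
      funext k
      cases k with
      | S i =>
        by_cases hia : i = a
        · subst hia
          simp [hnd.1, hc]
        · simp [hia]
      | _ => simp

/-- Pop every stack in the list, remembering whether some stack was non-empty. -/
def popAll (l : List (SK V K)) (q : TM2.Stmt (Gam V K Γ) Λ (Sg B Γ)) :
    TM2.Stmt (Gam V K Γ) Λ (Sg B Γ) :=
  l.foldr (fun k q => TM2.Stmt.pop k (fun s a => (s.1, s.2.1 || a.isSome, s.2.2)) q) q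

theorem stepAux_popAll (l : List (SK V K)) (hl : l.Nodup)
    (q : TM2.Stmt (Gam V K Γ) Λ (Sg B Γ)) (v : Sg B Γ) (S : ∀ k, List (Gam V K Γ k)) :
    TM2.stepAux (popAll l q) v S =
      TM2.stepAux q (v.1, v.2.1 || l.any (fun k => (S k).head?.isSome), v.2.2)
        (fun k => if k ∈ l then (S k).tail else S k) := by
  induction l generalizing S v with
  | nil => simp [popAll]
  | cons a l ih =>
    have hnd := List.nodup_cons.1 hl
    have := ih hnd.2 (v.1, v.2.1 || (S a).head?.isSome, v.2.2) (update S a (S a).tail)
    simp only [popAll, List.foldr_cons, TM2.stepAux] at this ⊢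
    rw [this]
    congr 1
    · have : (l.any fun k => (update S a (S a).tail k).head?.isSome)
          = l.any (fun k => (S k).head?.isSome) := by
        rw [Bool.eq_iff_iff, List.any_eq_true, List.any_eq_true]
        constructor
        · rintro ⟨k, hk, h⟩
          refine ⟨k, hk, ?_⟩
          have : k ≠ a := fun h => hnd.1 (h ▸ hk)
          rwa [update_of_ne this] at h
        · rintro ⟨k, hk, h⟩
          refine ⟨k, hk, ?_⟩
          have : k ≠ a := fun h => hnd.1 (h ▸ hk)
          rwa [update_of_ne this]
      rw [this]
      simp [Bool.or_assoc]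
    · funext k
      by_cases hka : k = a
      · subst hka
        simp [hnd.1]
      · simp [hka]

end Aux

/-- Stacks to be emptied at the end. -/
noncomputable def junk (V K : Type) [DecidableEq V] [DecidableEq K] [Fintype V] [Fintype K] :
    List (SK V K) :=
  (Finset.univ.erase SK.out).toList

/-- Labels of the whole machine. -/
abbrev MLab (c : Cmd V B K) : Type := Fin 1 ⊕ (Lab c ⊕ Fin 2)

instance (c : Cmd V B K) : Fintype (MLab c) :=
  letI := Lab.fintype c
  inferInstance

/-- Input/output conventions: which symbols are counted, how the symbols are translated for the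
initial contents of the stacks, and the output stack. -/
structure IO (K Γ : Type) where
  cnt : Γ → Bool
  ini : K → Γ → Option Bool
  ko : K

open TM2.Stmt in
/-- The machine's program. -/
noncomputable def mcode (io : IO K Γ) (c : Cmd V B K) :
    MLab c → TM2.Stmt (Gam V K Γ) (MLab c) (Sg B Γ)
  | .inl _ =>
      pop .inp (fun s a => (s.1, s.2.1, s.2.2.1, a, s.2.2.2.2)) <|
      branch (fun s => s.2.2.2.1.isSome)
        (branch (fun s => s.2.2.2.1.elim false io.cnt)
          (pushAll Finset.univ.toList <| pushIni io.ini Finset.univ.toList <|
            load (fun s => (s.1, false, false, none, none)) <| goto fun _ => .inl 0)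
          (pushIni io.ini Finset.univ.toList <|
            load (fun s => (s.1, false, false, none, none)) <| goto fun _ => .inl 0))
        (load (fun s => (s.1, false, false, none, none)) <| goto fun _ => .inr (.inl (entry c)))
  | .inr (.inl l) => code c (fun l => .inr (.inl l)) (.inr (.inr 0)) l
  | .inr (.inr 0) =>
      pop (.S io.ko) (fun s a => (s.1, s.2.1, s.2.2.1, s.2.2.2.1, a)) <|
      branch (fun s => s.2.2.2.2.isSome)
        (push .out (fun s => s.2.2.2.2.getD false) <|
          load (fun s => (s.1, false, false, none, none)) <| goto fun _ => .inr (.inr 0))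
        (load (fun s => (s.1, false, false, none, none)) <| goto fun _ => .inr (.inr 1))
  | .inr (.inr 1) =>
      popAll (junk V K) <|
      branch (fun s => s.2.1)
        (load (fun s => (s.1, false, false, none, none)) <| goto fun _ => .inr (.inr 1))
        (load (fun _ => (fun _ => false, false, false, none, none)) <| halt)

instance gamFinite (V K Γ : Type) [Finite Γ] : (k : SK V K) → Finite (Gam V K Γ k)
  | .inp => inferInstanceAs (Finite Γ)
  | .out => inferInstanceAs (Finite Bool)
  | .S _ => inferInstanceAs (Finite Bool)
  | .L _ => inferInstanceAs (Finite Unit)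
  | .R _ => inferInstanceAs (Finite Unit)
  | .T => inferInstanceAs (Finite Unit)

/-- The bundled machine of a command. -/
noncomputable def mach [Fintype Γ] (io : IO K Γ) (c : Cmd V B K) : FinTM2 where
  K := SK V K
  k₀ := .inp
  k₁ := .out
  Γ := Gam V K Γ
  Λ := MLab c
  main := .inl 0
  σ := Sg B Γ
  initialState := (fun _ => false, false, false, none, none)
  Γk₀Fin := inferInstanceAs (Fintype Γ)
  m := mcode io c

/-- Initial state of the loop language. -/
def St.init (io : IO K Γ) (w : List Γ) : St V B K :=
  ⟨fun _ => 0, fun _ => false, fun k => (w.filterMap (io.ini k)).reverse⟩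

/-- Stack contents during the scan of the input. -/
def scanStk (io : IO K Γ) (pre suf : List Γ) : ∀ k : SK V K, List (Gam V K Γ k)
  | .L _ => []
  | .R _ => List.replicate (pre.countP io.cnt) ()
  | .T => []
  | .S k => (pre.filterMap (io.ini k)).reverse
  | .inp => suf
  | .out => []

theorem scan_reach (io : IO K Γ) (c : Cmd V B K) (suf : List Γ) : ∀ pre : List Γ,
    Rch (mcode io c) (suf.length + 1)
      ⟨some (.inl 0), (fun _ => false, false, false, none, none), scanStk io pre suf⟩
      ⟨some (.inr (.inl (entry c))), (fun _ => false, false, false, none, none),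
        scanStk io (pre ++ suf) []⟩ := by
  induction suf with
  | nil =>
    intro pre
    apply Rch.step
    simp only [TM2.step, mcode, TM2.stepAux, scanStk, List.head?_nil, Option.isSome_none,
      cond_false, List.tail_nil, Option.some.injEq, TM2.Cfg.mk.injEq, true_and, List.append_nil]
    funext k
    rcases k with c | c | _ | c | _ | _ <;> simp [scanStk]
  | cons a suf ih =>
    intro pre
    have h1 : Rch (mcode io c) 1
        ⟨some (.inl 0), (fun _ => false, false, false, none, none), scanStk io pre (a :: suf)⟩
        ⟨some (.inl 0), (fun _ => false, false, false, none, none),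
          scanStk io (pre ++ [a]) suf⟩ := by
      apply Rch.step
      simp only [TM2.step, mcode, TM2.stepAux, scanStk, List.head?_cons, Option.isSome_some,
        cond_true, List.tail_cons, Option.getD_some, Option.elim_some]
      by_cases ha : io.cnt a = true
      · rw [ha, cond_true, stepAux_pushAll _ (Finset.nodup_toList _),
          stepAux_pushIni _ _ (Finset.nodup_toList _)]
        simp only [TM2.stepAux, Option.some.injEq, TM2.Cfg.mk.injEq, true_and,
          Option.getD_some]
        funext k
        rcases k with c | c | _ | c | _ | _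
        · simp [scanStk]
        · simp [scanStk, List.countP_append, ha, List.replicate_succ]
        · simp [scanStk]
        · simp only [Finset.mem_toList, Finset.mem_univ, if_true, scanStk, Option.bind_some,
            List.filterMap_append, List.reverse_append, ne_eq, reduceCtorEq, not_false_eq_true,
            update_of_ne]
          congr 1
          cases h : io.ini c a <;> simp [h]
        · simp [scanStk]
        · simp [scanStk]
      · have ha' : io.cnt a = false := by simpa using ha
        rw [ha', cond_false, stepAux_pushIni _ _ (Finset.nodup_toList _)]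
        simp only [TM2.stepAux, Option.some.injEq, TM2.Cfg.mk.injEq, true_and,
          Option.getD_some]
        funext k
        rcases k with c | c | _ | c | _ | _
        · simp [scanStk]
        · simp [scanStk, List.countP_append, ha']
        · simp [scanStk]
        · simp only [Finset.mem_toList, Finset.mem_univ, if_true, scanStk, Option.bind_some,
            List.filterMap_append, List.reverse_append, ne_eq, reduceCtorEq, not_false_eq_true,
            update_of_ne]
          congr 1
          cases h : io.ini c a <;> simp [h]
        · simp [scanStk]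
        · simp [scanStk]
    have h2 := h1.trans (ih (pre ++ [a]))
    rw [List.append_assoc, List.singleton_append] at h2
    exact h2.mono (by simp only [List.length_cons]; omega)

theorem out_reach (io : IO K Γ) (c : Cmd V B K) (f : B → Bool) (l : List Bool) :
    ∀ (S : ∀ k, List (Gam V K Γ k)), S (.S io.ko) = l →
    Rch (mcode io c) (l.length + 1)
      ⟨some (.inr (.inr 0)), (f, false, false, none, none), S⟩
      ⟨some (.inr (.inr 1)), (f, false, false, none, none),
        update (update S .out (l.reverse ++ S .out)) (.S io.ko) []⟩ := by
  induction l with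
  | nil =>
    intro S hS
    apply Rch.step
    simp only [TM2.step, mcode, TM2.stepAux, hS, List.head?_nil, Option.isSome_none,
      cond_false, List.tail_nil, Option.some.injEq, TM2.Cfg.mk.injEq, true_and,
      List.reverse_nil, List.nil_append, update_eq_self]
  | cons a l ih =>
    intro S hS
    have h1 : Rch (mcode io c) 1
      ⟨some (.inr (.inr 0)), (f, false, false, none, none), S⟩
      ⟨some (.inr (.inr 0)), (f, false, false, none, none),
        update (update S (.S io.ko) l) .out (a :: S .out)⟩ := by
      apply Rch.step
      simp only [TM2.step, mcode, TM2.stepAux, hS, List.head?_cons, Option.isSome_some,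
        cond_true, List.tail_cons, Option.getD_some, Option.some.injEq, TM2.Cfg.mk.injEq,
        true_and, ne_eq, reduceCtorEq, not_false_eq_true, update_of_ne]
    have h2 := h1.trans (ih (update (update S (.S io.ko) l) .out (a :: S .out)) (by simp))
    have e1 : (update (update (update (update S (.S io.ko) l) .out (a :: S .out)) .out
        (l.reverse ++ (update (update S (.S io.ko) l) .out (a :: S .out)) .out)) (.S io.ko) []
          : ∀ k, List (Gam V K Γ k))
        = update (update S .out ((a :: l).reverse ++ S .out)) (.S io.ko) [] := by
      funext k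
      by_cases hk : k = .out
      · subst hk; simp
      · by_cases hk2 : k = .S io.ko
        · subst hk2; simp
        · simp [hk, hk2]
    rw [e1] at h2
    exact h2.mono (by simp only [List.length_cons]; omega)

theorem clean_reach (io : IO K Γ) (c : Cmd V B K) (n : ℕ) : ∀ (f : B → Bool)
    (S : ∀ k, List (Gam V K Γ k)), (∀ k, k ≠ SK.out → (S k).length ≤ n) →
    Rch (mcode io c) (n + 1)
      ⟨some (.inr (.inr 1)), (f, false, false, none, none), S⟩
      ⟨none, (fun _ => false, false, false, none, none), fun k => match k with
        | .out => S .out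
        | .L _ => []
        | .R _ => []
        | .T => []
        | .S _ => []
        | .inp => []⟩ := by
  have hmem : ∀ k : SK V K, k ∈ junk V K ↔ k ≠ SK.out := by
    intro k; simp [junk]
  have hnd : (junk V K).Nodup := Finset.nodup_toList _
  induction n with
  | zero =>
    intro f S hS
    apply Rch.step
    have hany : ((junk V K).any fun k => (S k).head?.isSome) = false := by
      rw [List.any_eq_false]
      intro k hk
      have := hS k ((hmem k).1 hk)
      have : S k = [] := List.length_eq_zero_iff.1 (by omega)
      simp [this]
    simp only [TM2.step, mcode, stepAux_popAll _ hnd, TM2.stepAux, hany, Bool.or_false,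
      cond_false, Option.some.injEq, TM2.Cfg.mk.injEq, true_and]
    funext k
    by_cases hk : k = SK.out
    · subst hk
      have : SK.out ∉ junk V K := by simp [junk]
      simp [this]
    · have h0 := hS k hk
      have h1 : S k = [] := List.length_eq_zero_iff.1 (by omega)
      have h2 : k ∈ junk V K := (hmem k).2 hk
      cases k <;> simp_all
  | succ n ih =>
    intro f S hS
    by_cases hany : ((junk V K).any fun k => (S k).head?.isSome) = true
    · have h1 : Rch (mcode io c) 1
          ⟨some (.inr (.inr 1)), (f, false, false, none, none), S⟩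
          ⟨some (.inr (.inr 1)), (f, false, false, none, none),
            fun k => if k ∈ junk V K then (S k).tail else S k⟩ := by
        apply Rch.step
        simp only [TM2.step, mcode, stepAux_popAll _ hnd, TM2.stepAux, hany, Bool.or_true,
          cond_true]
      have h2 := h1.trans (ih f (fun k => if k ∈ junk V K then (S k).tail else S k) (by
        intro k hk
        have := hS k hk
        simp only [(hmem k).2 hk, if_true, List.length_tail]
        omega))
      have hout : SK.out ∉ junk V K := by simp [junk]
      simp only [hout, if_false] at h2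
      exact h2.mono (by omega)
    · have hany' : ((junk V K).any fun k => (S k).head?.isSome) = false := by simpa using hany
      refine Rch.mono (T1 := 1) (Rch.step ?_) (by omega)
      simp only [TM2.step, mcode, stepAux_popAll _ hnd, TM2.stepAux, hany', Bool.or_false,
        cond_false, Option.some.injEq, TM2.Cfg.mk.injEq, true_and]
      funext k
      by_cases hk : k = SK.out
      · subst hk
        have : SK.out ∉ junk V K := by simp [junk]
        simp [this]
      · have h2 : k ∈ junk V K := (hmem k).2 hk
        have h3 := (List.any_eq_false.1 hany') k h2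
        have h1 : S k = [] := by
          cases hSk : S k with
          | nil => rfl
          | cons a l => rw [hSk] at h3; simp at h3
        cases k <;> simp_all

/-- The machine of a well-formed command outputs the reverse of its output stack. -/
theorem mach_outputs [Fintype Γ] (io : IO K Γ) (c : Cmd V B K) (hc : c.WF) (w : List Γ) :
    Nonempty (TM2OutputsInTime (mach io c) w
      (some ((c.exec (w.countP io.cnt) (St.init io w)).st io.ko).reverse)
      (4 * w.length + 3 * c.cost (w.countP io.cnt) (St.init io w)
        + 2 * (St.init (V := V) (B := B) io w).total + 4)) := by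
  set N := w.countP io.cnt with hN
  have hNw : N ≤ w.length := List.countP_le_length
  set s0 : St V B K := St.init io w with hs0
  set s1 := c.exec N s0 with hs1
  have hok0 : s0.ok N := fun _ => Nat.zero_le _
  have hok1 : s1.ok N := Cmd.exec_ok c _ hok0
  have htot : s1.total ≤ s0.total + c.cost N s0 := c.total_le_cost hc s0
  have hlen : ∀ k, (s1.st k).length ≤ s1.total := fun k =>
    Finset.single_le_sum (f := fun k => (s1.st k).length) (fun _ _ => Nat.zero_le _)
      (Finset.mem_univ k)
  have h1 := scan_reach io c w []
  rw [List.nil_append] at h1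
  have e1 : (⟨some (.inr (.inl (entry c))), (fun _ => false, false, false, none, none),
        scanStk io w []⟩ : TM2.Cfg (Gam V K Γ) (MLab c) (Sg B Γ)) =
      s0.cfg N (.inr (.inl (entry c))) 0 := by
    simp only [St.cfg, TM2.Cfg.mk.injEq, true_and]
    refine ⟨rfl, ?_⟩
    funext k
    rcases k with c | c | _ | c | _ | _ <;> simp [scanStk, St.stk, hN, hs0, St.init]
  rw [e1] at h1
  have h3 := cmd_reach (N := N) c hc (mcode io c) (fun l => .inr (.inl l))
    (.inr (.inr 0)) (fun l => rfl) s0 hok0
  have h4 := out_reach io c s1.b (s1.st io.ko) (s1.stk N 0) rfl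
  set S2 : ∀ k, List (Gam V K Γ k) := update (update (s1.stk N 0) .out
    ((s1.st io.ko).reverse ++ s1.stk N 0 .out)) (.S io.ko) [] with hS2
  have h5 := clean_reach io c (w.length + s1.total) s1.b S2 (by
    intro k hk
    rw [hS2]
    by_cases hk2 : k = .S io.ko
    · subst hk2; simp
    rw [update_of_ne hk2, update_of_ne hk]
    rcases k with i | i | _ | k | _ | _
    · simp only [St.stk, List.length_replicate]; exact ((hok1 i).trans hNw).trans (by omega)
    · simp only [St.stk, List.length_replicate]; omega
    · simp [St.stk]
    · simp only [St.stk]; have := hlen k; omega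
    · simp [St.stk]
    · exact absurd rfl hk)
  have h := ((h1.trans h3).trans h4).trans h5
  obtain ⟨t, ht, he⟩ := h
  have ei : (⟨some (.inl 0), (fun _ => false, false, false, none, none), scanStk io [] w⟩ :
      TM2.Cfg (Gam V K Γ) (MLab c) (Sg B Γ)) = initList (mach io c) w := by
    simp only [initList, mach]
    congr 1
    funext k
    rcases k with c | c | _ | c | _ | _ <;> simp [scanStk]
  have ef : (⟨none, (fun _ => false, false, false, none, none), fun k => match k with
        | .out => S2 .out
        | .L _ => []
        | .R _ => []
        | .T => []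
        | .S _ => []
        | .inp => []⟩ : TM2.Cfg (Gam V K Γ) (MLab c) (Sg B Γ))
      = haltList (mach io c) (s1.st io.ko).reverse := by
    simp only [haltList, mach]
    congr 1
    funext k
    rcases k with c | c | _ | c | _ | _ <;> simp [hS2, St.stk]
  rw [ei, ef] at he
  refine ⟨⟨⟨t, he⟩, ?_⟩⟩
  change t ≤ _
  have := hlen io.ko
  omega

theorem filterMap_length_le {α β : Type} (f : α → Option β) (l : List α) :
    (l.filterMap f).length ≤ l.length := List.length_filterMap_le f l

/-- Polynomial time bound. -/
theorem mach_poly [Fintype Γ] (io : IO K Γ) (c : Cmd V B K) (hc : c.WF) :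
    ∃ p : Polynomial ℕ, ∀ w : List Γ, Nonempty (TM2OutputsInTime (mach io c) w
      (some ((c.exec (w.countP io.cnt) (St.init io w)).st io.ko).reverse)
      (p.eval w.length)) := by
  obtain ⟨p, hp⟩ := c.cost_poly hc
  set q : Polynomial ℕ := ((Fintype.card K + 1 : ℕ) : Polynomial ℕ) * Polynomial.X with hq
  refine ⟨4 * Polynomial.X + 3 * p.comp q + 2 * q + 4, fun w => ?_⟩
  obtain ⟨h⟩ := mach_outputs io c hc w
  refine ⟨⟨h.toEvalsTo, h.steps_le_m.trans ?_⟩⟩
  have hNw : w.countP io.cnt ≤ w.length := List.countP_le_length
  have htot : (St.init (V := V) (B := B) io w).total ≤ Fintype.card K * w.length := by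
    unfold St.total
    calc ∑ k, ((St.init (V := V) (B := B) io w).st k).length ≤ ∑ _k : K, w.length := by
          apply Finset.sum_le_sum
          intro k _
          simp only [St.init, List.length_reverse]
          exact filterMap_length_le _ _
      _ = _ := by simp
  have e1 : q.eval w.length = (Fintype.card K + 1) * w.length := by
    rw [hq]
    simp only [Polynomial.eval_mul, Polynomial.eval_X, Polynomial.eval_natCast]
    norm_cast
  have h1 := hp (w.countP io.cnt) (q.eval w.length) (St.init io w)
    (by rw [e1]; nlinarith [Nat.zero_le (Fintype.card K * w.length)])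
    (by rw [e1]; nlinarith)
  simp only [Polynomial.eval_add, Polynomial.eval_mul, Polynomial.eval_X,
    Polynomial.eval_ofNat, Polynomial.eval_comp]
  have h2 : (St.init (V := V) (B := B) io w).total ≤ q.eval w.length := by rw [e1]; nlinarith
  omega

end Pool.Agent.Lib.PolyTM

end MachinePart
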