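import Pool.Agent.Lib.PolyTM.Comp

/-! # Small-step machines -/

namespace Pool.Agent.Lib.PolyTM

set_option linter.unusedSectionVars false
set_option linter.unusedSimpArgs false

open Function Turing

/-- Actions of a small-step stack machine. -/
inductive Act (K : Type) (Γ : K → Type) (S : Type)
  | jump (s : S)
  | push (k : K) (γ : Γ k) (s : S)
  | read (k : K) (pop : Bool) (next : Option (Γ k) → S)

/-- Configurations of a small-step stack machine. -/
@[ext]
structure MC (K : Type) (Γ : K → Type) (S : Type) where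
  s : S
  stk : ∀ k, List (Γ k)

section

variable {K : Type} [DecidableEq K] {Γ : K → Type} {S : Type}

/-- One step. -/
def mstep (act : S → Act K Γ S) (c : MC K Γ S) : MC K Γ S :=
  match act c.s with
  | .jump s => ⟨s, c.stk⟩
  | .push k γ s => ⟨s, update c.stk k (γ :: c.stk k)⟩
  | .read k pop next => ⟨next (c.stk k).head?,
      if pop then update c.stk k (c.stk k).tail else c.stk⟩

theorem mstep_len (act : S → Act K Γ S) (c : MC K Γ S) (k : K) :
    ((mstep act c).stk k).length ≤ (c.stk k).length + 1 := by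
  unfold mstep
  split
  · simp
  · rename_i j γ s _
    by_cases h : k = j
    · subst h; simp
    · simp [update_of_ne h]
  · rename_i j pop next _
    cases pop
    · simp
    · by_cases h : k = j
      · subst h; simp; omega
      · simp [update_of_ne h]

theorem miter_len (act : S → Act K Γ S) (c : MC K Γ S) (k : K) (t : ℕ) :
    (((mstep act)^[t] c).stk k).length ≤ (c.stk k).length + t := by
  induction t with
  | zero => simp
  | succ t ih =>
    rw [Function.iterate_succ_apply']
    exact (mstep_len act _ k).trans (by omega)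

end

namespace Micro

variable {K : Type} [DecidableEq K] {Γ : K → Type} {Λ σ : Type} [Fintype Λ]

/-- All statements occurring in a program. -/
noncomputable def SS (m : Λ → TM2.Stmt Γ Λ σ) : Finset (TM2.Stmt Γ Λ σ) :=
  letI := Classical.decEq (TM2.Stmt Γ Λ σ)
  Finset.univ.biUnion fun l => TM2.stmts₁ (m l)

theorem SS_label (m : Λ → TM2.Stmt Γ Λ σ) (l : Λ) : m l ∈ SS m := by
  classical
  unfold SS
  simp only [Finset.mem_biUnion, Finset.mem_univ, true_and]
  exact ⟨l, TM2.stmts₁_self⟩

theorem SS_sub (m : Λ → TM2.Stmt Γ Λ σ) {q q' : TM2.Stmt Γ Λ σ} (h : q' ∈ TM2.stmts₁ q)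
    (hq : q ∈ SS m) : q' ∈ SS m := by
  classical
  unfold SS at *
  simp only [Finset.mem_biUnion, Finset.mem_univ, true_and] at *
  obtain ⟨l, hl⟩ := hq
  exact ⟨l, TM2.stmts₁_trans hl h⟩

/-- States: remaining statement and register, or a verdict. -/
abbrev MS (m : Λ → TM2.Stmt Γ Λ σ) : Type := ({q // q ∈ SS m} × σ) ⊕ Bool

open Classical in
/-- State for a statement. -/
noncomputable def mk (m : Λ → TM2.Stmt Γ Λ σ) (q : TM2.Stmt Γ Λ σ) (v : σ) : MS m :=
  if h : q ∈ SS m then .inl (⟨q, h⟩, v) else .inr false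

open Classical in
/-- The small-step machine of a program; when it halts, the top of stack `k1` is compared with
`tt` and the verdict is stored forever. -/
noncomputable def act (m : Λ → TM2.Stmt Γ Λ σ) (k1 : K) (tt : Γ k1) : MS m → Act K Γ (MS m)
  | .inr b => .jump (.inr b)
  | .inl (⟨.push k f q, _⟩, v) => .push k (f v) (mk m q v)
  | .inl (⟨.peek k f q, _⟩, v) => .read k false fun o => mk m q (f v o)
  | .inl (⟨.pop k f q, _⟩, v) => .read k true fun o => mk m q (f v o)
  | .inl (⟨.load a q, _⟩, v) => .jump (mk m q (a v))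
  | .inl (⟨.branch p q1 q2, _⟩, v) => .jump (mk m (if p v then q1 else q2) v)
  | .inl (⟨.goto l, _⟩, v) => .jump (mk m (m (l v)) v)
  | .inl (⟨.halt, _⟩, _) => .read k1 false fun o => .inr (decide (o = some tt))

/-- Small-step configuration of a configuration. -/
noncomputable def emb (m : Λ → TM2.Stmt Γ Λ σ) (c : TM2.Cfg Γ Λ σ) : MC K Γ (MS m) :=
  ⟨mk m (c.l.elim .halt m) c.var, c.stk⟩

/-- Depth of a statement. -/
def depth : TM2.Stmt Γ Λ σ → ℕ
  | .push _ _ q => depth q + 1
  | .peek _ _ q => depth q + 1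
  | .pop _ _ q => depth q + 1
  | .load _ q => depth q + 1
  | .branch _ q1 q2 => depth q1 + depth q2 + 1
  | .goto _ => 1
  | .halt => 0

theorem run_stmt (m : Λ → TM2.Stmt Γ Λ σ) (k1 : K) (tt : Γ k1) (q : TM2.Stmt Γ Λ σ)
    (hq : q ∈ SS m) (v : σ) (S : ∀ k, List (Γ k)) :
    ∃ n ≤ depth q, (mstep (act m k1 tt))^[n] ⟨mk m q v, S⟩ = emb m (TM2.stepAux q v S) := by
  classical
  induction q generalizing v S with
  | push k f q ih =>
    have hq' : q ∈ SS m := SS_sub m (by
      simp only [TM2.stmts₁, Finset.mem_insert]; exact Or.inr TM2.stmts₁_self) hq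
    obtain ⟨n, hn, e⟩ := ih hq' v (update S k (f v :: S k))
    refine ⟨n + 1, by simp only [depth]; omega, ?_⟩
    rw [Function.iterate_succ_apply]
    have : mstep (act m k1 tt) ⟨mk m (.push k f q) v, S⟩ =
        ⟨mk m q v, update S k (f v :: S k)⟩ := by
      simp [mstep, mk, hq, act]
    rw [this, e]
    rfl
  | peek k f q ih =>
    have hq' : q ∈ SS m := SS_sub m (by
      simp only [TM2.stmts₁, Finset.mem_insert]; exact Or.inr TM2.stmts₁_self) hq
    obtain ⟨n, hn, e⟩ := ih hq' (f v (S k).head?) S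
    refine ⟨n + 1, by simp only [depth]; omega, ?_⟩
    rw [Function.iterate_succ_apply]
    have : mstep (act m k1 tt) ⟨mk m (.peek k f q) v, S⟩ =
        ⟨mk m q (f v (S k).head?), S⟩ := by
      simp [mstep, mk, hq, act]
    rw [this, e]
    rfl
  | pop k f q ih =>
    have hq' : q ∈ SS m := SS_sub m (by
      simp only [TM2.stmts₁, Finset.mem_insert]; exact Or.inr TM2.stmts₁_self) hq
    obtain ⟨n, hn, e⟩ := ih hq' (f v (S k).head?) (update S k (S k).tail)
    refine ⟨n + 1, by simp only [depth]; omega, ?_⟩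
    rw [Function.iterate_succ_apply]
    have : mstep (act m k1 tt) ⟨mk m (.pop k f q) v, S⟩ =
        ⟨mk m q (f v (S k).head?), update S k (S k).tail⟩ := by
      simp [mstep, mk, hq, act]
    rw [this, e]
    rfl
  | load a q ih =>
    have hq' : q ∈ SS m := SS_sub m (by
      simp only [TM2.stmts₁, Finset.mem_insert]; exact Or.inr TM2.stmts₁_self) hq
    obtain ⟨n, hn, e⟩ := ih hq' (a v) S
    refine ⟨n + 1, by simp only [depth]; omega, ?_⟩
    rw [Function.iterate_succ_apply]
    have : mstep (act m k1 tt) ⟨mk m (.load a q) v, S⟩ = ⟨mk m q (a v), S⟩ := by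
      simp [mstep, mk, hq, act]
    rw [this, e]
    rfl
  | branch p q1 q2 ih1 ih2 =>
    have hq1 : q1 ∈ SS m := SS_sub m (by
      simp only [TM2.stmts₁, Finset.mem_insert, Finset.mem_union]
      exact Or.inr (Or.inl TM2.stmts₁_self)) hq
    have hq2 : q2 ∈ SS m := SS_sub m (by
      simp only [TM2.stmts₁, Finset.mem_insert, Finset.mem_union]
      exact Or.inr (Or.inr TM2.stmts₁_self)) hq
    have : mstep (act m k1 tt) ⟨mk m (.branch p q1 q2) v, S⟩ =
        ⟨mk m (if p v then q1 else q2) v, S⟩ := by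
      simp only [mstep, mk, hq, dite_true, act]
    cases hp : p v
    · obtain ⟨n, hn, e⟩ := ih2 hq2 v S
      refine ⟨n + 1, by simp only [depth]; omega, ?_⟩
      rw [Function.iterate_succ_apply, this]
      simp only [hp, Bool.false_eq_true, if_false, TM2.stepAux, cond_false]
      exact e
    · obtain ⟨n, hn, e⟩ := ih1 hq1 v S
      refine ⟨n + 1, by simp only [depth]; omega, ?_⟩
      rw [Function.iterate_succ_apply, this]
      simp only [hp, if_true, TM2.stepAux, cond_true]
      exact e
  | goto l =>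
    refine ⟨1, by simp [depth], ?_⟩
    rw [Function.iterate_one]
    simp [mstep, mk, hq, act, emb, TM2.stepAux, SS_label]
  | halt => exact ⟨0, le_rfl, rfl⟩

theorem run_steps (m : Λ → TM2.Stmt Γ Λ σ) (k1 : K) (tt : Γ k1) :
    ∀ (t : ℕ) (c c' : TM2.Cfg Γ Λ σ), (flip bind (TM2.step m))^[t] (some c) = some c' →
      ∃ n ≤ (∑ l : Λ, depth (m l)) * t,
        (mstep (act m k1 tt))^[n] (emb m c) = emb m c' := by
  intro t
  induction t with
  | zero =>
    intro c c' h
    simp only [Function.iterate_zero, id_eq, Option.some.injEq] at h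
    subst h
    exact ⟨0, by simp, rfl⟩
  | succ t ih =>
    intro c c' h
    rw [Function.iterate_succ_apply] at h
    obtain ⟨l, v, S⟩ := c
    cases l with
    | none =>
      have h0 : flip bind (TM2.step m) (some (⟨none, v, S⟩ : TM2.Cfg Γ Λ σ)) = none := rfl
      rw [h0, CompM.iter_none] at h
      exact absurd h (by simp)
    | some l =>
      have h1 : flip bind (TM2.step m) (some (⟨some l, v, S⟩ : TM2.Cfg Γ Λ σ)) =
        some (TM2.stepAux (m l) v S) := rfl
      rw [h1] at h
      obtain ⟨n, hn, e⟩ := ih _ _ h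
      obtain ⟨n', hn', e'⟩ := run_stmt m k1 tt (m l) (SS_label m l) v S
      refine ⟨n + n', ?_, ?_⟩
      · have : depth (m l) ≤ ∑ l : Λ, depth (m l) :=
          Finset.single_le_sum (f := fun l => depth (m l)) (fun _ _ => Nat.zero_le _)
            (Finset.mem_univ l)
        rw [Nat.mul_succ]
        omega
      · rw [Function.iterate_add_apply]
        have : emb m (⟨some l, v, S⟩ : TM2.Cfg Γ Λ σ) = ⟨mk m (m l) v, S⟩ := rfl
        rw [this, e', e]

theorem halt_mem (m : Λ → TM2.Stmt Γ Λ σ) {q : TM2.Stmt Γ Λ σ} (hq : q ∈ SS m) {v : σ}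
    {S : ∀ k, List (Γ k)} (h : (TM2.stepAux q v S).l = none) : TM2.Stmt.halt ∈ SS m := by
  classical
  induction q generalizing v S with
  | branch p q1 q2 ih1 ih2 =>
    have hq1 : q1 ∈ SS m := SS_sub m (by
      simp only [TM2.stmts₁, Finset.mem_insert, Finset.mem_union]
      exact Or.inr (Or.inl TM2.stmts₁_self)) hq
    have hq2 : q2 ∈ SS m := SS_sub m (by
      simp only [TM2.stmts₁, Finset.mem_insert, Finset.mem_union]
      exact Or.inr (Or.inr TM2.stmts₁_self)) hq
    simp only [TM2.stepAux] at h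
    cases hp : p v
    · rw [hp] at h; exact ih2 hq2 h
    · rw [hp] at h; exact ih1 hq1 h
  | goto l => simp [TM2.stepAux] at h
  | halt => exact hq
  | load _ q ih | _ _ _ q ih =>
    have hq' : q ∈ SS m := SS_sub m (by
      simp only [TM2.stmts₁, Finset.mem_insert]; exact Or.inr TM2.stmts₁_self) hq
    exact ih hq' h

theorem halt_mem' (m : Λ → TM2.Stmt Γ Λ σ) :
    ∀ (t : ℕ) (c c' : TM2.Cfg Γ Λ σ), (flip bind (TM2.step m))^[t] (some c) = some c' →
      c.l ≠ none → c'.l = none → TM2.Stmt.halt ∈ SS m := by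
  intro t
  induction t with
  | zero =>
    intro c c' h
    simp only [Function.iterate_zero, id_eq, Option.some.injEq] at h
    subst h
    intro h1 h2
    exact absurd h2 h1
  | succ t ih =>
    intro c c' h h1 h2
    rw [Function.iterate_succ_apply] at h
    obtain ⟨l, v, S⟩ := c
    cases l with
    | none => exact absurd rfl h1
    | some l =>
      have h3 : flip bind (TM2.step m) (some (⟨some l, v, S⟩ : TM2.Cfg Γ Λ σ)) =
        some (TM2.stepAux (m l) v S) := rfl
      rw [h3] at h
      by_cases h4 : (TM2.stepAux (m l) v S).l = none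
      · exact halt_mem m (SS_label m l) h4
      · exact ih _ _ h h4 h2

end Micro

instance lamFin (tm : FinTM2) : Fintype tm.Λ := tm.ΛFin

open Micro Classical in
/-- The verdict of the small-step machine. -/
theorem micro_verdict (tm : FinTM2) (tt : tm.Γ tm.k₁) (w : List (tm.Γ tm.k₀))
    (w' : List (tm.Γ tm.k₁)) (T : ℕ) (h : TM2OutputsInTime tm w (some w') T) :
    ∃ n ≤ (∑ l : tm.Λ, depth (tm.m l)) * T + 1,
      ∀ n' ≥ n, ((mstep (act tm.m tm.k₁ tt))^[n'] (emb tm.m (initList tm w))).s =
        .inr (decide (w'.head? = some tt)) ∧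
        ((mstep (act tm.m tm.k₁ tt))^[n'] (emb tm.m (initList tm w))).stk =
          (haltList tm w').stk := by
  obtain ⟨⟨t, ht⟩, hle⟩ := h
  obtain ⟨n, hn, e⟩ := run_steps tm.m tm.k₁ tt t _ _ ht
  have hh := halt_mem' tm.m t _ _ ht (by simp [initList]) (by simp [haltList])
  refine ⟨n + 1, ?_, fun n' hn' => ?_⟩
  · have : t ≤ T := hle
    have := Nat.mul_le_mul_left (∑ l : tm.Λ, depth (tm.m l)) this
    omega
  · have h1 : mstep (act tm.m tm.k₁ tt) (emb tm.m (haltList tm w')) =
        ⟨.inr (decide (w'.head? = some tt)), (haltList tm w').stk⟩ := by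
      simp [mstep, emb, mk, hh, act, haltList]
    have h2 : (mstep (act tm.m tm.k₁ tt))^[n + 1] (emb tm.m (initList tm w)) =
        ⟨.inr (decide (w'.head? = some tt)), (haltList tm w').stk⟩ := by
      rw [Function.iterate_succ_apply', e, h1]
    have h3 : ∀ j, (mstep (act tm.m tm.k₁ tt))^[j]
        (⟨.inr (decide (w'.head? = some tt)), (haltList tm w').stk⟩ : MC tm.K tm.Γ _) =
        ⟨.inr (decide (w'.head? = some tt)), (haltList tm w').stk⟩ := by
      intro j
      induction j with
      | zero => rfl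
      | succ j ih =>
        rw [Function.iterate_succ_apply', ih]
        simp [mstep, act]
    obtain ⟨j, rfl⟩ := Nat.exists_eq_add_of_le hn'
    rw [Nat.add_comm, Function.iterate_add_apply, h2, h3]
    exact ⟨rfl, rfl⟩

end Pool.Agent.Lib.PolyTM
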