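import Pool.Agent.Lib.PolyTM.Machine

section ArrayPart

/-! # A language of Boolean arrays, first-order conditions and bounded loops -/

namespace Pool.Agent.Lib.PolyTM

set_option linter.unusedSectionVars false

open Function

/-- First-order conditions over arrays `W` and index variables `V`; all variables range over
`0, …, N - 1`. -/
inductive Fml (V W : Type)
  | arr (w : W) (xs : List V)
  | le (x y : V)
  | not (φ : Fml V W)
  | and (φ ψ : Fml V W)
  | ex (x : V) (φ : Fml V W)

/-- Conditions of `ite`: a formula, or a comparison of numbers of solutions. -/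
inductive Cond (V W : Type)
  | fml (φ : Fml V W)
  | more (x : V) (φ ψ : Fml V W)

/-- Statements. -/
inductive Stmt (V W : Type)
  | wr (w : W) (xs : List V) (φ : Fml V W)
  | seq (s t : Stmt V W)
  | ite (c : Cond V W) (s t : Stmt V W)
  | loop (x : V) (s : Stmt V W)
  | emit (φ : Fml V W)
  | skip

/-- Array contents. -/
abbrev Arr (W : Type) := W → List ℕ → Bool

/-- States: array contents and the output produced so far. -/
@[ext]
structure AS (W : Type) where
  a : Arr W
  o : List Bool

variable {V W : Type} [DecidableEq V] [DecidableEq W]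

def Fml.eval (N : ℕ) (a : Arr W) : Fml V W → (V → ℕ) → Bool
  | .arr w xs, e => a w (xs.map e)
  | .le x y, e => decide (e x ≤ e y)
  | .not φ, e => !φ.eval N a e
  | .and φ ψ, e => φ.eval N a e && ψ.eval N a e
  | .ex x φ, e => decide (∃ t < N, φ.eval N a (update e x t) = true)

/-- Number of solutions. -/
def Fml.count (N : ℕ) (a : Arr W) (x : V) (φ : Fml V W) (e : V → ℕ) : ℕ :=
  ((Finset.range N).filter fun t => φ.eval N a (update e x t) = true).card

def Cond.eval (N : ℕ) (a : Arr W) : Cond V W → (V → ℕ) → Bool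
  | .fml φ, e => φ.eval N a e
  | .more x φ ψ, e => decide (ψ.count N a x e < φ.count N a x e)

def Stmt.run (N : ℕ) : Stmt V W → (V → ℕ) → AS W → AS W
  | .wr w xs φ, e, σ =>
      { σ with a := update σ.a w (update (σ.a w) (xs.map e) (φ.eval N σ.a e)) }
  | .seq s t, e, σ => t.run N e (s.run N e σ)
  | .ite c s t, e, σ => if c.eval N σ.a e then s.run N e σ else t.run N e σ
  | .loop x s, e, σ => (List.range N).foldl (fun σ t => s.run N (update e x t) σ) σ
  | .emit φ, e, σ => { σ with o := σ.o ++ [φ.eval N σ.a e] }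
  | .skip, _, σ => σ

/-- Well-formedness: arities, lexical scoping without shadowing. `F` lists the variables in
scope. -/
def Fml.wf (ar : W → ℕ) : List V → Fml V W → Bool
  | F, .arr w xs => decide (xs.length = ar w) && xs.all (fun x => decide (x ∈ F))
  | F, .le x y => decide (x ∈ F) && decide (y ∈ F) && decide (x ≠ y)
  | F, .not φ => φ.wf ar F
  | F, .and φ ψ => φ.wf ar F && ψ.wf ar F
  | F, .ex x φ => decide (x ∉ F) && φ.wf ar (x :: F)

def Cond.wf (ar : W → ℕ) : List V → Cond V W → Bool
  | F, .fml φ => φ.wf ar F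
  | F, .more x φ ψ => decide (x ∉ F) && φ.wf ar (x :: F) && ψ.wf ar (x :: F)

def Stmt.wf (ar : W → ℕ) : List V → Stmt V W → Bool
  | F, .wr w xs φ => decide (xs.length = ar w) && xs.all (fun x => decide (x ∈ F)) && φ.wf ar F
  | F, .seq s t => s.wf ar F && t.wf ar F
  | F, .ite c s t => c.wf ar F && s.wf ar F && t.wf ar F
  | F, .loop x s => decide (x ∉ F) && s.wf ar (x :: F)
  | F, .emit φ => φ.wf ar F
  | _, .skip => true

/-- Bound variables. -/
def Fml.bv : Fml V W → Set V
  | .arr _ _ => ∅
  | .le _ _ => ∅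
  | .not φ => φ.bv
  | .and φ ψ => φ.bv ∪ ψ.bv
  | .ex x φ => insert x φ.bv

def Cond.bv : Cond V W → Set V
  | .fml φ => φ.bv
  | .more x φ ψ => insert x (φ.bv ∪ ψ.bv)

def Stmt.bv : Stmt V W → Set V
  | .wr _ _ φ => φ.bv
  | .seq s t => s.bv ∪ t.bv
  | .ite c s t => c.bv ∪ (s.bv ∪ t.bv)
  | .loop x s => insert x s.bv
  | .emit φ => φ.bv
  | .skip => ∅

theorem Fml.wf_bv {ar : W → ℕ} {F : List V} {φ : Fml V W} (h : φ.wf ar F = true) {x : V}
    (hx : x ∈ F) : x ∉ φ.bv := by
  induction φ generalizing F with
  | arr w xs => simp [Fml.bv]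
  | le x y => simp [Fml.bv]
  | not φ ih => exact ih h hx
  | and φ ψ ih1 ih2 =>
    simp only [Fml.wf, Bool.and_eq_true] at h
    simp only [Fml.bv, Set.mem_union, not_or]
    exact ⟨ih1 h.1 hx, ih2 h.2 hx⟩
  | ex y φ ih =>
    simp only [Fml.wf, Bool.and_eq_true, decide_eq_true_eq] at h
    simp only [Fml.bv, Set.mem_insert_iff, not_or]
    exact ⟨fun hxy => h.1 (hxy ▸ hx), ih h.2 (List.mem_cons_of_mem _ hx)⟩

theorem Cond.wf_bv {ar : W → ℕ} {F : List V} {c : Cond V W} (h : c.wf ar F = true) {x : V}
    (hx : x ∈ F) : x ∉ c.bv := by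
  cases c with
  | fml φ => exact Fml.wf_bv h hx
  | more y φ ψ =>
    simp only [Cond.wf, Bool.and_eq_true, decide_eq_true_eq] at h
    simp only [Cond.bv, Set.mem_insert_iff, Set.mem_union, not_or]
    exact ⟨fun hxy => h.1.1 (hxy ▸ hx), Fml.wf_bv h.1.2 (List.mem_cons_of_mem _ hx),
      Fml.wf_bv h.2 (List.mem_cons_of_mem _ hx)⟩

theorem Stmt.wf_bv {ar : W → ℕ} {F : List V} {s : Stmt V W} (h : s.wf ar F = true) {x : V}
    (hx : x ∈ F) : x ∉ s.bv := by
  induction s generalizing F with
  | wr w xs φ =>
    simp only [Stmt.wf, Bool.and_eq_true] at h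
    exact Fml.wf_bv h.2 hx
  | seq s t ih1 ih2 =>
    simp only [Stmt.wf, Bool.and_eq_true] at h
    simp only [Stmt.bv, Set.mem_union, not_or]
    exact ⟨ih1 h.1 hx, ih2 h.2 hx⟩
  | ite c s t ih1 ih2 =>
    simp only [Stmt.wf, Bool.and_eq_true] at h
    simp only [Stmt.bv, Set.mem_union, not_or]
    exact ⟨Cond.wf_bv h.1.1 hx, ih1 h.1.2 hx, ih2 h.2 hx⟩
  | loop y s ih =>
    simp only [Stmt.wf, Bool.and_eq_true, decide_eq_true_eq] at h
    simp only [Stmt.bv, Set.mem_insert_iff, not_or]
    exact ⟨fun hxy => h.1 (hxy ▸ hx), ih h.2 (List.mem_cons_of_mem _ hx)⟩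
  | emit φ => exact Fml.wf_bv h hx
  | skip => simp [Stmt.bv]

/-- Address of an index tuple. -/
def enc (N : ℕ) : List ℕ → ℕ
  | [] => 0
  | y :: ys => y * N ^ ys.length + enc N ys

theorem enc_lt {N : ℕ} : ∀ {ys : List ℕ}, (∀ y ∈ ys, y < N) → enc N ys < N ^ ys.length
  | [], _ => by simp [enc]
  | y :: ys, h => by
    have h1 := enc_lt (N := N) (ys := ys) (fun z hz => h z (List.mem_cons_of_mem _ hz))
    have h2 : y < N := h y List.mem_cons_self
    simp only [enc, List.length_cons, pow_succ]
    have h3 : (y + 1) * N ^ ys.length ≤ N * N ^ ys.length := Nat.mul_le_mul_right _ h2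
    nlinarith

theorem enc_inj {N : ℕ} : ∀ {ys zs : List ℕ}, ys.length = zs.length → (∀ y ∈ ys, y < N) →
    (∀ z ∈ zs, z < N) → enc N ys = enc N zs → ys = zs
  | [], [], _, _, _, _ => rfl
  | [], _ :: _, h, _, _, _ => by simp at h
  | _ :: _, [], h, _, _, _ => by simp at h
  | y :: ys, z :: zs, hl, hy, hz, he => by
    have hl' : ys.length = zs.length := by simpa using hl
    have h1 := enc_lt (N := N) (ys := ys) (fun a ha => hy a (List.mem_cons_of_mem _ ha))
    have h2 := enc_lt (N := N) (ys := zs) (fun a ha => hz a (List.mem_cons_of_mem _ ha))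
    simp only [enc] at he
    rw [← hl'] at he h2
    have hyz : y = z := by
      rcases lt_trichotomy y z with h | h | h
      · exfalso
        have : (y + 1) * N ^ ys.length ≤ z * N ^ ys.length := Nat.mul_le_mul_right _ h
        nlinarith
      · exact h
      · exfalso
        have : (z + 1) * N ^ ys.length ≤ y * N ^ ys.length := Nat.mul_le_mul_right _ h
        nlinarith
    subst hyz
    have he' : enc N ys = enc N zs := by omega
    rw [enc_inj hl' (fun a ha => hy a (List.mem_cons_of_mem _ ha))
      (fun a ha => hz a (List.mem_cons_of_mem _ ha)) he']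

/-- Cell of a tape. -/
def cell (l : List Bool) (i : ℕ) : Bool := l.getD i false

/-! ### Physical names -/

/-- Physical counters. -/
inductive VX (V : Type) (D : ℕ)
  | u (x : V)
  | z (i : Fin D)
  | y
  | c1
  | c2
  deriving DecidableEq, Fintype

/-- Physical flags. -/
inductive BX
  | r
  | g
  deriving DecidableEq, Fintype

/-- Physical stacks: two for each array, the evaluation stack and the output. -/
inductive KX (W : Type)
  | tl (w : W)
  | tr (w : W)
  | ev
  | out
  deriving DecidableEq, Fintype

variable {D : ℕ}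

abbrev PC (V W : Type) (D : ℕ) := Cmd (VX V D) BX (KX W)
abbrev PS (V W : Type) (D : ℕ) := St (VX V D) BX (KX W)

/-- Block counters. -/
def zc (i : ℕ) : VX V D := if h : i < D then .z ⟨i, h⟩ else .y

/-- Move one cell to the right. -/
def mvr (w : W) : PC V W D :=
  .seq (.op (.pop (.tr w) .g)) (.op (.push (.tl w) (fun b => b .g)))

/-- Move `N ^ k` cells to the right. -/
def block (w : W) : ℕ → PC V W D
  | 0 => mvr w
  | k + 1 => .loop (zc k) (block w k)

def nop : PC V W D := .op (.set .g (fun b => b .g))

/-- Move to the cell with the given index. -/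
def seek (w : W) : List V → PC V W D
  | [] => nop
  | x :: xs => .seq (.loop .y (.seq (.op (.le (.u x) .y .g))
      (.ite (fun b => b .g) nop (block w xs.length)))) (seek w xs)

/-- Effect of one move on the stacks. -/
def shiftSt (w : W) (st : KX W → List Bool) : KX W → List Bool :=
  update (update st (.tr w) (st (.tr w)).tail) (.tl w) ((st (.tr w)).headD false :: st (.tl w))

theorem mvr_st {N : ℕ} (w : W) (s : PS V W D) : ((mvr w).exec N s).st = shiftSt w s.st := by
  simp only [mvr, Cmd.exec, Op.exec, shiftSt, update_self, ne_eq, reduceCtorEq,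
    not_false_eq_true, update_of_ne]

theorem mvr_r {N : ℕ} (w : W) (s : PS V W D) : ((mvr w).exec N s).b .r = s.b .r := by
  simp [mvr, Cmd.exec, Op.exec]

theorem mvr_wv (w : W) : (mvr w : PC V W D).wv = ∅ := by
  simp [mvr, Cmd.wv, Op.wv]

theorem zc_inj {i j : ℕ} (hi : i < D) (hj : j < D) (h : (zc i : VX V D) = zc j) : i = j := by
  simp only [zc, hi, hj, dif_pos, VX.z.injEq, Fin.mk.injEq] at h
  exact h

theorem block_wv (w : W) (k : ℕ) (v : VX V D) (hv : v ∈ (block w k : PC V W D).wv) :
    ∃ i < k, v = zc i := by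
  induction k with
  | zero => rw [block, mvr_wv] at hv; exact absurd hv (Set.notMem_empty _)
  | succ k ih =>
    simp only [block, Cmd.wv, Set.mem_insert_iff] at hv
    rcases hv with h | h
    · exact ⟨k, by omega, h⟩
    · obtain ⟨i, hi, h⟩ := ih h
      exact ⟨i, by omega, h⟩

theorem block_ctr (w : W) (k : ℕ) (hk : k < D) : (zc k : VX V D) ∉ (block w k : PC V W D).wv := by
  intro h
  obtain ⟨i, hi, h⟩ := block_wv w k _ h
  have := zc_inj hk (by omega) h
  omega

theorem block_WF (w : W) (k : ℕ) (hk : k ≤ D) : (block w k : PC V W D).WF := by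
  induction k with
  | zero => exact ⟨trivial, trivial⟩
  | succ k ih => exact ⟨block_ctr w k (by omega), ih (by omega)⟩

theorem block_spec {N : ℕ} (w : W) (k : ℕ) (hk : k ≤ D) (s : PS V W D) (hs : s.ok N) :
    ((block w k).exec N s).st = (shiftSt w)^[N ^ k] s.st ∧
      ((block w k).exec N s).b .r = s.b .r := by
  induction k generalizing s with
  | zero => simp [block, mvr_st, mvr_r]
  | succ k ih =>
    have key := loop_inv (N := N) (block_ctr w k (by omega))
      (fun t s' => s'.st = (shiftSt w)^[t * N ^ k] s.st ∧ s'.b .r = s.b .r) s hs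
      (by simp [Op.exec])
      (by
        intro t ht s' hok hv hfr hI
        obtain ⟨h1, h2⟩ := ih (by omega) s' hok
        refine ⟨?_, ?_⟩
        · simp only [Op.exec]
          rw [h1, hI.1, ← Function.iterate_add_apply]
          congr 1
          ring_nf
        · simp only [Op.exec]
          rw [h2, hI.2])
    simp only [block]
    rw [pow_succ, mul_comm (N ^ k) N]
    exact key

theorem seek_wv (w : W) (xs : List V) (v : VX V D) (hv : v ∈ (seek w xs : PC V W D).wv) :
    v = .y ∨ ∃ i, v = zc i := by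
  induction xs with
  | nil => simp [seek, nop, Cmd.wv, Op.wv] at hv
  | cons x xs ih =>
    simp only [seek, nop, Cmd.wv, Op.wv, Set.mem_union, Set.mem_insert_iff, Set.empty_union] at hv
    rcases hv with (h | h) | h
    · exact .inl h
    · obtain ⟨i, _, h⟩ := block_wv w _ _ h
      exact .inr ⟨i, h⟩
    · exact ih h

theorem u_notMem_seek (w : W) (xs : List V) (x : V) :
    (VX.u x : VX V D) ∉ (seek w xs : PC V W D).wv := by
  intro h
  rcases seek_wv w xs _ h with h | ⟨i, h⟩
  · cases h
  · simp only [zc] at h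
    split at h <;> cases h

theorem y_notMem_block (w : W) (k : ℕ) (hk : k ≤ D) :
    (VX.y : VX V D) ∉ (block w k : PC V W D).wv := by
  intro h
  obtain ⟨i, hi, h⟩ := block_wv w k _ h
  simp only [zc, dif_pos (show i < D by omega)] at h
  cases h

theorem u_notMem_block (w : W) (k : ℕ) (x : V) :
    (VX.u x : VX V D) ∉ (block w k : PC V W D).wv := by
  intro h
  obtain ⟨i, hi, h⟩ := block_wv w k _ h
  simp only [zc] at h
  split at h <;> cases h

theorem seek_WF (w : W) (xs : List V) (hl : xs.length ≤ D) : (seek w xs : PC V W D).WF := by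
  induction xs with
  | nil => exact trivial
  | cons x xs ih =>
    simp only [List.length_cons] at hl
    refine ⟨⟨?_, ⟨?_, trivial, block_WF w _ (by omega)⟩⟩, ih (by omega)⟩
    · simp only [Cmd.wv, nop, Op.wv, Set.empty_union]
      exact y_notMem_block w _ (by omega)
    · change (VX.u x : VX V D) ≠ VX.y
      simp

theorem seek_spec {N : ℕ} (w : W) (xs : List V) (hl : xs.length ≤ D) (s : PS V W D)
    (hs : s.ok N) :
    ((seek w xs).exec N s).st =
      (shiftSt w)^[enc N (xs.map fun x => s.v (.u x))] s.st ∧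
      ((seek w xs).exec N s).b .r = s.b .r := by
  induction xs generalizing s with
  | nil => simp [seek, nop, Cmd.exec, Op.exec, enc]
  | cons x xs ih =>
    simp only [List.length_cons] at hl
    set body : PC V W D := .seq (.op (.le (.u x) .y .g))
      (.ite (fun b => b .g) nop (block w xs.length)) with hbody
    have hwv : body.wv = (block w xs.length : PC V W D).wv := by
      simp [hbody, Cmd.wv, nop, Op.wv]
    have hy : (VX.y : VX V D) ∉ body.wv := by
      rw [hwv]; exact y_notMem_block w _ (by omega)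
    have hux : ∀ x' : V, (VX.u x' : VX V D) ∉ body.wv := by
      intro x'; rw [hwv]; exact u_notMem_block w _ x'
    have key := loop_inv (N := N) hy
      (fun t s' => s'.st = (shiftSt w)^[min t (s.v (.u x)) * N ^ xs.length] s.st ∧
        s'.b .r = s.b .r) s hs (by simp [Op.exec])
      (by
        intro t ht s' hok hv hfr hI
        have hx : s'.v (.u x) = s.v (.u x) := hfr _ (hux x) (by simp)
        simp only [hbody, Cmd.exec, Op.exec, update_self, hx, hv]
        by_cases hle : s.v (.u x) ≤ t
        · simp only [hle, decide_true, if_true, nop, Cmd.exec, Op.exec]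
          refine ⟨?_, ?_⟩
          · rw [hI.1]
            congr 2
            omega
          · simp [hI.2]
        · simp only [hle, decide_false, Bool.false_eq_true, if_false]
          have hb := block_spec (N := N) (D := D) w xs.length (by omega)
            { s' with b := update s'.b .g false } hok
          refine ⟨?_, ?_⟩
          · rw [hb.1]
            change (shiftSt w)^[N ^ xs.length] s'.st = _
            rw [hI.1, ← Function.iterate_add_apply]
            congr 2
            have e1 : min (t + 1) (s.v (.u x)) = min t (s.v (.u x)) + 1 := by omega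
            rw [e1]
            ring
          · rw [hb.2]
            simp [hI.2])
    set s1 : PS V W D := (Cmd.loop .y body).exec N s with hs1
    have hok1 : s1.ok N := Cmd.exec_ok _ _ hs
    have hfr1 : ∀ x' : V, s1.v (.u x') = s.v (.u x') := by
      intro x'
      rw [hs1]
      apply Cmd.exec_v
      simp only [Cmd.wv, Set.mem_insert_iff, reduceCtorEq, false_or]
      exact hux x'
    obtain ⟨h1, h2⟩ := ih (by omega) s1 hok1
    have hmin : min N (s.v (.u x)) = s.v (.u x) := Nat.min_eq_right (hs _)
    rw [hmin] at key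
    have hex : (seek w (x :: xs)).exec N s = (seek w xs).exec N s1 := rfl
    rw [hex, h1, h2]
    refine ⟨?_, key.2⟩
    have e1 : (xs.map fun x => s1.v (.u x)) = xs.map fun x => s.v (.u x) := by
      apply List.map_congr_left
      intro a _
      exact hfr1 a
    rw [e1, key.1, ← Function.iterate_add_apply]
    congr 1
    simp only [List.map_cons, enc, List.length_map]
    ring_nf

/-- Stack contents after `m` moves. -/
theorem shift_iter (w : W) (m : ℕ) (st : KX W → List Bool) :
    (shiftSt w)^[m] st = update (update st (.tr w) ((st (.tr w)).drop m)) (.tl w)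
      (((List.range m).map (cell (st (.tr w)))).reverse ++ st (.tl w)) := by
  induction m with
  | zero => simp
  | succ m ih =>
    rw [Function.iterate_succ_apply', ih]
    unfold shiftSt
    funext k
    by_cases hk : k = .tl w
    · subst hk
      simp only [update_self, ne_eq, reduceCtorEq, not_false_eq_true, update_of_ne,
        List.range_succ, List.map_append, List.map_cons, List.map_nil, List.reverse_append,
        List.reverse_cons, List.reverse_nil, List.nil_append, List.cons_append]
      congr 1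
      unfold cell
      rw [List.getD_eq_getElem?_getD, List.headD_eq_head?_getD, List.head?_drop]
    · rw [update_of_ne hk, update_of_ne hk]
      by_cases hk2 : k = .tr w
      · subst hk2
        simp
      · simp [hk2, hk]

/-- Representation of arrays by stacks. -/
structure Rep (N : ℕ) (ar : W → ℕ) (a : Arr W) (st : KX W → List Bool) : Prop where
  left : ∀ w, st (.tl w) = []
  cells : ∀ w ys, ys.length = ar w → (∀ y ∈ ys, y < N) → cell (st (.tr w)) (enc N ys) = a w ys

theorem cell_mid (l : List Bool) (m : ℕ) (b : Bool) (i : ℕ) :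
    cell ((List.range m).map (cell l) ++ b :: l.drop (m + 1)) i =
      if i = m then b else cell l i := by
  unfold cell
  rcases lt_trichotomy i m with h | h | h
  · rw [List.getD_append _ _ _ _ (by simpa using h)]
    rw [if_neg (by omega)]
    rw [List.getD_eq_getElem _ _ (by simpa using h)]
    simp
  · subst h
    rw [List.getD_append_right _ _ _ _ (by simp)]
    simp
  · rw [List.getD_append_right _ _ _ _ (by simp; omega)]
    rw [if_neg (by omega)]
    simp only [List.length_map, List.length_range]
    obtain ⟨j, rfl⟩ : ∃ j, i = m + 1 + j := ⟨i - (m + 1), by omega⟩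
    have : m + 1 + j - m = j + 1 := by omega
    rw [this, List.getD_cons_succ]
    simp only [List.getD_eq_getElem?_getD, List.getElem?_drop]

/-- Read the array cell with the given index into the flag `r`. -/
def rd (w : W) (xs : List V) : PC V W D :=
  .seq (seek w xs) (.seq (.op (.pop (.tr w) .r)) (.seq (.op (.push (.tr w) (fun b => b .r)))
    (.op (.move (.tl w) (.tr w)))))

/-- Write the flag `r` to the array cell with the given index. -/
def wt (w : W) (xs : List V) : PC V W D :=
  .seq (seek w xs) (.seq (.op (.pop (.tr w) .g)) (.seq (.op (.push (.tr w) (fun b => b .r)))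
    (.op (.move (.tl w) (.tr w)))))

theorem rd_spec {N : ℕ} {ar : W → ℕ} (har : ∀ w, ar w ≤ D) {a : Arr W} (w : W) (xs : List V)
    (hl : xs.length = ar w) (s : PS V W D) (hs : s.ok N) (hx : ∀ x ∈ xs, s.v (.u x) < N)
    (hrep : Rep N ar a s.st) :
    ((rd w xs).exec N s).b .r = a w (xs.map fun x => s.v (.u x)) ∧
      Rep N ar a ((rd w xs).exec N s).st ∧
      ((rd w xs).exec N s).st .ev = s.st .ev ∧ ((rd w xs).exec N s).st .out = s.st .out := by
  obtain ⟨h1, h2⟩ := seek_spec (N := N) (D := D) w xs (hl ▸ har w) s hs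
  set s1 : PS V W D := (seek w xs).exec N s with hs1
  set m := enc N (xs.map fun x => s.v (.u x)) with hm
  rw [shift_iter] at h1
  have htl : s1.st (.tl w) = ((List.range m).map (cell (s.st (.tr w)))).reverse := by
    rw [h1]; simp [hrep.left w]
  have htr : s1.st (.tr w) = (s.st (.tr w)).drop m := by
    rw [h1]; simp
  have hcell : cell (s.st (.tr w)) m = a w (xs.map fun x => s.v (.u x)) :=
    hrep.cells w _ (by simpa using hl) (by simpa using hx)
  have hhead : (s1.st (.tr w)).headD false = cell (s.st (.tr w)) m := by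
    rw [htr, List.headD_eq_head?_getD, List.head?_drop]
    unfold cell
    rw [List.getD_eq_getElem?_getD]
  have hst : ((rd w xs).exec N s).st = update (update s.st (.tl w) []) (.tr w)
      ((List.range m).map (cell (s.st (.tr w))) ++
        cell (s.st (.tr w)) m :: (s.st (.tr w)).drop (m + 1)) := by
    simp only [rd, Cmd.exec, Op.exec, ← hs1, update_self, ne_eq, reduceCtorEq,
      not_false_eq_true, update_of_ne, hhead]
    funext k
    by_cases hk : k = .tl w
    · subst hk; simp
    · by_cases hk2 : k = .tr w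
      · subst hk2
        simp [htl, htr]
      · simp only [ne_eq, hk, not_false_eq_true, update_of_ne, hk2]
        rw [h1]
        simp [hk, hk2]
  refine ⟨?_, ⟨?_, ?_⟩, ?_, ?_⟩
  · simp only [rd, Cmd.exec, Op.exec, ← hs1, update_self, hhead, hcell]
  · intro w'
    rw [hst]
    by_cases hw : w' = w
    · subst hw; simp
    · simp [hw, hrep.left w']
  · intro w' ys hl' hy'
    rw [hst]
    by_cases hw : w' = w
    · subst hw
      rw [update_self, cell_mid]
      split
      · next h => rw [← h]; exact hrep.cells w' ys hl' hy'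
      · exact hrep.cells w' ys hl' hy'
    · rw [update_of_ne (by simpa using hw), update_of_ne (by simp)]
      exact hrep.cells w' ys hl' hy'
  · rw [hst]; simp
  · rw [hst]; simp

theorem wt_spec {N : ℕ} {ar : W → ℕ} (har : ∀ w, ar w ≤ D) {a : Arr W} (w : W) (xs : List V)
    (hl : xs.length = ar w) (s : PS V W D) (hs : s.ok N) (hx : ∀ x ∈ xs, s.v (.u x) < N)
    (hrep : Rep N ar a s.st) :
    Rep N ar (update a w (update (a w) (xs.map fun x => s.v (.u x)) (s.b .r)))
      ((wt w xs).exec N s).st ∧
      ((wt w xs).exec N s).st .ev = s.st .ev ∧ ((wt w xs).exec N s).st .out = s.st .out := by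
  obtain ⟨h1, h2⟩ := seek_spec (N := N) (D := D) w xs (hl ▸ har w) s hs
  set s1 : PS V W D := (seek w xs).exec N s with hs1
  set m := enc N (xs.map fun x => s.v (.u x)) with hm
  rw [shift_iter] at h1
  have htl : s1.st (.tl w) = ((List.range m).map (cell (s.st (.tr w)))).reverse := by
    rw [h1]; simp [hrep.left w]
  have htr : s1.st (.tr w) = (s.st (.tr w)).drop m := by
    rw [h1]; simp
  have hst : ((wt w xs).exec N s).st = update (update s.st (.tl w) []) (.tr w)
      ((List.range m).map (cell (s.st (.tr w))) ++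
        s.b .r :: (s.st (.tr w)).drop (m + 1)) := by
    simp only [wt, Cmd.exec, Op.exec, ← hs1, update_self, ne_eq, reduceCtorEq,
      not_false_eq_true, update_of_ne, h2]
    funext k
    by_cases hk : k = .tl w
    · subst hk; simp
    · by_cases hk2 : k = .tr w
      · subst hk2
        simp [htl, htr]
      · simp only [ne_eq, hk, not_false_eq_true, update_of_ne, hk2]
        rw [h1]
        simp [hk, hk2]
  refine ⟨⟨?_, ?_⟩, ?_, ?_⟩
  · intro w'
    rw [hst]
    by_cases hw : w' = w
    · subst hw; simp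
    · simp [hw, hrep.left w']
  · intro w' ys hl' hy'
    rw [hst]
    by_cases hw : w' = w
    · subst hw
      rw [update_self, cell_mid, update_self]
      by_cases hys : ys = xs.map fun x => s.v (.u x)
      · subst hys
        rw [if_pos rfl, update_self]
      · rw [update_of_ne hys, if_neg]
        · exact hrep.cells w' ys hl' hy'
        · intro hcon
          apply hys
          exact enc_inj (by rw [hl']; simpa using hl.symm) hy' (by simpa using hx) hcon
    · rw [update_of_ne (by simpa using hw), update_of_ne (by simp), update_of_ne hw]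
      exact hrep.cells w' ys hl' hy'
  · rw [hst]; simp
  · rw [hst]; simp

end Pool.Agent.Lib.PolyTM

end ArrayPart

section ArrayCompilePart

/-! # Programs of the array language run in polynomial time on Turing machines -/

namespace Pool.Agent.Lib.PolyTM

set_option linter.unusedSectionVars false

open Function Turing

variable {V W : Type} [DecidableEq V] [DecidableEq W] {D : ℕ}

/-- Code of a formula: the value is put into the flag `r`. -/
def compF : Fml V W → PC V W D
  | .arr w xs => rd w xs
  | .le x y => .op (.le (.u x) (.u y) .r)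
  | .not φ => .seq (compF φ) (.op (.set .r fun b => !b .r))
  | .and φ ψ => .seq (compF φ) (.seq (.op (.push .ev fun b => b .r)) (.seq (compF ψ)
      (.seq (.op (.pop .ev .g)) (.op (.set .r fun b => b .g && b .r)))))
  | .ex x φ => .seq (.op (.push .ev fun _ => false)) (.seq (.loop (.u x) (.seq (compF φ)
      (.seq (.op (.pop .ev .g)) (.op (.push .ev fun b => b .g || b .r))))) (.op (.pop .ev .r)))

/-- Count the solutions of a formula with the counter `c`. -/
def compCount (c : VX V D) (x : V) (φ : Fml V W) : PC V W D :=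
  .seq (.op (.zero c)) (.loop (.u x) (.seq (compF φ) (.ite (fun b => b .r) (.op (.inc c)) nop)))

/-- Code of a condition. -/
def compC : Cond V W → PC V W D
  | .fml φ => compF φ
  | .more x φ ψ => .seq (compCount .c1 x φ) (.seq (compCount .c2 x ψ)
      (.seq (.op (.le .c1 .c2 .g)) (.op (.set .r fun b => !b .g))))

/-- Code of a statement. -/
def compS : Stmt V W → PC V W D
  | .wr w xs φ => .seq (compF φ) (wt w xs)
  | .seq s t => .seq (compS s) (compS t)
  | .ite c s t => .seq (compC c) (.ite (fun b => b .r) (compS s) (compS t))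
  | .loop x s => .loop (.u x) (compS s)
  | .emit φ => .seq (compF φ) (.op (.push .out fun b => b .r))
  | .skip => nop

theorem rd_u (w : W) (xs : List V) (x : V) : (VX.u x : VX V D) ∉ (rd w xs : PC V W D).wv := by
  simp only [rd, Cmd.wv, Op.wv, Set.union_empty]
  exact u_notMem_seek w xs x

theorem wt_u (w : W) (xs : List V) (x : V) : (VX.u x : VX V D) ∉ (wt w xs : PC V W D).wv := by
  simp only [wt, Cmd.wv, Op.wv, Set.union_empty]
  exact u_notMem_seek w xs x

theorem c_notMem_seek (w : W) (xs : List V) (c : VX V D) (hc : c = .c1 ∨ c = .c2) :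
    c ∉ (seek w xs : PC V W D).wv := by
  intro h
  rcases seek_wv w xs _ h with h | ⟨i, h⟩
  · rcases hc with hc | hc <;> rw [hc] at h <;> cases h
  · simp only [zc] at h
    split at h <;> rcases hc with hc | hc <;> rw [hc] at h <;> cases h

theorem compF_u (φ : Fml V W) (x : V) (h : x ∉ φ.bv) :
    (VX.u x : VX V D) ∉ (compF φ : PC V W D).wv := by
  induction φ with
  | arr w xs => exact rd_u w xs x
  | le x y => simp [compF, Cmd.wv, Op.wv]
  | not φ ih =>
    simp only [compF, Cmd.wv, Op.wv, Set.union_empty]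
    exact ih h
  | and φ ψ ih1 ih2 =>
    simp only [Fml.bv, Set.mem_union, not_or] at h
    simp only [compF, Cmd.wv, Op.wv, Set.union_empty, Set.empty_union, Set.mem_union, not_or]
    exact ⟨ih1 h.1, ih2 h.2⟩
  | ex y φ ih =>
    simp only [Fml.bv, Set.mem_insert_iff, not_or] at h
    simp only [compF, Cmd.wv, Op.wv, Set.union_empty, Set.empty_union, Set.mem_insert_iff,
      VX.u.injEq, not_or]
    exact ⟨h.1, ih h.2⟩

theorem compF_c (φ : Fml V W) (c : VX V D) (hc : c = .c1 ∨ c = .c2) :
    c ∉ (compF φ : PC V W D).wv := by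
  induction φ with
  | arr w xs =>
    simp only [compF, rd, Cmd.wv, Op.wv, Set.union_empty]
    exact c_notMem_seek w xs c hc
  | le x y => simp [compF, Cmd.wv, Op.wv]
  | not φ ih =>
    simp only [compF, Cmd.wv, Op.wv, Set.union_empty]
    exact ih
  | and φ ψ ih1 ih2 =>
    simp only [compF, Cmd.wv, Op.wv, Set.union_empty, Set.empty_union, Set.mem_union, not_or]
    exact ⟨ih1, ih2⟩
  | ex y φ ih =>
    simp only [compF, Cmd.wv, Op.wv, Set.union_empty, Set.empty_union, Set.mem_insert_iff,
      not_or]
    refine ⟨?_, ih⟩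
    rcases hc with hc | hc <;> rw [hc] <;> simp

theorem compCount_u (c : VX V D) (hc : c = .c1 ∨ c = .c2) (y : V) (φ : Fml V W) (x : V)
    (h : x ∉ φ.bv) (hxy : x ≠ y) : (VX.u x : VX V D) ∉ (compCount c y φ : PC V W D).wv := by
  simp only [compCount, Cmd.wv, Op.wv, nop, Set.union_empty, Set.mem_union, Set.mem_insert_iff,
    Set.mem_singleton_iff, VX.u.injEq, not_or]
  refine ⟨?_, hxy, compF_u φ x h, ?_⟩ <;> rcases hc with hc | hc <;> rw [hc] <;> simp

theorem compC_u (c : Cond V W) (x : V) (h : x ∉ c.bv) :
    (VX.u x : VX V D) ∉ (compC c : PC V W D).wv := by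
  cases c with
  | fml φ => exact compF_u φ x h
  | more y φ ψ =>
    simp only [Cond.bv, Set.mem_insert_iff, Set.mem_union, not_or] at h
    simp only [compC, Cmd.wv, Op.wv, Set.union_empty, Set.mem_union, not_or]
    exact ⟨compCount_u _ (.inl rfl) y φ x h.2.1 h.1, compCount_u _ (.inr rfl) y ψ x h.2.2 h.1⟩

theorem compS_u (s : Stmt V W) (x : V) (h : x ∉ s.bv) :
    (VX.u x : VX V D) ∉ (compS s : PC V W D).wv := by
  induction s with
  | wr w xs φ =>
    simp only [compS, Cmd.wv, Set.mem_union, not_or]
    exact ⟨compF_u φ x h, wt_u w xs x⟩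
  | seq s t ih1 ih2 =>
    simp only [Stmt.bv, Set.mem_union, not_or] at h
    simp only [compS, Cmd.wv, Set.mem_union, not_or]
    exact ⟨ih1 h.1, ih2 h.2⟩
  | ite c s t ih1 ih2 =>
    simp only [Stmt.bv, Set.mem_union, not_or] at h
    simp only [compS, Cmd.wv, Set.mem_union, not_or]
    exact ⟨compC_u c x h.1, ih1 h.2.1, ih2 h.2.2⟩
  | loop y s ih =>
    simp only [Stmt.bv, Set.mem_insert_iff, not_or] at h
    simp only [compS, Cmd.wv, Set.mem_insert_iff, VX.u.injEq, not_or]
    exact ⟨h.1, ih h.2⟩
  | emit φ =>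
    simp only [compS, Cmd.wv, Op.wv, Set.union_empty]
    exact compF_u φ x h
  | skip => simp [compS, nop, Cmd.wv, Op.wv]

theorem compF_WF {ar : W → ℕ} (har : ∀ w, ar w ≤ D) {F : List V} (φ : Fml V W)
    (h : φ.wf ar F = true) : (compF φ : PC V W D).WF := by
  induction φ generalizing F with
  | arr w xs =>
    simp only [Fml.wf, Bool.and_eq_true, decide_eq_true_eq] at h
    refine ⟨seek_WF w xs (h.1 ▸ har w), trivial, trivial, ?_⟩
    change (KX.tl w) ≠ KX.tr w
    simp
  | le x y =>
    simp only [Fml.wf, Bool.and_eq_true, decide_eq_true_eq] at h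
    change (VX.u x : VX V D) ≠ VX.u y
    simpa using h.2
  | not φ ih => exact ⟨ih h, trivial⟩
  | and φ ψ ih1 ih2 =>
    simp only [Fml.wf, Bool.and_eq_true] at h
    exact ⟨ih1 h.1, trivial, ih2 h.2, trivial, trivial⟩
  | ex x φ ih =>
    simp only [Fml.wf, Bool.and_eq_true, decide_eq_true_eq] at h
    refine ⟨trivial, ⟨?_, ih h.2, trivial, trivial⟩, trivial⟩
    simp only [Cmd.wv, Op.wv, Set.union_empty]
    exact compF_u φ x (Fml.wf_bv h.2 List.mem_cons_self)

theorem compCount_WF {ar : W → ℕ} (har : ∀ w, ar w ≤ D) {F : List V} (c : VX V D)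
    (hc : c = .c1 ∨ c = .c2) (x : V) (φ : Fml V W)
    (h : φ.wf ar (x :: F) = true) : (compCount c x φ : PC V W D).WF := by
  refine ⟨trivial, ?_, compF_WF har φ h, trivial, trivial⟩
  simp only [Cmd.wv, Op.wv, nop, Set.union_empty, Set.mem_union, Set.mem_singleton_iff, not_or]
  refine ⟨compF_u φ x (Fml.wf_bv h List.mem_cons_self), ?_⟩
  rcases hc with hc | hc <;> rw [hc] <;> simp

theorem compC_WF {ar : W → ℕ} (har : ∀ w, ar w ≤ D) {F : List V} (c : Cond V W)
    (h : c.wf ar F = true) : (compC c : PC V W D).WF := by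
  cases c with
  | fml φ => exact compF_WF har φ h
  | more x φ ψ =>
    simp only [Cond.wf, Bool.and_eq_true, decide_eq_true_eq] at h
    refine ⟨compCount_WF har _ (.inl rfl) x φ h.1.2, compCount_WF har _ (.inr rfl) x ψ h.2,
      ?_, trivial⟩
    change (VX.c1 : VX V D) ≠ VX.c2
    simp

theorem compS_WF {ar : W → ℕ} (har : ∀ w, ar w ≤ D) {F : List V} (s : Stmt V W)
    (h : s.wf ar F = true) : (compS s : PC V W D).WF := by
  induction s generalizing F with
  | wr w xs φ =>
    simp only [Stmt.wf, Bool.and_eq_true, decide_eq_true_eq] at h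
    refine ⟨compF_WF har φ h.2, seek_WF w xs (h.1.1 ▸ har w), trivial, trivial, ?_⟩
    change (KX.tl w) ≠ KX.tr w
    simp
  | seq s t ih1 ih2 =>
    simp only [Stmt.wf, Bool.and_eq_true] at h
    exact ⟨ih1 h.1, ih2 h.2⟩
  | ite c s t ih1 ih2 =>
    simp only [Stmt.wf, Bool.and_eq_true] at h
    exact ⟨compC_WF har c h.1.1, ih1 h.1.2, ih2 h.2⟩
  | loop x s ih =>
    simp only [Stmt.wf, Bool.and_eq_true, decide_eq_true_eq] at h
    exact ⟨compS_u s x (Stmt.wf_bv h.2 List.mem_cons_self), ih h.2⟩
  | emit φ => exact ⟨compF_WF har φ h, trivial⟩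
  | skip => exact trivial

theorem compF_spec {N : ℕ} {ar : W → ℕ} (har : ∀ w, ar w ≤ D) {a : Arr W} (φ : Fml V W) :
    ∀ (F : List V) (_ : φ.wf ar F = true) (e : V → ℕ) (s : PS V W D) (_ : s.ok N)
      (_ : ∀ x ∈ F, s.v (.u x) = e x ∧ e x < N) (_ : Rep N ar a s.st),
    ((compF φ).exec N s).b .r = φ.eval N a e ∧ Rep N ar a ((compF φ).exec N s).st ∧
      ((compF φ).exec N s).st .ev = s.st .ev ∧ ((compF φ).exec N s).st .out = s.st .out := by
  induction φ with
  | arr w xs =>
    intro F hwf e s hs hag hrep
    simp only [Fml.wf, Bool.and_eq_true, decide_eq_true_eq, List.all_eq_true] at hwf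
    have h := rd_spec (N := N) (D := D) har w xs hwf.1 s hs (fun x hx => by
      rw [(hag x (hwf.2 x hx)).1]; exact (hag x (hwf.2 x hx)).2) hrep
    have e1 : (xs.map fun x => s.v (.u x)) = xs.map e :=
      List.map_congr_left fun x hx => (hag x (hwf.2 x hx)).1
    rw [e1] at h
    exact h
  | le x y =>
    intro F hwf e s hs hag hrep
    simp only [Fml.wf, Bool.and_eq_true, decide_eq_true_eq] at hwf
    refine ⟨?_, hrep, rfl, rfl⟩
    simp only [compF, Cmd.exec, Op.exec, update_self, Fml.eval, (hag x hwf.1.1).1,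
      (hag y hwf.1.2).1]
  | not φ ih =>
    intro F hwf e s hs hag hrep
    obtain ⟨h1, h2, h3, h4⟩ := ih F hwf e s hs hag hrep
    refine ⟨?_, h2, h3, h4⟩
    simp only [compF, Cmd.exec, Op.exec, update_self, Fml.eval, h1]
  | and φ ψ ih1 ih2 =>
    intro F hwf e s hs hag hrep
    simp only [Fml.wf, Bool.and_eq_true] at hwf
    obtain ⟨h1, h2, h3, h4⟩ := ih1 F hwf.1 e s hs hag hrep
    set s1 := (compF φ).exec N s with hs1
    set s2 : PS V W D := (Op.push KX.ev fun b => b .r).exec N s1 with hs2
    have hok1 : s1.ok N := Cmd.exec_ok _ _ hs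
    have hrep2 : Rep N ar a s2.st := by
      constructor
      · intro w; simp [hs2, Op.exec, h2.left w]
      · intro w ys hl hy
        simp only [hs2, Op.exec, ne_eq, reduceCtorEq, not_false_eq_true, update_of_ne]
        exact h2.cells w ys hl hy
    have hag2 : ∀ x ∈ F, s2.v (.u x) = e x ∧ e x < N := by
      intro x hx
      refine ⟨?_, (hag x hx).2⟩
      rw [← (hag x hx).1]
      simp only [hs2, Op.exec]
      exact Cmd.exec_v _ _ (compF_u φ x (Fml.wf_bv hwf.1 hx))
    obtain ⟨g1, g2, g3, g4⟩ := ih2 F hwf.2 e s2 hok1 hag2 hrep2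
    set s3 := (compF ψ).exec N s2 with hs3
    have hex : (compF (.and φ ψ)).exec N s = (Op.set BX.r fun b => b .g && b .r).exec N
      ((Op.pop KX.ev BX.g).exec N s3) := rfl
    have hev : s3.st .ev = φ.eval N a e :: s.st .ev := by
      rw [g3]
      simp [hs2, Op.exec, h1, h3]
    rw [hex]
    refine ⟨?_, ⟨?_, ?_⟩, ?_, ?_⟩
    · simp [Op.exec, hev, g1, Fml.eval]
    · intro w; simp [Op.exec, g2.left w]
    · intro w ys hl hy
      simp only [Op.exec, ne_eq, reduceCtorEq, not_false_eq_true, update_of_ne]
      exact g2.cells w ys hl hy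
    · simp [Op.exec, hev]
    · simp only [Op.exec, ne_eq, reduceCtorEq, not_false_eq_true, update_of_ne, g4]
      simp [hs2, Op.exec, h4]
  | ex x φ ih =>
    intro F hwf e s hs hag hrep
    simp only [Fml.wf, Bool.and_eq_true, decide_eq_true_eq] at hwf
    set s1 : PS V W D := (Op.push KX.ev fun _ => false).exec N s with hs1
    set body : PC V W D := .seq (compF φ)
      (.seq (.op (.pop .ev .g)) (.op (.push .ev fun b => b .g || b .r))) with hbody
    have hxb : x ∉ φ.bv := Fml.wf_bv hwf.2 List.mem_cons_self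
    have hwv : body.wv = (compF φ : PC V W D).wv := by
      simp [hbody, Cmd.wv, Op.wv]
    have hctr : (VX.u x : VX V D) ∉ body.wv := by
      rw [hwv]; exact compF_u φ x hxb
    have hfr : ∀ y ∈ F, (VX.u y : VX V D) ∉ body.wv := by
      intro y hy
      rw [hwv]
      exact compF_u φ y (Fml.wf_bv hwf.2 (List.mem_cons_of_mem _ hy))
    have key := loop_inv (N := N) hctr
      (fun t s' => Rep N ar a s'.st ∧
        s'.st .ev = decide (∃ u < t, φ.eval N a (update e x u) = true) :: s.st .ev ∧
        s'.st .out = s.st .out) s1 hs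
      (by
        refine ⟨⟨?_, ?_⟩, ?_, ?_⟩
        · intro w; simp [hs1, Op.exec, hrep.left w]
        · intro w ys hl hy
          simp only [hs1, Op.exec, ne_eq, reduceCtorEq, not_false_eq_true, update_of_ne]
          exact hrep.cells w ys hl hy
        · simp [hs1, Op.exec]
        · simp [hs1, Op.exec])
      (by
        intro t ht s' hok hv hfr' hI
        obtain ⟨i1, i2, i3⟩ := hI
        obtain ⟨h1, h2, h3, h4⟩ := ih (x :: F) hwf.2 (update e x t) s' hok (by
          intro y hy
          rcases List.mem_cons.1 hy with rfl | hy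
          · simp [hv, ht]
          · have hyx : y ≠ x := fun h => hwf.1 (h ▸ hy)
            rw [update_of_ne hyx, hfr' _ (hfr y hy) (by simpa using hyx)]
            exact hag y hy) i1
        set s2 := (compF φ).exec N s' with hs2
        have hex : (Op.inc (VX.u x)).exec N (body.exec N s') = (Op.inc (VX.u x)).exec N
          ((Op.push KX.ev fun b => b .g || b .r).exec N ((Op.pop KX.ev BX.g).exec N s2)) := rfl
        have hev : s2.st .ev = decide (∃ u < t, φ.eval N a (update e x u) = true) ::
            s.st .ev := by rw [h3, i2]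
        rw [hex]
        refine ⟨⟨?_, ?_⟩, ?_, ?_⟩
        · intro w; simp [Op.exec, h2.left w]
        · intro w ys hl hy
          simp only [Op.exec, ne_eq, reduceCtorEq, not_false_eq_true, update_of_ne]
          exact h2.cells w ys hl hy
        · simp only [Op.exec, hev, update_self, List.headD_cons, List.tail_cons, ne_eq,
            reduceCtorEq, not_false_eq_true, update_of_ne, h1, List.cons.injEq, and_true]
          rw [Bool.eq_iff_iff]
          simp only [Bool.or_eq_true, decide_eq_true_eq]
          constructor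
          · rintro (⟨u, hu, h⟩ | h)
            · exact ⟨u, by omega, h⟩
            · exact ⟨t, by omega, h⟩
          · rintro ⟨u, hu, h⟩
            rcases Nat.lt_or_ge u t with h' | h'
            · exact .inl ⟨u, h', h⟩
            · have : u = t := by omega
              exact .inr (this ▸ h)
        · simp only [Op.exec, ne_eq, reduceCtorEq, not_false_eq_true, update_of_ne, h4, i3])
    set s2 : PS V W D := (Cmd.loop (VX.u x) body).exec N s1 with hs2
    obtain ⟨i1, i2, i3⟩ := key
    have hex : (compF (.ex x φ)).exec N s = (Op.pop KX.ev BX.r).exec N s2 := rfl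
    rw [hex]
    refine ⟨?_, ⟨?_, ?_⟩, ?_, ?_⟩
    · simp only [Op.exec, i2, update_self, List.headD_cons, Fml.eval]
    · intro w; simp [Op.exec, i1.left w]
    · intro w ys hl hy
      simp only [Op.exec, ne_eq, reduceCtorEq, not_false_eq_true, update_of_ne]
      exact i1.cells w ys hl hy
    · simp only [Op.exec, i2, update_self, List.tail_cons]
    · simp only [Op.exec, ne_eq, reduceCtorEq, not_false_eq_true, update_of_ne, i3]

theorem compCount_spec {N : ℕ} {ar : W → ℕ} (har : ∀ w, ar w ≤ D) {a : Arr W} (c : VX V D)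
    (hc : c = .c1 ∨ c = .c2) (x : V) (φ : Fml V W) (F : List V) (hxF : x ∉ F)
    (hwf : φ.wf ar (x :: F) = true) (e : V → ℕ) (s : PS V W D) (hs : s.ok N)
    (hag : ∀ x ∈ F, s.v (.u x) = e x ∧ e x < N) (hrep : Rep N ar a s.st) :
    ((compCount c x φ).exec N s).v c = φ.count N a x e ∧
    Rep N ar a ((compCount c x φ).exec N s).st ∧
      ((compCount c x φ).exec N s).st .ev = s.st .ev ∧
      ((compCount c x φ).exec N s).st .out = s.st .out := by
  have hcu : ∀ y : V, c ≠ .u y := by
    intro y; rcases hc with hc | hc <;> rw [hc] <;> simp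
  set s1 : PS V W D := (Op.zero c).exec N s with hs1
  have hok1 : s1.ok N := Op.exec_ok _ _ hs
  set body : PC V W D := .seq (compF φ) (.ite (fun b => b .r) (.op (.inc c)) nop) with hbody
  have hxb : x ∉ φ.bv := Fml.wf_bv hwf List.mem_cons_self
  have hctr : (VX.u x : VX V D) ∉ body.wv := by
    simp only [hbody, Cmd.wv, Op.wv, nop, Set.union_empty, Set.mem_union,
      Set.mem_singleton_iff, not_or]
    exact ⟨compF_u φ x hxb, (hcu x).symm⟩
  have hfr : ∀ y ∈ F, (VX.u y : VX V D) ∉ body.wv := by
    intro y hy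
    simp only [hbody, Cmd.wv, Op.wv, nop, Set.union_empty, Set.mem_union,
      Set.mem_singleton_iff, not_or]
    exact ⟨compF_u φ y (Fml.wf_bv hwf (List.mem_cons_of_mem _ hy)), (hcu y).symm⟩
  have key := loop_inv (N := N) hctr
    (fun t s' => s'.v c = ((Finset.range t).filter fun u =>
        φ.eval N a (update e x u) = true).card ∧ Rep N ar a s'.st ∧
      s'.st .ev = s.st .ev ∧ s'.st .out = s.st .out) s1 hok1
    (by
      refine ⟨?_, hrep, rfl, rfl⟩
      simp [hs1, Op.exec, hcu x])
    (by
      intro t ht s' hok hv hfr' hI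
      obtain ⟨i0, i1, i2, i3⟩ := hI
      obtain ⟨h1, h2, h3, h4⟩ := compF_spec (N := N) har φ (x :: F) hwf (update e x t) s' hok (by
        intro y hy
        rcases List.mem_cons.1 hy with rfl | hy
        · simp [hv, ht]
        · have hyx : y ≠ x := fun h => hxF (h ▸ hy)
          rw [update_of_ne hyx, hfr' _ (hfr y hy) (by simpa using hyx)]
          simp only [hs1, Op.exec, ne_eq, (hcu y).symm, not_false_eq_true, update_of_ne]
          exact hag y hy) i1
      set s2 := (compF φ).exec N s' with hs2
      have hv2 : s2.v c = s'.v c := Cmd.exec_v _ _ (compF_c φ c hc)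
      have hcard : s'.v c ≤ t := by
        rw [i0]
        exact (Finset.card_filter_le _ _).trans (by simp)
      have hex : body.exec N s' = if s2.b .r then (Op.inc c).exec N s2 else
        (nop : PC V W D).exec N s2 := rfl
      simp only [hex]
      by_cases hr : φ.eval N a (update e x t) = true
      · rw [h1, hr]
        simp only [if_true]
        refine ⟨?_, h2, ?_, ?_⟩
        · simp only [Op.exec, ne_eq, hcu x, not_false_eq_true, update_of_ne, update_self, hv2]
          rw [Finset.range_add_one, Finset.filter_insert, if_pos hr,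
            Finset.card_insert_of_notMem (by simp), ← i0]
          omega
        · simp only [Op.exec]; rw [h3, i2]
        · simp only [Op.exec]; rw [h4, i3]
      · rw [h1]
        have hr' : φ.eval N a (update e x t) = false := by simpa using hr
        rw [hr']
        simp only [Bool.false_eq_true, if_false]
        refine ⟨?_, h2, ?_, ?_⟩
        · simp only [Op.exec, nop, Cmd.exec, ne_eq, hcu x, not_false_eq_true, update_of_ne, hv2]
          rw [Finset.range_add_one, Finset.filter_insert, if_neg (by simp [hr']), ← i0]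
        · simp only [Op.exec, nop, Cmd.exec]; rw [h3, i2]
        · simp only [Op.exec, nop, Cmd.exec]; rw [h4, i3])
  exact key

theorem compC_spec {N : ℕ} {ar : W → ℕ} (har : ∀ w, ar w ≤ D) {a : Arr W} (c : Cond V W)
    (F : List V) (hwf : c.wf ar F = true) (e : V → ℕ) (s : PS V W D) (hs : s.ok N)
    (hag : ∀ x ∈ F, s.v (.u x) = e x ∧ e x < N) (hrep : Rep N ar a s.st) :
    ((compC c).exec N s).b .r = c.eval N a e ∧ Rep N ar a ((compC c).exec N s).st ∧
      ((compC c).exec N s).st .ev = s.st .ev ∧ ((compC c).exec N s).st .out = s.st .out := by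
  cases c with
  | fml φ => exact compF_spec har φ F hwf e s hs hag hrep
  | more x φ ψ =>
    simp only [Cond.wf, Bool.and_eq_true, decide_eq_true_eq] at hwf
    obtain ⟨h1, h2, h3, h4⟩ := compCount_spec (N := N) har .c1 (.inl rfl) x φ F hwf.1.1 hwf.1.2
      e s hs hag hrep
    set s1 := (compCount .c1 x φ).exec N s with hs1
    have hok1 : s1.ok N := Cmd.exec_ok _ _ hs
    have hag1 : ∀ x ∈ F, s1.v (.u x) = e x ∧ e x < N := by
      intro y hy
      refine ⟨?_, (hag y hy).2⟩
      rw [← (hag y hy).1]
      exact Cmd.exec_v _ _ (compCount_u _ (.inl rfl) x φ y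
        (Fml.wf_bv hwf.1.2 (List.mem_cons_of_mem _ hy)) (fun h => hwf.1.1 (h ▸ hy)))
    obtain ⟨g1, g2, g3, g4⟩ := compCount_spec (N := N) har .c2 (.inr rfl) x ψ F hwf.1.1 hwf.2
      e s1 hok1 hag1 h2
    set s2 := (compCount .c2 x ψ).exec N s1 with hs2
    have hc1 : s2.v .c1 = s1.v .c1 := by
      apply Cmd.exec_v
      simp only [compCount, Cmd.wv, Op.wv, nop, Set.union_empty, Set.mem_union,
        Set.mem_insert_iff, Set.mem_singleton_iff, reduceCtorEq, not_or, not_false_eq_true,
        true_and, and_true]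
      exact compF_c ψ _ (.inl rfl)
    have hex : (compC (.more x φ ψ)).exec N s = (Op.set BX.r fun b => !b .g).exec N
      ((Op.le VX.c1 VX.c2 BX.g).exec N s2) := rfl
    rw [hex]
    refine ⟨?_, g2, ?_, ?_⟩
    · simp only [Op.exec, update_self, hc1, h1, g1, Cond.eval]
      rw [Bool.eq_iff_iff]
      simp
    · simp only [Op.exec, g3, h3]
    · simp only [Op.exec, g4, h4]

theorem compS_spec {N : ℕ} {ar : W → ℕ} (har : ∀ w, ar w ≤ D) (S : Stmt V W) :
    ∀ (F : List V) (_ : S.wf ar F = true) (e : V → ℕ) (σ : AS W) (s : PS V W D) (_ : s.ok N)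
      (_ : ∀ x ∈ F, s.v (.u x) = e x ∧ e x < N) (_ : Rep N ar σ.a s.st)
      (_ : s.st .out = σ.o.reverse),
    Rep N ar (S.run N e σ).a ((compS S).exec N s).st ∧
      ((compS S).exec N s).st .out = (S.run N e σ).o.reverse := by
  induction S with
  | wr w xs φ =>
    intro F hwf e σ s hs hag hrep hout
    simp only [Stmt.wf, Bool.and_eq_true, decide_eq_true_eq, List.all_eq_true] at hwf
    obtain ⟨h1, h2, h3, h4⟩ := compF_spec (N := N) har φ F hwf.2 e s hs hag hrep
    set s1 := (compF φ).exec N s with hs1
    have hok1 : s1.ok N := Cmd.exec_ok _ _ hs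
    have hag1 : ∀ x ∈ F, s1.v (.u x) = e x := by
      intro x hx
      rw [← (hag x hx).1]
      exact Cmd.exec_v _ _ (compF_u φ x (Fml.wf_bv hwf.2 hx))
    obtain ⟨g1, g2, g3⟩ := wt_spec (N := N) (D := D) har w xs hwf.1.1 s1 hok1 (fun x hx => by
      rw [hag1 x (hwf.1.2 x hx)]; exact (hag x (hwf.1.2 x hx)).2) h2
    have e1 : (xs.map fun x => s1.v (.u x)) = xs.map e :=
      List.map_congr_left fun x hx => hag1 x (hwf.1.2 x hx)
    rw [e1, h1] at g1
    have hex : (compS (.wr w xs φ)).exec N s = (wt w xs).exec N s1 := rfl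
    rw [hex]
    exact ⟨g1, by rw [g3, h4, hout]; rfl⟩
  | seq S T ih1 ih2 =>
    intro F hwf e σ s hs hag hrep hout
    simp only [Stmt.wf, Bool.and_eq_true] at hwf
    obtain ⟨h1, h2⟩ := ih1 F hwf.1 e σ s hs hag hrep hout
    have hag1 : ∀ x ∈ F, ((compS S).exec N s).v (.u x) = e x ∧ e x < N := by
      intro x hx
      refine ⟨?_, (hag x hx).2⟩
      rw [← (hag x hx).1]
      exact Cmd.exec_v _ _ (compS_u S x (Stmt.wf_bv hwf.1 hx))
    exact ih2 F hwf.2 e (S.run N e σ) _ (Cmd.exec_ok _ _ hs) hag1 h1 h2
  | ite c S T ih1 ih2 =>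
    intro F hwf e σ s hs hag hrep hout
    simp only [Stmt.wf, Bool.and_eq_true] at hwf
    obtain ⟨h1, h2, h3, h4⟩ := compC_spec (N := N) har c F hwf.1.1 e s hs hag hrep
    set s1 := (compC c).exec N s with hs1
    have hok1 : s1.ok N := Cmd.exec_ok _ _ hs
    have hag1 : ∀ x ∈ F, s1.v (.u x) = e x ∧ e x < N := by
      intro x hx
      refine ⟨?_, (hag x hx).2⟩
      rw [← (hag x hx).1]
      exact Cmd.exec_v _ _ (compC_u c x (Cond.wf_bv hwf.1.1 hx))
    have hex : (compS (.ite c S T)).exec N s = if s1.b .r then (compS S).exec N s1 else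
      (compS T).exec N s1 := rfl
    rw [hex, h1]
    simp only [Stmt.run]
    split
    · exact ih1 F hwf.1.2 e σ s1 hok1 hag1 h2 (by rw [h4, hout])
    · exact ih2 F hwf.2 e σ s1 hok1 hag1 h2 (by rw [h4, hout])
  | loop x S ih =>
    intro F hwf e σ s hs hag hrep hout
    simp only [Stmt.wf, Bool.and_eq_true, decide_eq_true_eq] at hwf
    have hctr : (VX.u x : VX V D) ∉ (compS S : PC V W D).wv :=
      compS_u S x (Stmt.wf_bv hwf.2 List.mem_cons_self)
    have key := loop_inv (N := N) hctr
      (fun t s' => Rep N ar ((List.range t).foldl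
          (fun σ t => S.run N (update e x t) σ) σ).a s'.st ∧
        s'.st .out = ((List.range t).foldl
          (fun σ t => S.run N (update e x t) σ) σ).o.reverse) s hs
      ⟨hrep, hout⟩
      (by
        intro t ht s' hok hv hfr' hI
        have h := ih (x :: F) hwf.2 (update e x t) _ s' hok (by
          intro y hy
          rcases List.mem_cons.1 hy with rfl | hy
          · simp [hv, ht]
          · have hyx : y ≠ x := fun h => hwf.1 (h ▸ hy)
            rw [update_of_ne hyx, hfr' _ (compS_u S y (Stmt.wf_bv hwf.2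
              (List.mem_cons_of_mem _ hy))) (by simpa using hyx)]
            exact hag y hy) hI.1 hI.2
        rw [List.range_succ, List.foldl_append, List.foldl_cons, List.foldl_nil]
        exact h)
    exact key
  | emit φ =>
    intro F hwf e σ s hs hag hrep hout
    obtain ⟨h1, h2, h3, h4⟩ := compF_spec (N := N) har φ F hwf e s hs hag hrep
    refine ⟨⟨?_, ?_⟩, ?_⟩
    · intro w; simp [compS, Cmd.exec, Op.exec, h2.left w]
    · intro w ys hl hy
      simp only [compS, Cmd.exec, Op.exec, ne_eq, reduceCtorEq, not_false_eq_true,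
        update_of_ne]
      exact h2.cells w ys hl hy
    · simp only [compS, Cmd.exec, Op.exec, update_self, h1, h4, hout, Stmt.run,
        List.reverse_append, List.reverse_cons, List.reverse_nil, List.nil_append,
        List.cons_append]
  | skip =>
    intro F hwf e σ s hs hag hrep hout
    exact ⟨hrep, hout⟩

/-- Rewind all arrays of a list. -/
def rewAll : List W → PC V W D
  | [] => nop
  | w :: l => .seq (.op (.move (.tl w) (.tr w))) (rewAll l)

theorem rewAll_WF (l : List W) : (rewAll l : PC V W D).WF := by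
  induction l with
  | nil => exact trivial
  | cons w l ih =>
    refine ⟨?_, ih⟩
    change (KX.tl w) ≠ KX.tr w
    simp

theorem rewAll_st {N : ℕ} (l : List W) (hl : l.Nodup) (s : PS V W D) :
    ((rewAll l).exec N s).st = fun k => match k with
      | .tl w => if w ∈ l then [] else s.st (.tl w)
      | .tr w => if w ∈ l then (s.st (.tl w)).reverse ++ s.st (.tr w) else s.st (.tr w)
      | .ev => s.st .ev
      | .out => s.st .out := by
  induction l generalizing s with
  | nil =>
    funext k
    cases k <;> simp [rewAll, nop, Cmd.exec, Op.exec]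
  | cons w l ih =>
    have hnd := List.nodup_cons.1 hl
    have hex : (rewAll (w :: l)).exec N s =
      (rewAll l).exec N ((Op.move (KX.tl w) (KX.tr w)).exec N s) := rfl
    rw [hex, ih hnd.2]
    funext k
    cases k with
    | tl w' =>
      by_cases hw : w' = w
      · subst hw; simp [Op.exec]
      · simp [Op.exec, hw]
    | tr w' =>
      by_cases hw : w' = w
      · subst hw; simp [Op.exec, hnd.1]
      · simp [Op.exec, hw]
    | ev => simp [Op.exec]
    | out => simp [Op.exec]

/-- Initial array contents: array `w` holds the word obtained from the input by `ini w`. -/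
def iniArr {Γ : Type} (N : ℕ) (ini : W → Γ → Option Bool) (word : List Γ) : Arr W :=
  fun w ys => cell (word.filterMap (ini w)) (enc N ys)

/-- The function on words computed by a program. -/
def Stmt.out {Γ : Type} (S : Stmt V W) (cnt : Γ → Bool) (ini : W → Γ → Option Bool)
    (word : List Γ) : List Bool :=
  (S.run (word.countP cnt) (fun _ => 0) ⟨iniArr (word.countP cnt) ini word, []⟩).o

/-- **Programs of the array language run in polynomial time.** -/
theorem Stmt.polytime {Γ : Type} [Fintype Γ] [Fintype V] [Fintype W] {ar : W → ℕ}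
    (S : Stmt V W) (hwf : S.wf ar [] = true) (cnt : Γ → Bool) (ini : W → Γ → Option Bool) :
    ∃ (M : TM2ComputableAux Γ Bool) (p : Polynomial ℕ), (∀ k, Finite (M.tm.Γ k)) ∧
      ∀ word : List Γ, Nonempty (TM2OutputsInTime M.tm (word.map M.inputAlphabet.invFun)
        (some ((S.out cnt ini word).map M.outputAlphabet.invFun)) (p.eval word.length)) := by
  obtain ⟨D, har⟩ : ∃ D, ∀ w, ar w ≤ D := ⟨∑ w, ar w, fun w =>
    Finset.single_le_sum (f := ar) (fun _ _ => Nat.zero_le _) (Finset.mem_univ w)⟩
  set io : IO (KX W) Γ := ⟨cnt, fun k => match k with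
    | .tl w => ini w
    | _ => fun _ => none, .out⟩ with hio
  set c : PC V W D := .seq (rewAll Finset.univ.toList) (compS S) with hc
  have hcWF : c.WF := ⟨rewAll_WF _, compS_WF har S hwf⟩
  obtain ⟨p, hp⟩ := mach_poly io c hcWF
  refine ⟨⟨mach io c, Equiv.refl _, Equiv.refl _⟩, p, fun k => gamFinite _ _ _ k,
    fun word => ?_⟩
  obtain ⟨h⟩ := hp word
  set N := word.countP io.cnt with hN
  set s0 : PS V W D := St.init io word with hs0
  have hok0 : s0.ok N := fun _ => Nat.zero_le _
  set s1 : PS V W D := (rewAll Finset.univ.toList).exec N s0 with hs1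
  have hst := rewAll_st (N := N) (D := D) (V := V) (Finset.univ : Finset W).toList
    (Finset.nodup_toList _) s0
  rw [← hs1] at hst
  have hrep : Rep N ar (iniArr N ini word) s1.st := by
    constructor
    · intro w; rw [hst]; simp
    · intro w ys _ _
      rw [hst]
      simp [hs0, St.init, hio, iniArr]
  have hout : s1.st .out = ([] : List Bool).reverse := by
    rw [hst]; simp [hs0, St.init, hio]
  obtain ⟨_, g2⟩ := compS_spec (N := N) (D := D) har S [] hwf (fun _ => 0)
    ⟨iniArr N ini word, []⟩ s1 (Cmd.exec_ok _ _ hok0) (by simp) hrep hout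
  have hex : c.exec N s0 = (compS S).exec N s1 := rfl
  have hko : io.ko = .out := rfl
  rw [hko, hex, g2, List.reverse_reverse] at h
  have e1 : word.map (Equiv.refl Γ).invFun = word := by
    change word.map id = word
    simp
  have e2 : (S.out cnt ini word).map (Equiv.refl Bool).invFun = S.out cnt ini word := by
    change (S.out cnt ini word).map id = _
    simp
  exact ⟨cast (congrArg₂ (fun (x : List Γ) (y : List Bool) =>
    TM2OutputsInTime (mach io c) x (some y) (p.eval word.length)) e1 e2).symm h⟩

end Pool.Agent.Lib.PolyTM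

end ArrayCompilePart

section RulesPart

/-! # Proof rules for programs of the array language -/

namespace Pool.Agent.Lib.PolyTM

set_option linter.unusedSectionVars false

open Function

variable {V W : Type} [DecidableEq V] [DecidableEq W] {N : ℕ}

/-- Nested loops. -/
def loops : List V → Stmt V W → Stmt V W
  | [], s => s
  | x :: xs, s => .loop x (loops xs s)

/-- Iterated update. -/
def upds (e : V → ℕ) : List V → List ℕ → (V → ℕ)
  | x :: xs, t :: ts => upds (update e x t) xs ts
  | _, _ => e

/-- Index tuples of length `k`. -/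
def OKt (N k : ℕ) (ts : List ℕ) : Prop := ts.length = k ∧ ∀ t ∈ ts, t < N

theorem OKt.cons {k t : ℕ} {ts : List ℕ} (ht : t < N) (h : OKt N k ts) :
    OKt N (k + 1) (t :: ts) := by
  refine ⟨by simp [h.1], fun x hx => ?_⟩
  rcases List.mem_cons.1 hx with rfl | hx
  · exact ht
  · exact h.2 x hx

theorem OKt.append {k l : ℕ} {ts us : List ℕ} (h1 : OKt N k ts) (h2 : OKt N l us) :
    OKt N (k + l) (ts ++ us) := by
  refine ⟨by simp [h1.1, h2.1], fun x hx => ?_⟩
  rcases List.mem_append.1 hx with hx | hx
  · exact h1.2 x hx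
  · exact h2.2 x hx

theorem OKt.split {k l : ℕ} {ts : List ℕ} (h : OKt N (k + l) ts) :
    ∃ us vs, ts = us ++ vs ∧ OKt N k us ∧ OKt N l vs := by
  refine ⟨ts.take k, ts.drop k, (List.take_append_drop k ts).symm, ⟨?_, fun x hx => ?_⟩,
    ⟨?_, fun x hx => ?_⟩⟩
  · rw [List.length_take, h.1]; omega
  · exact h.2 x (List.mem_of_mem_take hx)
  · rw [List.length_drop, h.1]; omega
  · exact h.2 x (List.mem_of_mem_drop hx)

theorem OKt.one {ts : List ℕ} (h : OKt N 1 ts) : ∃ t, ts = [t] ∧ t < N := by
  obtain ⟨h1, h2⟩ := h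
  obtain ⟨t, rfl⟩ := List.length_eq_one_iff.1 h1
  exact ⟨t, rfl, h2 t (by simp)⟩

theorem OKt.two {ts : List ℕ} (h : OKt N 2 ts) : ∃ t u, ts = [t, u] ∧ t < N ∧ u < N := by
  obtain ⟨h1, h2⟩ := h
  obtain ⟨t, u, rfl⟩ := List.length_eq_two.1 h1
  exact ⟨t, u, rfl, h2 t (by simp), h2 u (by simp)⟩

theorem okt_one {t : ℕ} (h : t < N) : OKt N 1 [t] := ⟨rfl, by simpa using h⟩

theorem okt_two {t u : ℕ} (h : t < N) (h' : u < N) : OKt N 2 [t, u] :=
  ⟨rfl, by simp [h, h']⟩

theorem upds_notMem (e : V → ℕ) (xs : List V) (ts : List ℕ) {x : V} (hx : x ∉ xs) :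
    upds e xs ts x = e x := by
  induction xs generalizing e ts with
  | nil => rfl
  | cons y xs ih =>
    cases ts with
    | nil => rfl
    | cons t ts =>
      simp only [List.mem_cons, not_or] at hx
      simp only [upds]
      rw [ih _ _ hx.2, update_of_ne hx.1]

theorem upds_map (e : V → ℕ) (xs : List V) (hxs : xs.Nodup) (ts : List ℕ)
    (h : ts.length = xs.length) : xs.map (upds e xs ts) = ts := by
  induction xs generalizing e ts with
  | nil =>
    simp only [List.length_nil] at h
    rw [List.length_eq_zero_iff.1 h]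
    rfl
  | cons x xs ih =>
    cases ts with
    | nil => simp at h
    | cons t ts =>
      have hnd := List.nodup_cons.1 hxs
      simp only [List.map_cons, upds]
      rw [upds_notMem _ _ _ hnd.1, update_self, ih _ hnd.2 _ (by simpa using h)]

theorem map_upds_of_disj (e : V → ℕ) (xs ys : List V) (ts : List ℕ)
    (h : ∀ y ∈ ys, y ∉ xs) : ys.map (upds e xs ts) = ys.map e :=
  List.map_congr_left fun y hy => upds_notMem e xs ts (h y hy)

theorem env_split (e : V → ℕ) (xs ys : List V) (hnd : (xs ++ ys).Nodup) (ts us : List ℕ)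
    (h1 : ts.length = xs.length) (h2 : us.length = ys.length) :
    xs.map (upds e (xs ++ ys) (ts ++ us)) = ts ∧ ys.map (upds e (xs ++ ys) (ts ++ us)) = us := by
  have h := upds_map e (xs ++ ys) hnd (ts ++ us) (by simp [h1, h2])
  rw [List.map_append] at h
  exact List.append_inj h (by simp [h1])

/-- Rule for a single loop. -/
theorem run_loop {x : V} {s : Stmt V W} {e : V → ℕ} (I : ℕ → AS W → Prop)
    (h : ∀ t < N, ∀ σ, I t σ → I (t + 1) (s.run N (update e x t) σ)) {σ : AS W} (h0 : I 0 σ) :
    I N ((Stmt.loop x s).run N e σ) := by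
  have key : ∀ m ≤ N, I m ((List.range m).foldl (fun σ t => s.run N (update e x t) σ) σ) := by
    intro m
    induction m with
    | zero => intro _; exact h0
    | succ m ih =>
      intro hm
      rw [List.range_succ, List.foldl_append, List.foldl_cons, List.foldl_nil]
      exact h m (by omega) _ (ih (by omega))
  exact key N le_rfl

/-- Rule for nested loops. -/
theorem run_loops {xs : List V} {s : Stmt V W} {e : V → ℕ} (I : AS W → Prop)
    (P : List ℕ → AS W → Prop)
    (h1 : ∀ ts, OKt N xs.length ts → ∀ σ, I σ →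
      I (s.run N (upds e xs ts) σ) ∧ P ts (s.run N (upds e xs ts) σ))
    (h2 : ∀ ts ts', OKt N xs.length ts → OKt N xs.length ts' → ∀ σ, I σ → P ts σ →
      P ts (s.run N (upds e xs ts') σ)) {σ : AS W} (h0 : I σ) :
    I ((loops xs s).run N e σ) ∧
      ∀ ts, OKt N xs.length ts → P ts ((loops xs s).run N e σ) := by
  induction xs generalizing e I P σ with
  | nil =>
    have := h1 [] ⟨rfl, by simp⟩ σ h0
    refine ⟨this.1, fun ts hts => ?_⟩
    have : ts = [] := List.length_eq_zero_iff.1 hts.1
    subst this
    exact (h1 [] ⟨rfl, by simp⟩ σ h0).2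
  | cons x xs ih =>
    have key := run_loop (N := N) (x := x) (s := loops xs s) (e := e)
      (fun m σ => I σ ∧ ∀ t < m, ∀ ts, OKt N xs.length ts → P (t :: ts) σ)
      (by
        intro m hm σ ⟨g1, g2⟩
        have hI := ih (e := update e x m)
          (I := fun σ => I σ ∧ ∀ t < m, ∀ ts, OKt N xs.length ts → P (t :: ts) σ)
          (P := fun ts σ => P (m :: ts) σ)
          (by
            intro ts hts σ ⟨i1, i2⟩
            have := h1 (m :: ts) (hts.cons hm) σ i1
            refine ⟨⟨this.1, fun t ht us hus => ?_⟩, this.2⟩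
            exact h2 (t :: us) (m :: ts) (hus.cons (by omega)) (hts.cons hm) σ i1 (i2 t ht us hus))
          (by
            intro ts ts' hts hts' σ ⟨i1, i2⟩ hP
            exact h2 (m :: ts) (m :: ts') (hts.cons hm) (hts'.cons hm) σ i1 hP)
          (σ := σ) ⟨g1, g2⟩
        refine ⟨hI.1.1, fun t ht ts hts => ?_⟩
        rcases Nat.lt_or_ge t m with h | h
        · exact hI.1.2 t h ts hts
        · have : t = m := by omega
          subst this
          exact hI.2 ts hts)
      (σ := σ) ⟨h0, fun t ht => absurd ht (Nat.not_lt_zero t)⟩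
    refine ⟨key.1, fun ts hts => ?_⟩
    cases ts with
    | nil => simp [OKt] at hts
    | cons t ts =>
      exact key.2 t (hts.2 t (by simp)) ts
        ⟨by simpa using hts.1, fun y hy => hts.2 y (List.mem_cons_of_mem _ hy)⟩

/-- Arrays mentioned in a formula. -/
def Fml.uses : Fml V W → List W
  | .arr w _ => [w]
  | .le _ _ => []
  | .not φ => φ.uses
  | .and φ ψ => φ.uses ++ ψ.uses
  | .ex _ φ => φ.uses

theorem Fml.eval_congr {a a' : Arr W} (φ : Fml V W) (h : ∀ w ∈ φ.uses, a w = a' w)
    (e : V → ℕ) : φ.eval N a e = φ.eval N a' e := by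
  induction φ generalizing e with
  | arr w xs => simp only [Fml.eval, h w (by simp [Fml.uses])]
  | le x y => rfl
  | not φ ih => simp only [Fml.eval, ih h]
  | and φ ψ ih1 ih2 =>
    simp only [Fml.eval, ih1 (fun w hw => h w (by simp [Fml.uses, hw])),
      ih2 (fun w hw => h w (by simp [Fml.uses, hw]))]
  | ex x φ ih => simp only [Fml.eval, ih h]

/-- Assignment of a whole block of an array. -/
theorem run_block (w : W) (xs0 xs : List V) (φ : Fml V W) (hnd : xs.Nodup)
    (hdisj : ∀ x ∈ xs0, x ∉ xs) (hu : w ∉ φ.uses) (e : V → ℕ) (σ : AS W) :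
    ((loops xs (.wr w (xs0 ++ xs) φ)).run N e σ).o = σ.o ∧
    (∀ w', w' ≠ w → ((loops xs (.wr w (xs0 ++ xs) φ)).run N e σ).a w' = σ.a w') ∧
    (∀ ts, OKt N xs.length ts → ((loops xs (.wr w (xs0 ++ xs) φ)).run N e σ).a w
      (xs0.map e ++ ts) = φ.eval N σ.a (upds e xs ts)) ∧
    (∀ l, (∀ ts, OKt N xs.length ts → l ≠ xs0.map e ++ ts) →
      ((loops xs (.wr w (xs0 ++ xs) φ)).run N e σ).a w l = σ.a w l) := by
  have hidx : ∀ ts, OKt N xs.length ts →
      (xs0 ++ xs).map (upds e xs ts) = xs0.map e ++ ts := by
    intro ts hts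
    rw [List.map_append, upds_map e xs hnd ts hts.1, map_upds_of_disj e xs xs0 ts hdisj]
  have key := run_loops (N := N) (xs := xs) (s := Stmt.wr w (xs0 ++ xs) φ) (e := e)
    (fun σ' => σ'.o = σ.o ∧ (∀ w', w' ≠ w → σ'.a w' = σ.a w') ∧
      ∀ l, (∀ ts, OKt N xs.length ts → l ≠ xs0.map e ++ ts) → σ'.a w l = σ.a w l)
    (fun ts σ' => σ'.a w (xs0.map e ++ ts) = φ.eval N σ.a (upds e xs ts))
    (by
      intro ts hts σ' ⟨i1, i2, i3⟩
      refine ⟨⟨i1, fun w' hw' => ?_, fun l hl => ?_⟩, ?_⟩
      · simp only [Stmt.run, update_of_ne hw']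
        exact i2 w' hw'
      · simp only [Stmt.run, update_self, hidx ts hts, update_of_ne (hl ts hts)]
        exact i3 l hl
      · simp only [Stmt.run, update_self, hidx ts hts]
        exact Fml.eval_congr φ (fun w' hw' => i2 w' (fun h => hu (h ▸ hw'))) _)
    (by
      intro ts ts' hts hts' σ' ⟨i1, i2, i3⟩ hP
      simp only [Stmt.run, update_self, hidx ts' hts']
      by_cases h : ts = ts'
      · subst h
        rw [update_self]
        exact Fml.eval_congr φ (fun w' hw' => i2 w' (fun h => hu (h ▸ hw'))) _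
      · rw [update_of_ne (fun hc => h (List.append_cancel_left hc))]
        exact hP)
    (σ := σ) ⟨rfl, fun _ _ => rfl, fun _ _ => rfl⟩
  exact ⟨key.1.1, key.1.2.1, key.2, key.1.2.2⟩

/-- Assignment of a whole array. -/
def fill (w : W) (xs : List V) (φ : Fml V W) : Stmt V W := loops xs (.wr w xs φ)

theorem run_fill (w : W) (xs : List V) (φ : Fml V W) (hnd : xs.Nodup) (hu : w ∉ φ.uses)
    (e : V → ℕ) (σ : AS W) :
    ((fill w xs φ).run N e σ).o = σ.o ∧
    (∀ w', w' ≠ w → ((fill w xs φ).run N e σ).a w' = σ.a w') ∧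
    (∀ ts, OKt N xs.length ts → ((fill w xs φ).run N e σ).a w ts =
      φ.eval N σ.a (upds e xs ts)) := by
  have := run_block (N := N) w [] xs φ hnd (by simp) hu e σ
  exact ⟨this.1, this.2.1, this.2.2.1⟩

/-! ### Derived formulas -/

def Fml.or (φ ψ : Fml V W) : Fml V W := .not (.and (.not φ) (.not ψ))
def Fml.eq (x y : V) : Fml V W := .and (.le x y) (.le y x)
def Fml.lt (x y : V) : Fml V W := .not (.le y x)
def Fml.ff (φ : Fml V W) : Fml V W := .and φ (.not φ)
def Fml.tt (φ : Fml V W) : Fml V W := .not (.ff φ)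
/-- Conjunction of a list. -/
def Fml.conj (φ0 : Fml V W) (l : List (Fml V W)) : Fml V W := l.foldr .and φ0
/-- Disjunction of a list. -/
def Fml.disj (φ0 : Fml V W) (l : List (Fml V W)) : Fml V W := l.foldr .or φ0

variable {a : Arr W} {e : V → ℕ}

theorem Fml.eval_arr (w : W) (xs : List V) : (Fml.arr w xs).eval N a e = a w (xs.map e) := rfl

theorem Fml.eval_not (φ : Fml V W) :
    (Fml.not φ).eval N a e = true ↔ ¬φ.eval N a e = true := by
  simp [Fml.eval]

theorem Fml.eval_and (φ ψ : Fml V W) :
    (Fml.and φ ψ).eval N a e = true ↔ φ.eval N a e = true ∧ ψ.eval N a e = true := by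
  simp [Fml.eval]

theorem Fml.eval_or (φ ψ : Fml V W) :
    (φ.or ψ).eval N a e = true ↔ φ.eval N a e = true ∨ ψ.eval N a e = true := by
  simp only [Fml.or, Fml.eval_not, Fml.eval_and]
  tauto

theorem Fml.eval_eq (x y : V) : (Fml.eq x y : Fml V W).eval N a e = true ↔ e x = e y := by
  rw [Fml.eq, Fml.eval_and]
  simp only [Fml.eval, decide_eq_true_eq]
  omega

theorem Fml.eval_lt (x y : V) : (Fml.lt x y : Fml V W).eval N a e = true ↔ e x < e y := by
  rw [Fml.lt, Fml.eval_not]
  simp only [Fml.eval, decide_eq_true_eq]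
  omega

theorem Fml.eval_ex (x : V) (φ : Fml V W) :
    (Fml.ex x φ).eval N a e = true ↔ ∃ t < N, φ.eval N a (update e x t) = true := by
  simp only [Fml.eval, decide_eq_true_eq]

theorem Fml.eval_ff (φ : Fml V W) : φ.ff.eval N a e = false := by
  simp [Fml.ff, Fml.eval]

theorem Fml.eval_tt (φ : Fml V W) : φ.tt.eval N a e = true := by
  simp [Fml.tt, Fml.ff, Fml.eval]

theorem Fml.eval_conj (φ0 : Fml V W) (l : List (Fml V W)) :
    (Fml.conj φ0 l).eval N a e = true ↔
      (∀ φ ∈ l, φ.eval N a e = true) ∧ φ0.eval N a e = true := by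
  induction l with
  | nil => simp [Fml.conj]
  | cons φ l ih =>
    simp only [Fml.conj, List.foldr_cons, Fml.eval_and, List.mem_cons, forall_eq_or_imp] at ih ⊢
    rw [ih]
    tauto

theorem Fml.eval_disj (φ0 : Fml V W) (l : List (Fml V W)) :
    (Fml.disj φ0 l).eval N a e = true ↔
      (∃ φ ∈ l, φ.eval N a e = true) ∨ φ0.eval N a e = true := by
  induction l with
  | nil => simp [Fml.disj]
  | cons φ l ih =>
    simp only [Fml.disj, List.foldr_cons, Fml.eval_or, List.mem_cons, exists_eq_or_imp] at ih ⊢
    rw [ih]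
    exact or_assoc.symm

end Pool.Agent.Lib.PolyTM

end RulesPart
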