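import Pool.Agent.Lib.PolyTM.Micro

/-! # Propositional description of a run of a small-step machine -/

namespace Pool.Agent.Lib.PolyTM

set_option linter.unusedSectionVars false
set_option linter.unusedSimpArgs false

open Function Turing

namespace Tab

/-- Shifts of the position index. -/
inductive Sh
  | zero
  | same
  | succ
  deriving DecidableEq

/-- The shifted position. -/
def Sh.at : Sh → ℕ → ℕ
  | .zero, _ => 0
  | .same, i => i
  | .succ, i => i + 1

/-- Predicates on positions used at time `0`. -/
inductive GW
  | ptr
  | bel
  | in0
  | in1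
  | gue
  | emp
  deriving DecidableEq, Fintype

section

variable (K : Type) (Γ : K → Type) (S : Type)

/-- Kinds of propositional variables: state, head of a stack, cell of a stack, two dummies. -/
abbrev VT : Type := S ⊕ K ⊕ (Σ k : K, Option (Γ k)) ⊕ Bool

/-- Literals of a clause scheme. -/
structure Lt where
  b : Bool
  v : VT K Γ S
  dt : Bool
  di : Sh

/-- Clause schemes. -/
structure Sc where
  lits : List (Lt K Γ S)
  g : Option GW

end

variable {K : Type} {Γ : K → Type} {S : Type}

abbrev VT.st (s : S) : VT K Γ S := .inl s
abbrev VT.hd (k : K) : VT K Γ S := .inr (.inl k)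
abbrev VT.ce (k : K) (o : Option (Γ k)) : VT K Γ S := .inr (.inr (.inl ⟨k, o⟩))
abbrev VT.dm (b : Bool) : VT K Γ S := .inr (.inr (.inr b))

/-- Negative literal at the current time. -/
def nl (v : VT K Γ S) (di : Sh) : Lt K Γ S := ⟨false, v, false, di⟩
/-- Positive literal at the next time. -/
def pl (v : VT K Γ S) (di : Sh) : Lt K Γ S := ⟨true, v, true, di⟩
/-- Positive literal at the current time. -/
def il (v : VT K Γ S) (di : Sh) : Lt K Γ S := ⟨true, v, false, di⟩

/-- When a scheme applies. -/
def Sc.ok (M : ℕ) (A : GW → ℕ → Prop) (c : Sc K Γ S) (t i : ℕ) : Prop :=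
  (c.lits.any (·.dt) = true → t + 1 < M) ∧ (c.lits.any (fun l => l.di = .succ) = true → i + 1 < M) ∧
    ∀ w, c.g = some w → t = 0 ∧ A w i

/-- Satisfaction of a literal. -/
def Lt.sat (α : VT K Γ S → ℕ → ℕ → Bool) (l : Lt K Γ S) (t i : ℕ) : Prop :=
  α l.v (t + l.dt.toNat) (l.di.at i) = l.b

/-- Satisfaction of all instances of a list of schemes. -/
def SatBy (M : ℕ) (A : GW → ℕ → Prop) (cs : List (Sc K Γ S)) (α : VT K Γ S → ℕ → ℕ → Bool) :
    Prop :=
  ∀ c ∈ cs, ∀ t < M, ∀ i < M, c.ok M A t i → ∃ l ∈ c.lits, l.sat α t i

variable [DecidableEq K] [Fintype K] [∀ k, Fintype (Γ k)] [Fintype S]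

open Classical in
/-- Schemes for the state. -/
noncomputable def stS (act : S → Act K Γ S) (s : S) : List (Sc K Γ S) :=
  match act s with
  | .jump s' => [⟨[nl (.st s) .zero, pl (.st s') .zero], none⟩]
  | .push _ _ s' => [⟨[nl (.st s) .zero, pl (.st s') .zero], none⟩]
  | .read k _ next => (Finset.univ : Finset (Option (Γ k))).toList.map fun o =>
      ⟨[nl (.st s) .zero, nl (.hd k) .same, nl (.ce k o) .same, pl (.st (next o)) .zero], none⟩

/-- Stacks whose head may move. -/
def mv (act : S → Act K Γ S) (s : S) (k : K) : Prop :=
  (∃ γ s', act s = .push k γ s') ∨ ∃ next, act s = .read k true next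

/-- Stacks that are popped. -/
def pops (act : S → Act K Γ S) (s : S) (k : K) : Prop := ∃ next, act s = .read k true next

open Classical in
/-- Schemes for unmoved heads. -/
noncomputable def hdS (act : S → Act K Γ S) (s : S) (k : K) : List (Sc K Γ S) :=
  if mv act s k then [] else [⟨[nl (.st s) .zero, nl (.hd k) .same, pl (.hd k) .same], none⟩]

open Classical in
/-- Schemes for cells that stay. -/
noncomputable def ceS (act : S → Act K Γ S) (s : S) (k : K) : List (Sc K Γ S) :=
  if pops act s k then [] else (Finset.univ : Finset (Option (Γ k))).toList.map fun o =>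
    ⟨[nl (.st s) .zero, nl (.ce k o) .same, pl (.ce k o) .same], none⟩

/-- Schemes for pushes. -/
def puS (act : S → Act K Γ S) (s : S) : List (Sc K Γ S) :=
  match act s with
  | .push k γ _ => [⟨[nl (.st s) .zero, nl (.hd k) .succ, pl (.hd k) .same], none⟩,
      ⟨[nl (.st s) .zero, nl (.hd k) .succ, pl (.ce k (some γ)) .same], none⟩]
  | _ => []

open Classical in
/-- Schemes for pops. -/
noncomputable def poS (act : S → Act K Γ S) (s : S) : List (Sc K Γ S) :=
  match act s with
  | .read k true _ => (Finset.univ : Finset (Γ k)).toList.map (fun γ =>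
        ⟨[nl (.st s) .zero, nl (.hd k) .same, nl (.ce k (some γ)) .same, pl (.hd k) .succ],
          none⟩) ++
      ([⟨[nl (.st s) .zero, nl (.hd k) .same, nl (.ce k none) .same, pl (.hd k) .same], none⟩,
        ⟨[nl (.st s) .zero, nl (.hd k) .same, nl (.ce k none) .same,
          pl (.ce k none) .same], none⟩] ++
      (Finset.univ : Finset (Option (Γ k) × Option (Γ k))).toList.map fun o =>
        ⟨[nl (.st s) .zero, nl (.ce k o.1) .same, nl (.ce k o.2) .succ,
          pl (.ce k o.2) .succ], none⟩)
  | _ => []

open Classical in
/-- Schemes for the initial configuration. -/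
noncomputable def inS (start : S) (k0 : K) (g : Bool ⊕ Bool → Γ k0) : List (Sc K Γ S) :=
  [⟨[il (.st start) .zero], some .ptr⟩, ⟨[il (.ce k0 (some (g (.inl false)))) .same], some .in0⟩,
    ⟨[il (.ce k0 (some (g (.inl true)))) .same], some .in1⟩,
    ⟨[il (.ce k0 none) .same, il (.ce k0 (some (g (.inr false)))) .same,
      il (.ce k0 (some (g (.inr true)))) .same], some .gue⟩,
    ⟨[nl (.ce k0 none) .same, il (.ce k0 none) .succ], some .gue⟩,
    ⟨[il (.ce k0 none) .same], some .emp⟩] ++
  ((Finset.univ : Finset K).toList.map fun k => ⟨[il (.hd k) .same], some .ptr⟩) ++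
  ((Finset.univ.filter fun k => k ≠ k0).toList.map fun k => ⟨[il (.ce k none) .same], some .bel⟩)

/-- All schemes. -/
noncomputable def schemes (act : S → Act K Γ S) (start rej : S) (k0 : K)
    (g : Bool ⊕ Bool → Γ k0) : List (Sc K Γ S) :=
  ⟨[nl (.st rej) .zero], none⟩ :: (inS start k0 g ++
    (Finset.univ : Finset S).toList.flatMap fun s => stS act s ++ (puS act s ++ (poS act s ++
      (Finset.univ : Finset K).toList.flatMap fun k => hdS act s k ++ ceS act s k)))

/-- Initial configuration. -/
def c0 (start : S) (k0 : K) (g : Bool ⊕ Bool → Γ k0) (x y : List Bool) : MC K Γ S :=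
  ⟨start, update (fun _ => []) k0 ((x.map Sum.inl ++ y.map Sum.inr).map g)⟩

/-- Meaning of the position predicates: `P` is the position of the heads, `E` the end of the
guessed part. -/
def Am (P E : ℕ) (x : List Bool) : GW → ℕ → Prop
  | .ptr, i => i = P
  | .bel, i => P ≤ i
  | .in0, i => ∃ j, i = P + j ∧ x[j]? = some false
  | .in1, i => ∃ j, i = P + j ∧ x[j]? = some true
  | .gue, i => P + x.length ≤ i ∧ i < E
  | .emp, i => E ≤ i

section Run

variable (act : S → Act K Γ S) (start : S) (k0 : K) (g : Bool ⊕ Bool → Γ k0) (P : ℕ)
  (x y : List Bool)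

/-- The run. -/
def run (t : ℕ) : MC K Γ S := (mstep act)^[t] (c0 start k0 g x y)

/-- Head position. -/
def hp (k : K) (t : ℕ) : ℕ :=
  P + ((c0 start k0 g x y).stk k).length - ((run act start k0 g x y t).stk k).length

theorem run_zero : run act start k0 g x y 0 = c0 start k0 g x y := rfl

theorem run_succ (t : ℕ) :
    run act start k0 g x y (t + 1) = mstep act (run act start k0 g x y t) := by
  unfold run
  rw [Function.iterate_succ_apply']

variable {act start k0 g P x y}

/-- How the head and the cells of stack `k` change. -/
theorem change (hb : ∀ t k, ((run act start k0 g x y t).stk k).length ≤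
      P + ((c0 start k0 g x y).stk k).length) (t : ℕ) (k : K) :
    (∀ γ s', act (run act start k0 g x y t).s = .push k γ s' →
      hp act start k0 g P x y k t = hp act start k0 g P x y k (t + 1) + 1 ∧
      (run act start k0 g x y (t + 1)).stk k = γ :: (run act start k0 g x y t).stk k) ∧
    (∀ next, act (run act start k0 g x y t).s = .read k true next →
      ∀ γ l, (run act start k0 g x y t).stk k = γ :: l →
      hp act start k0 g P x y k (t + 1) = hp act start k0 g P x y k t + 1 ∧
      (run act start k0 g x y (t + 1)).stk k = l) ∧
    (∀ next, act (run act start k0 g x y t).s = .read k true next →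
      (run act start k0 g x y t).stk k = [] →
      hp act start k0 g P x y k (t + 1) = hp act start k0 g P x y k t ∧
      (run act start k0 g x y (t + 1)).stk k = []) ∧
    (¬mv act (run act start k0 g x y t).s k →
      hp act start k0 g P x y k (t + 1) = hp act start k0 g P x y k t ∧
      (run act start k0 g x y (t + 1)).stk k = (run act start k0 g x y t).stk k) := by
  have h1 := hb t k
  have h2 := hb (t + 1) k
  set c := run act start k0 g x y t with hc
  have hs : run act start k0 g x y (t + 1) = mstep act c := run_succ _ _ _ _ _ _ _
  refine ⟨?_, ?_, ?_, ?_⟩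
  · intro γ s' h
    have e : (mstep act c).stk k = γ :: c.stk k := by simp [mstep, h]
    have e2 : (run act start k0 g x y (t + 1)).stk k = γ :: c.stk k := by rw [hs, e]
    refine ⟨?_, e2⟩
    unfold hp
    rw [e2] at h2 ⊢
    rw [← hc]
    simp only [List.length_cons] at h2 ⊢
    omega
  · intro next h γ l hl
    have e : (mstep act c).stk k = l := by simp [mstep, h, hl]
    have e2 : (run act start k0 g x y (t + 1)).stk k = l := by rw [hs, e]
    refine ⟨?_, e2⟩
    unfold hp
    rw [e2, ← hc, hl]
    rw [hl] at h1
    simp only [List.length_cons] at h1 ⊢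
    omega
  · intro next h hl
    have e : (mstep act c).stk k = [] := by simp [mstep, h, hl]
    have e2 : (run act start k0 g x y (t + 1)).stk k = [] := by rw [hs, e]
    refine ⟨?_, e2⟩
    unfold hp
    rw [e2, ← hc, hl]
  · intro h
    have e : (mstep act c).stk k = c.stk k := by
      unfold mstep
      split
      · rfl
      · rename_i j γ s' hj
        have : k ≠ j := by
          rintro rfl
          exact h (Or.inl ⟨γ, s', hj⟩)
        simp [update_of_ne this]
      · rename_i j pop next hj
        cases pop
        · simp
        · have : k ≠ j := by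
            rintro rfl
            exact h (Or.inr ⟨next, hj⟩)
          simp [update_of_ne this]
    have e2 : (run act start k0 g x y (t + 1)).stk k = c.stk k := by rw [hs, e]
    refine ⟨?_, e2⟩
    unfold hp
    rw [e2, ← hc]

theorem next_s (t : ℕ) : (run act start k0 g x y (t + 1)).s =
    match act (run act start k0 g x y t).s with
    | .jump s' => s'
    | .push _ _ s' => s'
    | .read k _ next => next ((run act start k0 g x y t).stk k).head? := by
  rw [run_succ]
  unfold mstep
  split <;> simp_all

theorem fire {M : ℕ} {A : GW → ℕ → Prop} {cs : List (Sc K Γ S)}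
    {α : VT K Γ S → ℕ → ℕ → Bool} (h : SatBy M A cs α) (neg : List (VT K Γ S × Sh))
    {v : VT K Γ S} {d : Sh}
    (hc : (⟨neg.map (fun p => nl p.1 p.2) ++ [pl v d], none⟩ : Sc K Γ S) ∈ cs) {t i : ℕ}
    (ht : t + 1 < M) (hi : i < M) (hs : (d = .succ ∨ ∃ p ∈ neg, p.2 = .succ) → i + 1 < M)
    (hneg : ∀ p ∈ neg, α p.1 t (p.2.at i) = true) : α v (t + 1) (d.at i) = true := by
  obtain ⟨l, hl, hsat⟩ := h _ hc t (by omega) i hi ⟨fun _ => ht, fun hx => hs (by
    simp only [List.any_append, List.any_map, List.any_cons, List.any_nil, Bool.or_false,
      Bool.or_eq_true, List.any_eq_true, Function.comp, nl, pl, decide_eq_true_eq] at hx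
    rcases hx with ⟨p, hp, hp2⟩ | hx
    · exact Or.inr ⟨p, hp, hp2⟩
    · exact Or.inl hx), fun w hw => by simp at hw⟩
  simp only [List.mem_append, List.mem_map, List.mem_singleton] at hl
  rcases hl with ⟨p, hp, rfl⟩ | rfl
  · have h1 := hneg p hp
    simp only [Lt.sat, nl, Bool.toNat_false, Nat.add_zero] at hsat
    rw [h1] at hsat
    exact absurd hsat (by simp)
  · simpa [Lt.sat, pl] using hsat

/-- The facts about time `t` forced by the schemes. -/
def Facts (act : S → Act K Γ S) (start : S) (k0 : K) (g : Bool ⊕ Bool → Γ k0) (P : ℕ)
    (x y : List Bool) (M : ℕ) (α : VT K Γ S → ℕ → ℕ → Bool) (t : ℕ) : Prop :=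
  α (.st (run act start k0 g x y t).s) t 0 = true ∧
  ∀ k, α (.hd k) t (hp act start k0 g P x y k t) = true ∧
    ∀ i < M, hp act start k0 g P x y k t ≤ i →
      α (.ce k (((run act start k0 g x y t).stk k)[i - hp act start k0 g P x y k t]?)) t i = true

theorem mem_state {rej : S} {c : Sc K Γ S} (s : S)
    (h : c ∈ stS act s ∨ c ∈ puS act s ∨ c ∈ poS act s ∨ ∃ k, c ∈ hdS act s k ∨ c ∈ ceS act s k) :
    c ∈ schemes act start rej k0 g := by
  unfold schemes
  refine List.mem_cons_of_mem _ (List.mem_append.2 (Or.inr ?_))
  rw [List.mem_flatMap]
  refine ⟨s, Finset.mem_toList.2 (Finset.mem_univ s), ?_⟩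
  simp only [List.mem_append, List.mem_flatMap, Finset.mem_toList, Finset.mem_univ, true_and]
  exact h

theorem facts_succ {rej : S} {M : ℕ} {A : GW → ℕ → Prop} {α : VT K Γ S → ℕ → ℕ → Bool}
    (h : SatBy M A (schemes act start rej k0 g) α)
    (hb : ∀ t k, ((run act start k0 g x y t).stk k).length ≤
      P + ((c0 start k0 g x y).stk k).length)
    (hM : ∀ k, P + ((c0 start k0 g x y).stk k).length < M) {t : ℕ} (ht : t + 1 < M)
    (hF : Facts act start k0 g P x y M α t) :
    Facts act start k0 g P x y M α (t + 1) := by
  classical
  obtain ⟨f1, f2⟩ := hF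
  have hM0 : 0 < M := by omega
  have hhp : ∀ k t, hp act start k0 g P x y k t < M := fun k t => by
    unfold hp; have := hM k; omega
  set s := (run act start k0 g x y t).s with hs
  have hcell : ∀ k, α (.ce k (((run act start k0 g x y t).stk k).head?)) t
      (hp act start k0 g P x y k t) = true := by
    intro k
    have := (f2 k).2 _ (hhp k t) le_rfl
    rw [Nat.sub_self] at this
    rw [List.head?_eq_getElem?]
    exact this
  refine ⟨?_, fun k => ?_⟩
  · rw [next_s]
    cases hact : act s with
    | jump s' =>
      refine fire h [(.st s, .zero)] (v := .st s') (d := .zero) (i := 0) (mem_state s (Or.inl ?_))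
        ht hM0 (by simp) ?_
      · simp [stS, hact]
      · simpa [Sh.at] using f1
    | push k γ s' =>
      refine fire h [(.st s, .zero)] (v := .st s') (d := .zero) (i := 0) (mem_state s (Or.inl ?_))
        ht hM0 (by simp) ?_
      · simp [stS, hact]
      · simpa [Sh.at] using f1
    | read k pop next =>
      refine fire h [(.st s, .zero), (.hd k, .same),
        (.ce k ((run act start k0 g x y t).stk k).head?, .same)]
        (v := .st (next ((run act start k0 g x y t).stk k).head?)) (d := .zero)
        (i := hp act start k0 g P x y k t) (mem_state s (Or.inl ?_)) ht (hhp k t) (by simp) ?_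
      · simp only [stS, hact, List.mem_map, Finset.mem_toList, Finset.mem_univ, true_and]
        exact ⟨_, rfl⟩
      · simp only [List.mem_cons, List.not_mem_nil, or_false, forall_eq_or_imp, forall_eq, Sh.at]
        exact ⟨f1, (f2 k).1, hcell k⟩
  · obtain ⟨g1, g2, g3, g4⟩ := change hb t k
    rw [← hs] at g1 g2 g3 g4
    by_cases hm : mv act s k
    · rcases hm with ⟨γ, s', hact⟩ | ⟨next, hact⟩
      · obtain ⟨e1, e2⟩ := g1 γ s' hact
        have hnp : ¬pops act s k := by
          rintro ⟨nx, hn⟩
          rw [hact] at hn
          exact absurd hn (by simp)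
        refine ⟨?_, fun i hi hle => ?_⟩
        · refine fire h [(.st s, .zero), (.hd k, .succ)] (v := .hd k) (d := .same)
            (i := hp act start k0 g P x y k (t + 1)) (mem_state s (Or.inr (Or.inl ?_))) ht
            (hhp k _) (fun _ => by have := hhp k t; omega) ?_
          · simp [puS, hact]
          · simp only [List.mem_cons, List.not_mem_nil, or_false, forall_eq_or_imp, forall_eq,
              Sh.at]
            exact ⟨f1, by rw [← e1]; exact (f2 k).1⟩
        · rw [e2]
          rcases Nat.eq_or_lt_of_le hle with heq | hlt
          · subst heq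
            rw [Nat.sub_self]
            refine fire h [(.st s, .zero), (.hd k, .succ)] (v := .ce k (some γ)) (d := .same)
              (i := hp act start k0 g P x y k (t + 1)) (mem_state s (Or.inr (Or.inl ?_))) ht
              (hhp k _) (fun _ => by have := hhp k t; omega) ?_
            · simp [puS, hact]
            · simp only [List.mem_cons, List.not_mem_nil, or_false, forall_eq_or_imp, forall_eq,
                Sh.at]
              exact ⟨f1, by rw [← e1]; exact (f2 k).1⟩
          · have h3 := (f2 k).2 i hi (by omega)
            have h4 : (γ :: (run act start k0 g x y t).stk k)[i -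
                hp act start k0 g P x y k (t + 1)]? =
                ((run act start k0 g x y t).stk k)[i - hp act start k0 g P x y k t]? := by
              rw [show i - hp act start k0 g P x y k (t + 1) =
                (i - hp act start k0 g P x y k t) + 1 by omega, List.getElem?_cons_succ]
            rw [h4]
            set o := ((run act start k0 g x y t).stk k)[i - hp act start k0 g P x y k t]? with ho
            refine fire h [(.st s, .zero), (.ce k o, .same)] (v := .ce k o) (d := .same)
              (i := i) (mem_state s (Or.inr (Or.inr (Or.inr ⟨k, Or.inr ?_⟩)))) ht hi (by simp) ?_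
            · simp only [ceS, hnp, if_false, List.mem_map, Finset.mem_toList, Finset.mem_univ,
                true_and]
              exact ⟨_, rfl⟩
            · simp only [List.mem_cons, List.not_mem_nil, or_false, forall_eq_or_imp, forall_eq,
                Sh.at]
              exact ⟨f1, h3⟩
      · cases hl : (run act start k0 g x y t).stk k with
        | nil =>
          obtain ⟨e1, e2⟩ := g3 next hact hl
          have hc0 := hcell k
          rw [hl, List.head?_nil] at hc0
          rw [e1, e2]
          refine ⟨?_, fun i hi hle => ?_⟩
          · refine fire h [(.st s, .zero), (.hd k, .same), (.ce k none, .same)] (v := .hd k)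
              (d := .same) (i := hp act start k0 g P x y k t)
              (mem_state s (Or.inr (Or.inr (Or.inl ?_)))) ht (hhp k _) (by simp) ?_
            · simp [poS, hact]
            · simp only [List.mem_cons, List.not_mem_nil, or_false, forall_eq_or_imp, forall_eq,
                Sh.at]
              exact ⟨f1, (f2 k).1, hc0⟩
          · rcases Nat.eq_or_lt_of_le hle with heq | hlt
            · subst heq
              refine fire h [(.st s, .zero), (.hd k, .same), (.ce k none, .same)]
                (v := .ce k none) (d := .same) (i := hp act start k0 g P x y k t)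
                (mem_state s (Or.inr (Or.inr (Or.inl ?_)))) ht (hhp k _) (by simp) ?_
              · simp [poS, hact]
              · simp only [List.mem_cons, List.not_mem_nil, or_false, forall_eq_or_imp,
                  forall_eq, Sh.at]
                exact ⟨f1, (f2 k).1, hc0⟩
            · obtain ⟨j, rfl⟩ : ∃ j, i = j + 1 := ⟨i - 1, by omega⟩
              have h3 := (f2 k).2 (j + 1) hi (by omega)
              have h5 := (f2 k).2 j (by omega) (by omega)
              rw [hl] at h3 h5
              simp only [List.getElem?_nil] at h3 h5 ⊢
              refine fire h [(.st s, .zero), (.ce k none, .same), (.ce k none, .succ)]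
                (v := .ce k none) (d := .succ) (i := j)
                (mem_state s (Or.inr (Or.inr (Or.inl ?_)))) ht (by omega) (fun _ => hi) ?_
              · simp only [poS, hact, List.mem_append, List.mem_map, Finset.mem_toList,
                  Finset.mem_univ, true_and]
                exact Or.inr (Or.inr ⟨(none, none), rfl⟩)
              · simp only [List.mem_cons, List.not_mem_nil, or_false, forall_eq_or_imp,
                  forall_eq, Sh.at]
                exact ⟨f1, h5, h3⟩
        | cons γ l =>
          obtain ⟨e1, e2⟩ := g2 next hact γ l hl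
          have hc0 := hcell k
          rw [hl, List.head?_cons] at hc0
          refine ⟨?_, fun i hi hle => ?_⟩
          · rw [e1]
            refine fire h [(.st s, .zero), (.hd k, .same), (.ce k (some γ), .same)] (v := .hd k)
              (d := .succ) (i := hp act start k0 g P x y k t)
              (mem_state s (Or.inr (Or.inr (Or.inl ?_)))) ht (hhp k _)
              (fun _ => by have := hhp k (t + 1); omega) ?_
            · simp only [poS, hact, List.mem_append, List.mem_map, Finset.mem_toList,
                Finset.mem_univ, true_and]
              exact Or.inl ⟨γ, rfl⟩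
            · simp only [List.mem_cons, List.not_mem_nil, or_false, forall_eq_or_imp, forall_eq,
                Sh.at]
              exact ⟨f1, (f2 k).1, hc0⟩
          · rw [e2]
            obtain ⟨j, rfl⟩ : ∃ j, i = j + 1 := ⟨i - 1, by omega⟩
            have h3 := (f2 k).2 (j + 1) hi (by omega)
            have h5 := (f2 k).2 j (by omega) (by omega)
            rw [hl] at h3 h5
            have h6 : (γ :: l)[j + 1 - hp act start k0 g P x y k t]? =
                l[j + 1 - hp act start k0 g P x y k (t + 1)]? := by
              rw [show j + 1 - hp act start k0 g P x y k t =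
                (j + 1 - hp act start k0 g P x y k (t + 1)) + 1 by omega,
                List.getElem?_cons_succ]
            rw [h6] at h3
            set o := l[j + 1 - hp act start k0 g P x y k (t + 1)]? with ho
            set o' := (γ :: l)[j - hp act start k0 g P x y k t]? with ho'
            refine fire h [(.st s, .zero), (.ce k o', .same), (.ce k o, .succ)]
              (v := .ce k o) (d := .succ) (i := j)
              (mem_state s (Or.inr (Or.inr (Or.inl ?_)))) ht (by omega) (fun _ => hi) ?_
            · simp only [poS, hact, List.mem_append, List.mem_map, Finset.mem_toList,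
                Finset.mem_univ, true_and]
              exact Or.inr (Or.inr ⟨(o', o), rfl⟩)
            · simp only [List.mem_cons, List.not_mem_nil, or_false, forall_eq_or_imp,
                forall_eq, Sh.at]
              exact ⟨f1, h5, h3⟩
    · obtain ⟨e1, e2⟩ := g4 hm
      have hnp : ¬pops act s k := fun hp => hm (Or.inr hp)
      rw [e1, e2]
      refine ⟨?_, fun i hi hle => ?_⟩
      · refine fire h [(.st s, .zero), (.hd k, .same)] (v := .hd k) (d := .same)
          (i := hp act start k0 g P x y k t)
          (mem_state s (Or.inr (Or.inr (Or.inr ⟨k, Or.inl ?_⟩)))) ht (hhp k _) (by simp) ?_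
        · simp [hdS, hm]
        · simp only [List.mem_cons, List.not_mem_nil, or_false, forall_eq_or_imp, forall_eq,
            Sh.at]
          exact ⟨f1, (f2 k).1⟩
      · have h3 := (f2 k).2 i hi hle
        set o := ((run act start k0 g x y t).stk k)[i - hp act start k0 g P x y k t]? with ho
        refine fire h [(.st s, .zero), (.ce k o, .same)] (v := .ce k o) (d := .same)
          (i := i) (mem_state s (Or.inr (Or.inr (Or.inr ⟨k, Or.inr ?_⟩)))) ht hi (by simp) ?_
        · simp only [ceS, hnp, if_false, List.mem_map, Finset.mem_toList, Finset.mem_univ,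
            true_and]
          exact ⟨_, rfl⟩
        · simp only [List.mem_cons, List.not_mem_nil, or_false, forall_eq_or_imp, forall_eq,
            Sh.at]
          exact ⟨f1, h3⟩

/-! ### From satisfying assignments to runs -/

theorem facts_zero {rej : S} {M E : ℕ} {α : VT K Γ S → ℕ → ℕ → Bool}
    (h : SatBy M (Am P E x) (schemes act start rej k0 g) α)
    (hM : P < M)
    (hyv : ∀ j, P + x.length + j < M →
      α (.ce k0 ((y[j]?).map fun b => g (.inr b))) 0 (P + x.length + j) = true) :
    Facts act start k0 g P x y M α 0 := by
  classical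
  have hM0 : 0 < M := by omega
  have hin : ∀ c ∈ inS (S := S) start k0 g, c ∈ schemes act start rej k0 g := fun c hc => by
    unfold schemes
    exact List.mem_cons_of_mem _ (List.mem_append.2 (Or.inl hc))
  have fire0 : ∀ (v : VT K Γ S) (d : Sh) (w : GW) (i : ℕ), d ≠ .succ →
      (⟨[il v d], some w⟩ : Sc K Γ S) ∈ inS start k0 g → i < M → Am P E x w i →
      α v 0 (d.at i) = true := by
    intro v d w i hd hc hi hA
    obtain ⟨l, hl, hs⟩ := h _ (hin _ hc) 0 hM0 i hi ⟨fun hx => by simp [il] at hx,
      fun hx => by simp [il, hd] at hx, fun w' hw' => by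
        simp only [Option.some.injEq] at hw'
        subst hw'
        exact ⟨rfl, hA⟩⟩
    simp only [List.mem_singleton] at hl
    subst hl
    simpa [Lt.sat, il] using hs
  have hhp : ∀ k, hp act start k0 g P x y k 0 = P := fun k => by
    unfold hp; rw [run_zero]; omega
  refine ⟨?_, fun k => ⟨?_, fun i hi hle => ?_⟩⟩
  · have := fire0 (.st start) .zero .ptr P (by simp) (by simp [inS]) (by omega) rfl
    exact this
  · have := fire0 (.hd k) .same .ptr P (by simp) (by
      simp only [inS, List.mem_append, List.mem_map, Finset.mem_toList, Finset.mem_univ,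
        true_and]
      exact Or.inl (Or.inr ⟨k, rfl⟩)) (by omega) rfl
    rw [hhp]
    exact this
  · rw [hhp] at hle ⊢
    rw [run_zero]
    by_cases hk : k = k0
    · subst hk
      simp only [c0, update_self, List.getElem?_map]
      rcases Nat.lt_or_ge i (P + x.length) with h1 | h1
      · obtain ⟨j, rfl⟩ := Nat.exists_eq_add_of_le hle
        rw [Nat.add_sub_cancel_left]
        have hj : j < x.length := by omega
        rw [List.getElem?_append_left (by simpa using hj), List.getElem?_map,
          List.getElem?_eq_getElem hj]
        simp only [Option.map_some]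
        cases hx : x[j] with
        | false =>
          exact fire0 (.ce k (some (g (.inl false)))) .same .in0 _ (by simp) (by simp [inS]) hi
            ⟨j, rfl, by rw [List.getElem?_eq_getElem hj, hx]⟩
        | true =>
          exact fire0 (.ce k (some (g (.inl true)))) .same .in1 _ (by simp) (by simp [inS]) hi
            ⟨j, rfl, by rw [List.getElem?_eq_getElem hj, hx]⟩
      · obtain ⟨j, rfl⟩ := Nat.exists_eq_add_of_le h1
        rw [List.getElem?_append_right (by simp; omega), List.getElem?_map, List.length_map,
          show P + x.length + j - P - x.length = j by omega, Option.map_map]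
        exact hyv j hi
    · simp only [c0, update_of_ne hk, List.getElem?_nil]
      exact fire0 (.ce k none) .same .bel i (by simp) (by
        simp only [inS, List.mem_append, List.mem_map, Finset.mem_toList, Finset.mem_filter,
          Finset.mem_univ, true_and]
        exact Or.inr ⟨k, hk, rfl⟩) hi hle

end Run

variable {act : S → Act K Γ S} {start acc rej : S} {k0 : K} {g : Bool ⊕ Bool → Γ k0} {P : ℕ}
  {x : List Bool}

theorem len_bound {T : ℕ} (hT : T ≤ P) {y : List Bool} {r : S} {stk : ∀ k, List (Γ k)}
    (hv : ∃ n ≤ T, ∀ n' ≥ n, run act start k0 g x y n' = ⟨r, stk⟩) (t : ℕ) (k : K) :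
    ((run act start k0 g x y t).stk k).length ≤ P + ((c0 start k0 g x y).stk k).length := by
  obtain ⟨n, hn, h⟩ := hv
  rcases Nat.lt_or_ge t n with h1 | h1
  · have := miter_len act (c0 start k0 g x y) k t
    unfold run
    omega
  · have h2 := miter_len act (c0 start k0 g x y) k n
    have h3 := h t h1
    have h4 := h n le_rfl
    rw [h3]
    rw [show (mstep act)^[n] (c0 start k0 g x y) = run act start k0 g x y n from rfl, h4] at h2
    simp only at h2 ⊢
    omega

theorem sound {M E T : ℕ} (b : List Bool → Bool) (hE : P + x.length ≤ E) (hM : E < M)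
    (hT : T ≤ P)
    (hv : ∀ y : List Bool, P + x.length + y.length ≤ E → ∃ stk, ∃ n ≤ T, ∀ n' ≥ n,
      run act start k0 g x y n' = ⟨if b y then acc else rej, stk⟩)
    {α : VT K Γ S → ℕ → ℕ → Bool}
    (h : SatBy M (Am P E x) (schemes act start rej k0 g) α) :
    ∃ y : List Bool, P + x.length + y.length ≤ E ∧ b y = true := by
  classical
  have hin : ∀ c ∈ inS (S := S) start k0 g, c ∈ schemes act start rej k0 g := fun c hc => by
    unfold schemes
    exact List.mem_cons_of_mem _ (List.mem_append.2 (Or.inl hc))
  have hemp : ∀ i, E ≤ i → i < M → α (.ce k0 none) 0 i = true := by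
    intro i h1 h2
    obtain ⟨l, hl, hs⟩ := h ⟨[il (.ce k0 none) .same], some .emp⟩ (hin _ (by simp [inS]))
      0 (by omega) i h2 ⟨fun hx => by simp [il] at hx, fun hx => by simp [il] at hx,
        fun w' hw' => by
          simp only [Option.some.injEq] at hw'
          subst hw'
          exact ⟨rfl, h1⟩⟩
    simp only [List.mem_singleton] at hl
    subst hl
    simpa [Lt.sat, il, Sh.at] using hs
  have hprop : ∀ i, P + x.length ≤ i → i < E → α (.ce k0 none) 0 i = true →
      α (.ce k0 none) 0 (i + 1) = true := by
    intro i h1 h2 h3
    obtain ⟨l, hl, hs⟩ := h ⟨[nl (.ce k0 none) .same, il (.ce k0 none) .succ], some .gue⟩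
      (hin _ (by simp [inS])) 0 (by omega) i (by omega)
      ⟨fun hx => by simp [il, nl] at hx, fun _ => by omega,
        fun w' hw' => by
          simp only [Option.some.injEq] at hw'
          subst hw'
          exact ⟨rfl, h1, h2⟩⟩
    simp only [List.mem_cons, List.not_mem_nil, or_false] at hl
    rcases hl with rfl | rfl
    · simp only [Lt.sat, nl, Sh.at, Bool.toNat_false, Nat.add_zero] at hs
      rw [h3] at hs
      exact absurd hs (by simp)
    · simpa [Lt.sat, il, Sh.at] using hs
  have hgue : ∀ i, P + x.length ≤ i → i < E → α (.ce k0 none) 0 i = false →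
      α (.ce k0 (some (g (.inr (α (.ce k0 (some (g (.inr true)))) 0 i))))) 0 i = true := by
    intro i h1 h2 h3
    obtain ⟨l, hl, hs⟩ := h ⟨[il (.ce k0 none) .same, il (.ce k0 (some (g (.inr false)))) .same,
      il (.ce k0 (some (g (.inr true)))) .same], some .gue⟩
      (hin _ (by simp [inS])) 0 (by omega) i (by omega)
      ⟨fun hx => by simp [il] at hx, fun hx => by simp [il] at hx,
        fun w' hw' => by
          simp only [Option.some.injEq] at hw'
          subst hw'
          exact ⟨rfl, h1, h2⟩⟩
    simp only [List.mem_cons, List.not_mem_nil, or_false] at hl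
    cases hc : α (.ce k0 (some (g (.inr true)))) 0 i with
    | true => exact hc
    | false =>
      rcases hl with rfl | rfl | rfl
      · simp only [Lt.sat, il, Sh.at, Bool.toNat_false, Nat.add_zero] at hs
        rw [h3] at hs
        exact absurd hs (by simp)
      · simpa [Lt.sat, il, Sh.at] using hs
      · simp only [Lt.sat, il, Sh.at, Bool.toNat_false, Nat.add_zero] at hs
        rw [hc] at hs
        exact absurd hs (by simp)
  have hex : ∃ j, E ≤ P + x.length + j ∨ α (.ce k0 none) 0 (P + x.length + j) = true :=
    ⟨E, Or.inl (by omega)⟩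
  set r := Nat.find hex with hr
  have hr1 := Nat.find_spec hex
  rw [← hr] at hr1
  have hr2 : ∀ j < r, P + x.length + j < E ∧ α (.ce k0 none) 0 (P + x.length + j) = false := by
    intro j hj
    have := Nat.find_min hex hj
    rw [not_or] at this
    exact ⟨by omega, by simpa using this.2⟩
  have hrE : P + x.length + r ≤ E := by
    rcases Nat.eq_zero_or_pos r with h0 | h0
    · omega
    · have := (hr2 (r - 1) (by omega)).1
      omega
  have hr3 : ∀ j, r ≤ j → P + x.length + j < M →
      α (.ce k0 none) 0 (P + x.length + j) = true := by
    intro j hj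
    induction j, hj using Nat.le_induction with
    | base =>
      intro hlt
      rcases hr1 with h1 | h1
      · exact hemp _ h1 hlt
      · exact h1
    | succ j hj ih =>
      intro hlt
      rcases Nat.lt_or_ge (P + x.length + j) E with h1 | h1
      · exact hprop (P + x.length + j) (by omega) h1 (ih (by omega))
      · exact hemp _ (by omega) hlt
  set y : List Bool := (List.range r).map fun j =>
    α (.ce k0 (some (g (.inr true)))) 0 (P + x.length + j) with hy
  have hyl : y.length = r := by simp [hy]
  refine ⟨y, by omega, ?_⟩
  obtain ⟨stk, n, hn, hv⟩ := hv y (by omega)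
  have hb := len_bound hT ⟨n, hn, hv⟩
  have hlen : ∀ k, P + ((c0 (S := S) start k0 g x y).stk k).length ≤ E := by
    intro k
    by_cases hk : k = k0
    · subst hk; simp [c0, hyl]; omega
    · simp [c0, update_of_ne hk]; omega
  have hF : ∀ t < M, Facts act start k0 g P x y M α t := by
    intro t
    induction t with
    | zero =>
      intro _
      refine facts_zero h (by omega) fun j hj => ?_
      rcases Nat.lt_or_ge j r with h1 | h1
      · have hyj : y[j]? = some (α (.ce k0 (some (g (.inr true)))) 0 (P + x.length + j)) := by
          rw [hy]; simp [h1]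
        rw [hyj]
        obtain ⟨h2, h3⟩ := hr2 j h1
        exact hgue _ (by omega) h2 h3
      · rw [List.getElem?_eq_none (by omega)]
        exact hr3 j h1 hj
    | succ t ih =>
      intro ht
      exact facts_succ h hb (fun k => by have := hlen k; omega) ht (ih (by omega))
  by_contra hby
  have h1 := (hF T (by omega)).1
  rw [hv T hn] at h1
  simp only [hby, Bool.false_eq_true, if_false] at h1
  have hmem : (⟨[nl (.st rej) .zero], none⟩ : Sc K Γ S) ∈ schemes act start rej k0 g := by
    unfold schemes; exact List.mem_cons_self
  obtain ⟨l, hl, hs⟩ := h _ hmem T (by omega) 0 (by omega)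
    ⟨fun hx => by simp [nl] at hx, fun hx => by simp [nl] at hx, fun w' hw' => by
      simp at hw'⟩
  simp only [List.mem_singleton] at hl
  subst hl
  simp only [Lt.sat, nl, Sh.at, Bool.toNat_false, Nat.add_zero] at hs
  rw [h1] at hs
  exact absurd hs (by simp)

/-! ### From runs to satisfying assignments -/

section Complete

variable (act start k0 g P x)

open Classical in
/-- The assignment describing a run. -/
noncomputable def asg (y : List Bool) : VT K Γ S → ℕ → ℕ → Bool
  | .inl s, t, _ => decide ((run act start k0 g x y t).s = s)
  | .inr (.inl k), t, i => decide (hp act start k0 g P x y k t = i)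
  | .inr (.inr (.inl p)), t, i => decide (hp act start k0 g P x y p.1 t ≤ i ∧
      ((run act start k0 g x y t).stk p.1)[i - hp act start k0 g P x y p.1 t]? = p.2)
  | .inr (.inr (.inr _)), _, _ => true

variable {act start k0 g P x}

theorem asg_st (y : List Bool) (s : S) (t i : ℕ) :
    asg act start k0 g P x y (.st s) t i = true ↔ (run act start k0 g x y t).s = s := by
  simp [asg]

theorem asg_hd (y : List Bool) (k : K) (t i : ℕ) :
    asg act start k0 g P x y (.hd k) t i = true ↔ hp act start k0 g P x y k t = i := by
  simp [asg]

theorem asg_ce (y : List Bool) (k : K) (o : Option (Γ k)) (t i : ℕ) :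
    asg act start k0 g P x y (.ce k o) t i = true ↔ hp act start k0 g P x y k t ≤ i ∧
      ((run act start k0 g x y t).stk k)[i - hp act start k0 g P x y k t]? = o := by
  simp [asg]

/-- A clause with a single positive literal holds if the negative ones imply it. -/
theorem hold {α : VT K Γ S → ℕ → ℕ → Bool} (neg : List (VT K Γ S × Sh)) (v : VT K Γ S) (d : Sh)
    (t i : ℕ) (h : (∀ p ∈ neg, α p.1 t (p.2.at i) = true) → α v (t + 1) (d.at i) = true) :
    ∃ l ∈ (⟨neg.map (fun p => nl p.1 p.2) ++ [pl v d], none⟩ : Sc K Γ S).lits, l.sat α t i := by
  by_cases hn : ∀ p ∈ neg, α p.1 t (p.2.at i) = true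
  · exact ⟨pl v d, by simp, h hn⟩
  · push Not at hn
    obtain ⟨p, hp, hf⟩ := hn
    refine ⟨nl p.1 p.2, List.mem_append.2 (Or.inl (List.mem_map.2 ⟨p, hp, rfl⟩)), ?_⟩
    simpa [Lt.sat, nl] using hf

theorem complete {M E T : ℕ} (hrej : act rej = .jump rej) (hne : acc ≠ rej)
    (hT : T ≤ P) {y : List Bool} (hyl : P + x.length + y.length ≤ E) {stk : ∀ k, List (Γ k)}
    (hv : ∃ n ≤ T, ∀ n' ≥ n, run act start k0 g x y n' = ⟨acc, stk⟩) :
    SatBy M (Am P E x) (schemes act start rej k0 g) (asg act start k0 g P x y) := by
  classical
  have hb := len_bound hT hv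
  have hrejs : ∀ t, (run act start k0 g x y t).s ≠ rej := by
    obtain ⟨n, -, hn⟩ := hv
    intro t ht
    have hstay : ∀ m, (run act start k0 g x y (t + m)).s = rej := by
      intro m
      induction m with
      | zero => exact ht
      | succ m ih =>
        rw [← Nat.add_assoc, next_s, ih, hrej]
    have h1 := hstay n
    rw [hn (t + n) (by omega)] at h1
    exact hne h1
  have hhp0 : ∀ k, hp act start k0 g P x y k 0 = P := fun k => by
    unfold hp; rw [run_zero]; omega
  have hcell : ∀ j, asg act start k0 g P x y (.ce k0 ((y[j]?).map fun b => g (.inr b))) 0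
      (P + x.length + j) = true := by
    intro j
    rw [asg_ce, hhp0, run_zero]
    refine ⟨by omega, ?_⟩
    rw [show P + x.length + j - P = x.length + j by omega]
    simp only [c0, update_self, List.getElem?_map]
    rw [List.getElem?_append_right (by simp)]
    simp [Option.map_map, Function.comp_def]
  intro c hc t _ i _ hok
  unfold schemes at hc
  simp only [List.mem_cons, List.mem_append, List.mem_flatMap, Finset.mem_toList,
    Finset.mem_univ, true_and] at hc
  rcases hc with rfl | hc | ⟨s, hc⟩
  · refine ⟨nl (.st rej) .zero, by simp, ?_⟩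
    simp only [Lt.sat, nl]
    rw [Bool.eq_false_iff, Ne, asg_st]
    exact hrejs _
  · -- initial schemes
    obtain ⟨-, -, hA⟩ := hok
    simp only [inS, List.mem_append, List.mem_cons, List.not_mem_nil, or_false, List.mem_map,
      Finset.mem_toList, Finset.mem_univ, Finset.mem_filter, true_and] at hc
    rcases hc with (((rfl | rfl | rfl | rfl | rfl | rfl) | ⟨k, rfl⟩) | ⟨k, hk, rfl⟩)
    · obtain ⟨rfl, hi⟩ := hA _ rfl
      refine ⟨_, List.mem_singleton_self _, ?_⟩
      simp only [Lt.sat, il, Bool.toNat_false, Nat.add_zero]
      rw [asg_st, run_zero]; rfl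
    · obtain ⟨rfl, j, rfl, hj⟩ := hA _ rfl
      refine ⟨_, List.mem_singleton_self _, ?_⟩
      simp only [Lt.sat, il, Bool.toNat_false, Nat.add_zero, Sh.at]
      rw [asg_ce, hhp0, run_zero]
      refine ⟨by omega, ?_⟩
      have hjl : j < x.length := by
        rw [List.getElem?_eq_some_iff] at hj; exact hj.1
      have hxj := (List.getElem?_eq_some_iff.1 hj).2
      rw [Nat.add_sub_cancel_left]
      simp [c0, List.getElem?_append_left, hjl, hxj]
    · obtain ⟨rfl, j, rfl, hj⟩ := hA _ rfl
      refine ⟨_, List.mem_singleton_self _, ?_⟩
      simp only [Lt.sat, il, Bool.toNat_false, Nat.add_zero, Sh.at]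
      rw [asg_ce, hhp0, run_zero]
      refine ⟨by omega, ?_⟩
      have hjl : j < x.length := by
        rw [List.getElem?_eq_some_iff] at hj; exact hj.1
      have hxj := (List.getElem?_eq_some_iff.1 hj).2
      rw [Nat.add_sub_cancel_left]
      simp [c0, List.getElem?_append_left, hjl, hxj]
    · obtain ⟨rfl, h1, h2⟩ := hA _ rfl
      obtain ⟨j, rfl⟩ := Nat.exists_eq_add_of_le h1
      have key := hcell j
      cases hyj : y[j]? with
      | none =>
        rw [hyj] at key
        exact ⟨il (.ce k0 none) .same, by simp, by
          simpa [Lt.sat, il, Sh.at] using key⟩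
      | some bb =>
        rw [hyj] at key
        cases bb with
        | false =>
          exact ⟨il (.ce k0 (some (g (.inr false)))) .same, by simp, by
            simpa [Lt.sat, il, Sh.at] using key⟩
        | true =>
          exact ⟨il (.ce k0 (some (g (.inr true)))) .same, by simp, by
            simpa [Lt.sat, il, Sh.at] using key⟩
    · obtain ⟨rfl, h1, h2⟩ := hA _ rfl
      obtain ⟨j, rfl⟩ := Nat.exists_eq_add_of_le h1
      have key := hcell j
      have key2 := hcell (j + 1)
      cases hyj : y[j]? with
      | none =>
        rw [List.getElem?_eq_none (by rw [List.getElem?_eq_none_iff] at hyj; omega),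
          ← Nat.add_assoc] at key2
        exact ⟨il (.ce k0 none) .succ, by simp, by
          simpa [Lt.sat, il, Sh.at] using key2⟩
      | some bb =>
        refine ⟨nl (.ce k0 none) .same, by simp, ?_⟩
        simp only [Lt.sat, nl, Bool.toNat_false, Nat.add_zero, Sh.at]
        rw [Bool.eq_false_iff, Ne, asg_ce]
        rw [hyj, asg_ce] at key
        rintro ⟨-, h3⟩
        rw [h3] at key
        exact absurd key.2 (by simp)
    · obtain ⟨rfl, h1⟩ := hA _ rfl
      refine ⟨_, List.mem_singleton_self _, ?_⟩
      simp only [Am] at h1
      simp only [Lt.sat, il, Bool.toNat_false, Nat.add_zero, Sh.at]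
      rw [asg_ce, hhp0, run_zero]
      refine ⟨by omega, ?_⟩
      simp only [c0, update_self]
      rw [List.getElem?_eq_none]
      simp
      omega
    · obtain ⟨rfl, h1⟩ := hA _ rfl
      refine ⟨_, List.mem_singleton_self _, ?_⟩
      simp only [Am] at h1
      simp only [Lt.sat, il, Bool.toNat_false, Nat.add_zero, Sh.at]
      rw [asg_hd, hhp0, h1]
    · obtain ⟨rfl, h1⟩ := hA _ rfl
      refine ⟨_, List.mem_singleton_self _, ?_⟩
      simp only [Am] at h1
      simp only [Lt.sat, il, Bool.toNat_false, Nat.add_zero, Sh.at]
      rw [asg_ce, hhp0, run_zero]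
      exact ⟨h1, by simp [c0, update_of_ne hk]⟩
  · -- step schemes
    have hnext := next_s (act := act) (start := start) (k0 := k0) (g := g) (x := x) (y := y) t
    rcases hc with hc | hc | hc | ⟨k, hc | hc⟩
    · unfold stS at hc
      split at hc
      · rename_i s' hact
        rw [List.mem_singleton] at hc
        subst hc
        refine hold [(.st s, .zero)] (.st s') .zero t i fun hn => ?_
        have h1 := hn _ (List.mem_cons_self)
        rw [asg_st] at h1 ⊢
        rw [hnext, h1, hact]
      · rename_i k γ s' hact
        rw [List.mem_singleton] at hc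
        subst hc
        refine hold [(.st s, .zero)] (.st s') .zero t i fun hn => ?_
        have h1 := hn _ (List.mem_cons_self)
        rw [asg_st] at h1 ⊢
        rw [hnext, h1, hact]
      · rename_i k pop next hact
        rw [List.mem_map] at hc
        obtain ⟨o, -, rfl⟩ := hc
        refine hold [(.st s, .zero), (.hd k, .same), (.ce k o, .same)] (.st (next o)) .zero t i
          fun hn => ?_
        simp only [List.mem_cons, List.not_mem_nil, or_false, forall_eq_or_imp, forall_eq,
          Sh.at, asg_st, asg_hd, asg_ce] at hn ⊢
        obtain ⟨h1, h2, h3, h4⟩ := hn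
        rw [hnext, h1, hact]
        rw [h2, Nat.sub_self, ← List.head?_eq_getElem?] at h4
        simp only [h4]
    · unfold puS at hc
      split at hc
      · rename_i k γ s' hact
        simp only [List.mem_cons, List.not_mem_nil, or_false] at hc
        have hch := (change hb t k).1
        rcases hc with rfl | rfl
        · refine hold [(.st s, .zero), (.hd k, .succ)] (.hd k) .same t i fun hn => ?_
          simp only [List.mem_cons, List.not_mem_nil, or_false, forall_eq_or_imp, forall_eq,
            Sh.at, asg_st, asg_hd] at hn ⊢
          obtain ⟨h1, h2⟩ := hn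
          rw [← h1] at hact
          have := (hch γ s' hact).1
          omega
        · refine hold [(.st s, .zero), (.hd k, .succ)] (.ce k (some γ)) .same t i fun hn => ?_
          simp only [List.mem_cons, List.not_mem_nil, or_false, forall_eq_or_imp, forall_eq,
            Sh.at, asg_st, asg_hd, asg_ce] at hn ⊢
          obtain ⟨h1, h2⟩ := hn
          rw [← h1] at hact
          obtain ⟨h3, h4⟩ := hch γ s' hact
          rw [h4]
          refine ⟨by omega, ?_⟩
          rw [show i - hp act start k0 g P x y k (t + 1) = 0 by omega]
          rfl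
      · simp at hc
    · unfold poS at hc
      split at hc
      · rename_i k next hact
        have hch := (change hb t k).2
        simp only [List.mem_cons, List.mem_append, List.not_mem_nil, or_false, List.mem_map,
          Finset.mem_toList, Finset.mem_univ, true_and] at hc
        rcases hc with ⟨γ, rfl⟩ | (rfl | rfl) | ⟨o, rfl⟩
        · refine hold [(.st s, .zero), (.hd k, .same), (.ce k (some γ), .same)] (.hd k) .succ t i
            fun hn => ?_
          simp only [List.mem_cons, List.not_mem_nil, or_false, forall_eq_or_imp, forall_eq,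
            Sh.at, asg_st, asg_hd, asg_ce] at hn ⊢
          obtain ⟨h1, h2, h3, h4⟩ := hn
          rw [← h1] at hact
          rw [h2, Nat.sub_self] at h4
          cases hl : (run act start k0 g x y t).stk k with
          | nil => rw [hl] at h4; simp at h4
          | cons γ' l =>
            have := (hch.1 next hact γ' l hl).1
            omega
        · refine hold [(.st s, .zero), (.hd k, .same), (.ce k none, .same)] (.hd k) .same t i
            fun hn => ?_
          simp only [List.mem_cons, List.not_mem_nil, or_false, forall_eq_or_imp, forall_eq,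
            Sh.at, asg_st, asg_hd, asg_ce] at hn ⊢
          obtain ⟨h1, h2, h3, h4⟩ := hn
          rw [← h1] at hact
          rw [h2, Nat.sub_self] at h4
          cases hl : (run act start k0 g x y t).stk k with
          | nil =>
            have := (hch.2.1 next hact hl).1
            omega
          | cons γ' l => rw [hl] at h4; simp at h4
        · refine hold [(.st s, .zero), (.hd k, .same), (.ce k none, .same)] (.ce k none) .same t i
            fun hn => ?_
          simp only [List.mem_cons, List.not_mem_nil, or_false, forall_eq_or_imp, forall_eq,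
            Sh.at, asg_st, asg_hd, asg_ce] at hn ⊢
          obtain ⟨h1, h2, h3, h4⟩ := hn
          rw [← h1] at hact
          rw [h2, Nat.sub_self] at h4
          cases hl : (run act start k0 g x y t).stk k with
          | nil =>
            obtain ⟨h5, h6⟩ := hch.2.1 next hact hl
            rw [h5, h6]
            exact ⟨by omega, by simp⟩
          | cons γ' l => rw [hl] at h4; simp at h4
        · refine hold [(.st s, .zero), (.ce k o.1, .same), (.ce k o.2, .succ)] (.ce k o.2) .succ
            t i fun hn => ?_
          simp only [List.mem_cons, List.not_mem_nil, or_false, forall_eq_or_imp, forall_eq,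
            Sh.at, asg_st, asg_hd, asg_ce] at hn ⊢
          obtain ⟨h1, ⟨h2, -⟩, h3, h4⟩ := hn
          rw [← h1] at hact
          cases hl : (run act start k0 g x y t).stk k with
          | nil =>
            obtain ⟨h5, h6⟩ := hch.2.1 next hact hl
            rw [hl] at h4
            rw [h5, h6]
            exact ⟨h3, h4⟩
          | cons γ' l =>
            obtain ⟨h5, h6⟩ := hch.1 next hact γ' l hl
            rw [hl] at h4
            rw [h6, h5]
            refine ⟨by omega, ?_⟩
            rw [← h4, show i + 1 - hp act start k0 g P x y k t =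
              (i + 1 - (hp act start k0 g P x y k t + 1)) + 1 by omega, List.getElem?_cons_succ]
      · simp at hc
    · unfold hdS at hc
      split at hc
      · simp at hc
      · rename_i hmv
        rw [List.mem_singleton] at hc
        subst hc
        refine hold [(.st s, .zero), (.hd k, .same)] (.hd k) .same t i fun hn => ?_
        simp only [List.mem_cons, List.not_mem_nil, or_false, forall_eq_or_imp, forall_eq,
          Sh.at, asg_st, asg_hd] at hn ⊢
        obtain ⟨h1, h2⟩ := hn
        rw [← h1] at hmv
        rw [((change hb t k).2.2.2 hmv).1, h2]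
    · unfold ceS at hc
      split at hc
      · simp at hc
      · rename_i hpo
        rw [List.mem_map] at hc
        obtain ⟨o, -, rfl⟩ := hc
        refine hold [(.st s, .zero), (.ce k o, .same)] (.ce k o) .same t i fun hn => ?_
        simp only [List.mem_cons, List.not_mem_nil, or_false, forall_eq_or_imp, forall_eq,
          Sh.at, asg_st, asg_ce] at hn ⊢
        obtain ⟨h1, h2, h3⟩ := hn
        rw [← h1] at hpo
        by_cases hmv : mv act (run act start k0 g x y t).s k
        · rcases hmv with ⟨γ, s', hact⟩ | hmv
          · obtain ⟨h4, h5⟩ := (change hb t k).1 γ s' hact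
            rw [h5]
            refine ⟨by omega, ?_⟩
            rw [show i - hp act start k0 g P x y k (t + 1) =
              (i - hp act start k0 g P x y k t) + 1 by omega, List.getElem?_cons_succ, h3]
          · exact absurd hmv hpo
        · obtain ⟨h4, h5⟩ := (change hb t k).2.2.2 hmv
          rw [h4, h5]
          exact ⟨h2, h3⟩

end Complete

end Tab

end Pool.Agent.Lib.PolyTM
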